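import Pool.Agent.MP_a078ad_lc.Truth

namespace Pool.Agent.MP_a078ad_lc

open Pool.Agent.MP_c6cf52_lc Pool.Agent.MP_c6cf52_lc.Name Filter

theorem exists_pair_free {K : Type*} [Finite K] (Bad : K → ℕ → ℕ → Prop)
    (h : ∀ κ u v w, Bad κ u v → Bad κ u w → Bad κ v w → False) :
    ∃ u v, u ≠ v ∧ ∀ κ, ¬ Bad κ u v := by
  by_contra H
  push Not at H
  have h₁ : ∀ u, ∃ κ, ∀ᶠ v in (hyperfilter ℕ : Filter ℕ), Bad κ u v := by
    intro u
    rw [← Ultrafilter.eventually_exists_iff]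
    have : ∀ᶠ v in (hyperfilter ℕ : Filter ℕ), v ≠ u :=
      hyperfilter_le_cofinite (eventually_cofinite_ne u)
    exact this.mono fun v hv => H u v hv.symm
  choose κ hκ using h₁
  obtain ⟨κ₀, h₀⟩ : ∃ κ₀, ∀ᶠ u in (hyperfilter ℕ : Filter ℕ), κ u = κ₀ := by
    rw [← Ultrafilter.eventually_exists_iff]
    exact Eventually.of_forall fun u => ⟨_, rfl⟩
  obtain ⟨u, hu⟩ := h₀.exists
  obtain ⟨v, hv, huv⟩ := (h₀.and (hκ u)).exists
  obtain ⟨w, huw, hvw⟩ := ((hκ u).and (hκ v)).exists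
  rw [hu] at huv huw
  rw [hv] at hvw
  exact h _ _ _ _ huv huw hvw

theorem FNe.shift {y : Nm} {a b a' b' : Gam} {p q : Q} (h : FNe (a +ᵥ y) (b +ᵥ y) p) (σ : Gam)
    (ea : a + σ = a') (eb : b + σ = b') (hq : q ≤ σ +ᵥ p) : FNe (a' +ᵥ y) (b' +ᵥ y) q := by
  have := (h.vadd σ).mono hq
  rwa [← add_vadd, ← add_vadd, add_comm σ, add_comm σ, ea, eb] at this

theorem gam_cancel (a b : Gam) : a + b + b = a := by rw [add_assoc, gam_self, add_zero]

/-- A persistent inequality. -/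
def Pers (y : Nm) (r : Q) (a b : Gam) : Prop :=
  ∀ σ σ', Stab r σ → Stab r σ' → FNe ((a + σ) +ᵥ y) ((b + σ') +ᵥ y) r

theorem Pers.mono {y : Nm} {r r' : Q} {a b : Gam} (h : Pers y r a b) (hr : r' ≤ r) :
    Pers y r' a b := fun σ σ' h₁ h₂ => (h σ σ' (h₁.of_le hr) (h₂.of_le hr)).mono hr

theorem Pers.add {y : Nm} {r : Q} {a b σ σ' : Gam} (h : Pers y r a b) (h₁ : Stab r σ)
    (h₂ : Stab r σ') : Pers y r (a + σ) (b + σ') := fun τ τ' h₃ h₄ => by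
  rw [add_assoc, add_assoc]
  exact h _ _ (h₁.add h₃) (h₂.add h₄)

theorem Pers.symm {y : Nm} {r : Q} {a b : Gam} (h : Pers y r a b) : Pers y r b a :=
  fun σ σ' h₁ h₂ => (h σ' σ h₂ h₁).symm

theorem Pers.fne {y : Nm} {r : Q} {a b : Gam} (h : Pers y r a b) : FNe (a +ᵥ y) (b +ᵥ y) r := by
  simpa only [add_zero] using h 0 0 (Stab.zero r) (Stab.zero r)

theorem exists_pers {y : Nm} (hy : HS y) {r : Q} {a b : Gam} (h : FNe (a +ᵥ y) (b +ᵥ y) r) :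
    ∃ q ≤ r, Pers y q a b := by
  obtain ⟨q, hq, Δ, s, -, hI, -, hm, hcl, H₁, H₂⟩ := fusion (St := Unit)
    (fun _ Δ r _ => ∀ δ ∈ Δ, ∀ δ' ∈ Δ, FNe ((a + δ) +ᵥ y) ((b + δ') +ᵥ y) r) (fun _ _ => True)
    (fun _ _ _ _ _ hr h δ hδ δ' hδ' => (h δ hδ δ' hδ').mono hr) (by
      intro _ Δ r _ k hI
      obtain ⟨ρ, h₁, h₂, -, h₃⟩ := exists_blocks r k
      obtain ⟨g, hg, hN⟩ := exists_gn r (Set.range fun σ : Gam => σ +ᵥ y) (Set.countable_range _)
        (by rintro _ ⟨σ, rfl⟩; exact hy.vadd σ)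
      have hm : ∀ σ : Gam, σ +ᵥ y ∈ g.N := fun σ => hN ⟨σ, rfl⟩
      have hne : ∀ δ ∈ Δ, ∀ δ' ∈ Δ, ∀ u,
          g.v ((a + δ + ρ u) +ᵥ y) ≠ g.v ((b + δ' + ρ u) +ᵥ y) := fun δ hδ δ' hδ' u =>
        (Gn.v_ne_iff (hm _) (hm _)).2 ⟨r, hg, (hI δ hδ δ' hδ').shift _ rfl rfl (h₁ u).ge⟩
      obtain ⟨u, v, huv, H⟩ := exists_pair_free (K := Δ × Δ × Bool)
        (fun κ u v => g.v ((a + κ.1.1 + ρ (cond κ.2.2 u v)) +ᵥ y) =
          g.v ((b + κ.2.1.1 + ρ (cond κ.2.2 v u)) +ᵥ y)) (by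
          rintro ⟨δ, δ', _ | _⟩ u v w e₁ e₂ e₃
          · exact hne δ.1 δ.2 δ'.1 δ'.2 v (e₁.trans (e₂.symm.trans e₃))
          · exact hne δ.1 δ.2 δ'.1 δ'.2 v (e₃.trans (e₂.symm.trans e₁)))
      obtain ⟨r', hr', H'⟩ := Gn.dir_fin (g := g) (Finset.univ : Finset (Δ × Δ × Bool))
        (fun κ p => FNe ((a + κ.1.1 + ρ (cond κ.2.2 u v)) +ᵥ y)
          ((b + κ.2.1.1 + ρ (cond κ.2.2 v u)) +ᵥ y) p) (fun _ _ _ hq h => h.mono hq)
        (fun κ _ => (Gn.v_ne_iff (hm _) (hm _)).1 (H κ))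
      obtain ⟨s, -, hs₁, hs₂⟩ := g.dir hr' hg
      have hle : ρ u +ᵥ s ≤ r := (vadd_mono _ hs₂).trans (h₁ u).le
      have hst := (h₁ u).add (h₁ v)
      refine ⟨ρ u + ρ v, hst, (h₂ u).add (h₂ v), h₃ u v huv, ρ u +ᵥ s, hle, (), ?_, trivial⟩
      intro δ hδ δ' hδ'
      rw [mem_grow] at hδ hδ'
      rcases hδ with hδ | ⟨δ, hδ, rfl⟩ <;> rcases hδ' with hδ' | ⟨δ', hδ', rfl⟩
      · exact (hI δ hδ δ' hδ').mono hle
      · exact (H' (⟨δ, hδ⟩, ⟨δ', hδ'⟩, true) (Finset.mem_univ _)).shift (ρ u) (gam_cancel _ _)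
          (by simp only [cond]; abel) (vadd_mono _ hs₁)
      · exact (H' (⟨δ, hδ⟩, ⟨δ', hδ'⟩, false) (Finset.mem_univ _)).shift (ρ u)
          (by simp only [cond]; abel) (gam_cancel _ _) (vadd_mono _ hs₁)
      · exact (hI δ hδ δ' hδ').shift (ρ u + ρ v) (add_assoc _ _ _) (add_assoc _ _ _)
          (hle.trans hst.ge)) r () (by simpa using h)
  refine ⟨q, hq, fun σ σ' hσ hσ' t ht e => ?_⟩
  obtain ⟨n, hn⟩ := H₁ σ hσ
  obtain ⟨n', hn'⟩ := H₁ σ' hσ'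
  obtain ⟨t', ht', δ, hδ, hle⟩ := H₂ (max n n') t ht
  exact ((hI (max n n') _ (hcl _ _ (hm (le_max_left _ _) hn) _ hδ) _
    (hcl _ _ (hm (le_max_right _ _) hn') _ hδ)).shift δ
    (by rw [← add_assoc, gam_cancel]) (by rw [← add_assoc, gam_cancel]) hle) t' le_rfl
    (e.mono ht')

/-- Canonisation: a name that is nowhere fixed by the flips of type at least `j` is moved by
all flips of smaller type. -/
theorem canon {y : Nm} (hy : HS y) {j : ℕ} {p : Q}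
    (h : ∀ q ≤ p, ∃ σ, Stab q σ ∧ InH j σ ∧ ¬ FEq (σ +ᵥ y) y q) :
    ∃ q ≤ p, ∀ σ, Stab q σ → ¬ InH j σ → FNe (σ +ᵥ y) y q := by
  classical
  obtain ⟨q, hq, Δ, s, -, hI, -, -, hcl, H₁, H₂⟩ := fusion (St := Unit)
    (fun _ Δ r _ => (∀ δ ∈ Δ, δ +ᵥ r ≤ p) ∧
      ∀ δ ∈ Δ, ∀ δ' ∈ Δ, ¬ InH j (δ + δ') → Pers y r δ δ') (fun _ _ => True)
    (fun _ _ _ _ _ hr h => ⟨fun δ hδ => (vadd_mono _ hr).trans (h.1 δ hδ),
      fun δ hδ δ' hδ' h' => (h.2 δ hδ δ' hδ' h').mono hr⟩) (by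
      rintro _ Δ r _ k ⟨hp, hI⟩
      obtain ⟨β, b₁, b₂, b₃⟩ := exists_block r k
      have key : ∃ ρ, Stab r ρ ∧ InH k ρ ∧ ¬ InH (k + 1) ρ ∧ ∃ r' ≤ r,
          ∀ δ ∈ Δ, ∀ δ' ∈ Δ, ¬ InH j (δ + (δ' + ρ)) → Pers y r' δ (δ' + ρ) := by
        by_cases hk : j ≤ k
        · refine ⟨β, b₁, b₂, b₃, r, le_rfl, fun δ hδ δ' hδ' hn => ?_⟩
          have := (hI δ hδ δ' hδ' fun h' => hn (by
            rw [← add_assoc]; exact h'.add (b₂.mono hk))).add (Stab.zero r) b₁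
          rwa [add_zero] at this
        · have inner : ∀ T : Finset (Gam × Gam), T ⊆ Δ ×ˢ Δ → ∃ r' ≤ r, ∃ v, Stab r v ∧
              InH j (v + β) ∧ ∀ x ∈ T, Pers y r' x.1 (x.2 + v) := by
            intro T
            induction T using Finset.induction_on with
            | empty => exact fun _ => ⟨r, le_rfl, β, b₁, by rw [gam_self]; exact InH.zero _, by simp⟩
            | insert x T _ ih =>
              intro hT
              obtain ⟨r', hr', v, v₁, v₂, v₃⟩ := ih ((Finset.subset_insert _ _).trans hT)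
              have hx := Finset.mem_product.1 (hT (Finset.mem_insert_self _ _))
              have hle : (x.2 + v) +ᵥ r' ≤ p := by
                rw [add_vadd]
                exact (vadd_mono _ ((vadd_mono _ hr').trans v₁.le)).trans (hp _ hx.2)
              obtain ⟨σ, s₁, s₂, s₃⟩ := h _ hle
              have s₁' : Stab r' σ := s₁
              obtain ⟨t, ht, hne⟩ := exists_fne s₃
              have hne' : FNe ((x.2 + (v + σ)) +ᵥ y) ((x.2 + v) +ᵥ y) ((x.2 + v) +ᵥ t) :=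
                FNe.shift (a := σ) (b := 0) (by rwa [zero_vadd]) (x.2 + v) (by abel) (zero_add _)
                  le_rfl
              have ht' : (x.2 + v) +ᵥ t ≤ r' := vadd_le_swap ht
              obtain ⟨t', ht'', w, w₁, w₂, w₃⟩ : ∃ t' ≤ r', ∃ w, Stab r' w ∧ InH j w ∧
                  FNe (x.1 +ᵥ y) ((x.2 + (v + w)) +ᵥ y) t' := by
                by_cases e : FEq (x.1 +ᵥ y) ((x.2 + v) +ᵥ y) ((x.2 + v) +ᵥ t)
                · exact ⟨_, ht', σ, s₁', s₂, fun t' ht' e' =>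
                    hne' t' ht' (feq_trans e'.symm (e.mono ht'))⟩
                · obtain ⟨t', h₁, h₂⟩ := exists_fne e
                  exact ⟨t', h₁.trans ht', 0, Stab.zero _, InH.zero _, by rwa [add_zero]⟩
              obtain ⟨r'', hr'', hP⟩ := exists_pers hy w₃
              refine ⟨r'', hr''.trans (ht''.trans hr'), v + w, v₁.add (w₁.of_le hr'), ?_,
                fun z hz => ?_⟩
              · rw [add_right_comm]; exact v₂.add w₂
              · rcases Finset.mem_insert.1 hz with rfl | hz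
                · exact hP
                · have := ((v₃ z hz).add (Stab.zero _) w₁).mono (hr''.trans ht'')
                  rwa [add_zero, add_assoc] at this
          obtain ⟨r', hr', v, v₁, v₂, v₃⟩ := inner _ subset_rfl
          have hk' : k + 1 ≤ j := not_le.1 hk
          refine ⟨v, v₁, (v₂.mono (by omega)).of_add b₂, fun h' => b₃ ?_, r', hr',
            fun δ hδ δ' hδ' _ => v₃ (δ, δ') (Finset.mem_product.2 ⟨hδ, hδ'⟩)⟩
          rw [add_comm] at v₂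
          exact (v₂.mono hk').of_add h'
      obtain ⟨ρ, h₁, h₂, h₃, r', hr', H⟩ := key
      refine ⟨ρ, h₁, h₂, h₃, r', hr', (), ⟨fun δ hδ => ?_, fun δ hδ δ' hδ' hn => ?_⟩, trivial⟩
      · rw [mem_grow] at hδ
        rcases hδ with hδ | ⟨δ, hδ, rfl⟩
        · exact (vadd_mono _ hr').trans (hp δ hδ)
        · rw [add_vadd]
          exact (vadd_mono _ ((vadd_mono _ hr').trans h₁.le)).trans (hp δ hδ)
      · rw [mem_grow] at hδ hδ'
        rcases hδ with hδ | ⟨δ, hδ, rfl⟩ <;> rcases hδ' with hδ' | ⟨δ', hδ', rfl⟩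
        · exact (hI δ hδ δ' hδ' hn).mono hr'
        · exact H δ hδ δ' hδ' hn
        · exact (H δ' hδ' δ hδ (by rwa [add_comm])).symm
        · refine ((hI δ hδ δ' hδ' fun h' => hn ?_).add h₁ h₁).mono hr'
          rwa [show δ + ρ + (δ' + ρ) = δ + δ' + ρ + ρ by abel, gam_cancel])
    p () ⟨by simp, by simp [InH.zero]⟩
  refine ⟨q, hq, fun σ hσ hn t ht e => ?_⟩
  obtain ⟨n, hσn⟩ := H₁ σ hσ
  obtain ⟨t', ht', δ, hδ, hle⟩ := H₂ n t ht
  have := ((hI n).2 _ (hcl _ _ hσn _ hδ) _ hδ (by rwa [gam_cancel])).fne.shift δ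
    (gam_cancel _ _) (gam_self _) hle
  rw [zero_vadd] at this
  exact this t' le_rfl (e.mono ht')

/-- A name that is locally fixed is locally equal to a fixed name. -/
theorem localize {y : Nm} (hy : HS y) {j : ℕ} {q : Q}
    (h : ∀ σ, Stab q σ → InH j σ → FEq (σ +ᵥ y) y q) : ∃ z, HS z ∧ Fix j z ∧ FEq y z q := by
  let z : Nm := .mk {x : Gam × y.I × Q // InH j x.1 ∧ x.2.2 ≤ q ∧ x.2.2 ≤ y.B x.2.1}
    (fun x => x.1.1 +ᵥ y.A x.1.2.1) (fun x => x.1.1 +ᵥ x.1.2.2)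
  have hz : Fix j z := by
    refine fix_of fun σ hσ ⟨⟨τ, i, s⟩, h₁, h₂⟩ => ?_
    have := fmem_child z ⟨(σ + τ, i, s), hσ.add h₁, h₂⟩ le_rfl
    simpa only [z, A_mk, B_mk, add_vadd] using this
  refine ⟨z, hs_mk hz fun x => (hy.child _).vadd _, hz, ?_⟩
  rw [feq_iff]
  refine ⟨fun i s h₁ h₂ => ?_, fun ⟨⟨τ, i, s⟩, h₁, h₂, h₃⟩ t ht ht' => ?_⟩
  · have := fmem_child z ⟨(0, i, s), InH.zero _, h₁, h₂⟩ le_rfl
    simpa only [z, A_mk, B_mk, zero_vadd] using this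
  · have hτ : Stab q τ := stab_of_compat ht (ht'.trans (vadd_mono τ h₂))
    exact fmem_right ((fmem_vadd τ (fmem_child y i h₃)).mono ht') ((h τ hτ h₁).mono ht)

/-- The form in which canonisation is used. -/
theorem canon' {y : Nm} (hy : HS y) {j : ℕ} {p : Q}
    (h : ∀ q ≤ p, ∀ z, HS z → Fix j z → ¬ FEq y z q) :
    ∃ q ≤ p, ∀ σ, Stab q σ → ¬ InH j σ → FNe (σ +ᵥ y) y q := by
  refine canon hy fun q hq => ?_
  by_contra h'
  push Not at h'
  obtain ⟨z, h₁, h₂, h₃⟩ := localize hy h'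
  exact h q hq z h₁ h₂ h₃

end Pool.Agent.MP_a078ad_lc
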