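import Pool.Agent.MP_a078ad_lc.Match

namespace Pool.Agent.MP_a078ad_lc

open Pool.Agent.MP_c6cf52_lc Pool.Agent.MP_c6cf52_lc.Name Cardinal

/-- Below `q`, every element of `X` is low or is named in the family `F`. -/
def Cov (Low : Nm → Prop) (q : Q) (X : Nm) {K : Type} (F : K → Nm) : Prop :=
  ∀ q' ≤ q, ∀ τ, HS τ → FMem τ X q' →
    ∃ s ≤ q', (∃ z, HS z ∧ Low z ∧ FEq τ z s) ∨ ∃ k, FEq τ (F k) s

theorem Cov.mono {Low Low' : Nm → Prop} {q q' : Q} {X : Nm} {K : Type} {F : K → Nm}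
    (h : Cov Low q X F) (hq : q' ≤ q) (hL : ∀ z, Low z → Low' z) : Cov Low' q' X F := by
  intro r hr τ hτ hm
  obtain ⟨s, hs, ⟨z, h₁, h₂, h₃⟩ | h'⟩ := h r (hr.trans hq) τ hτ hm
  exacts [⟨s, hs, Or.inl ⟨z, h₁, hL z h₂, h₃⟩⟩, ⟨s, hs, Or.inr h'⟩]

theorem not_cov {Low : Nm → Prop} {q : Q} {X : Nm} {K : Type} {F : K → Nm}
    (h : ¬ Cov Low q X F) : ∃ q' ≤ q, ∃ τ, HS τ ∧ FMem τ X q' ∧
      (∀ z, HS z → Low z → FNe τ z q') ∧ ∀ k, FNe τ (F k) q' := by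
  unfold Cov at h
  push Not at h
  obtain ⟨q', hq', τ, h₁, h₂, h₃⟩ := h
  exact ⟨q', hq', τ, h₁, h₂, fun z a b s hs => (h₃ s hs).1 z a b, fun k s hs => (h₃ s hs).2 k⟩

theorem cov_self (Low : Nm → Prop) (q : Q) (X : Nm) : Cov Low q X X.A := by
  intro q' _ τ _ h
  obtain ⟨s, hs, i, -, e⟩ := h q' le_rfl
  exact ⟨s, hs, Or.inr ⟨i, e⟩⟩

/-- The orbit of the pair is a function from a subset of `Y`. -/
def Sys (j : ℕ) (Y : Nm) (t : Tr) : Prop :=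
  HS t.y ∧ HS t.x ∧ FMem t.y Y t.r ∧
    ∀ σ, InH j σ → Stab t.r σ → FNe (σ +ᵥ t.y) t.y t.r ∨ FEq (σ +ᵥ t.x) t.x ⊤

theorem Out.mono {j : ℕ} {ι : Type} {Good : ι → Tr → Prop} {q : Q} {κ κ' : Cardinal.{0}}
    (h : Out j Good q κ) (hκ : κ ≤ κ') : Out j Good q κ' := by
  obtain ⟨S, h₁, h₂, h₃, h₄, K, U, h₅, h₆⟩ := h
  exact ⟨S, h₁, h₂, h₃, h₄, K, U, h₅.trans hκ, h₆⟩

theorem exists_fix_finite {U : Set Nm} (hU : U.Finite) (hs : ∀ u ∈ U, HS u) :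
    ∃ k, ∀ u ∈ U, Fix k u := by
  obtain ⟨k, hk⟩ := exists_fix_list (l := hU.toFinset.toList) (by simpa using hs)
  exact ⟨k, by simpa using hk⟩

theorem mk_gam_prod {K : Type} {κ : Cardinal.{0}} (hκ : ℵ₀ < κ) (h : #K < κ) :
    #(Gam × K) < κ := by
  rw [mk_prod, lift_id, lift_id]
  exact mul_lt_of_lt hκ.le (mk_le_aleph0.trans_lt hκ) h

/-- The target is the task if the task is low. -/
def Hit (j : ℕ) (φ : Nm) (t : Tr) : Prop :=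
  FEq φ t.x t.r ∨ ∀ s ≤ t.r, ∀ z, HS z → Fix j z → ¬ FEq φ z s

theorem exists_hit (j : ℕ) (φ y : Nm) (q : Q) :
    ∃ s ≤ q, ∃ x, HS x ∧ Fix j x ∧ Hit j φ ⟨s, y, x⟩ := by
  by_cases h : ∀ s ≤ q, ∀ z, HS z → Fix j z → ¬ FEq φ z s
  · exact ⟨q, le_rfl, emp, hs_emp, fix_emp j, Or.inr h⟩
  · push Not at h
    obtain ⟨s, hs, z, h₁, h₂, h₃⟩ := h
    exact ⟨s, hs, z, h₁, h₂, Or.inl h₃⟩

section Main

variable {X Y : Nm} {j : ℕ} {q : Q} {lam mu : Cardinal.{0}}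

theorem supply_core {φ : Nm} (hφ : HS φ) {k l : ℕ} (hk : Fix k φ) (hkl : k ≤ l) {q' : Q} {τ : Nm}
    (h₁ : HS τ) (h₂ : FMem τ Y q') (h₃ : ∀ z, HS z → Fix l z → FNe τ z q') :
    ∃ r ≤ q', Sys j Y ⟨r, τ, φ⟩ := by
  obtain ⟨r, hr, H⟩ := canon' h₁ (j := l) (p := q') fun s hs z a b => h₃ z a b s hs
  refine ⟨r, hr, h₁, hφ, h₂.mono hr, fun σ _ hσ => ?_⟩
  by_cases h : InH l σ
  exacts [Or.inr (hk σ (h.mono hkl)), Or.inl (H σ hσ h)]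

theorem supply_fin
    (l1 : ∀ q' ≤ q, ∀ j', j ≤ j' → ∀ (K : Type) (F : K → Nm), (∀ k, HS (F k)) →
      Cov (Fix j') q' Y F → lam ≤ #K) (hl : 0 < lam) {q' : Q} (hq' : q' ≤ q) {U : Set Nm}
    (hU : U.Finite) (hs : ∀ u ∈ U, HS u) {φ : Nm} (hφ : HS φ) :
    ∃ t : Tr, t.r ≤ q' ∧ (Sys j Y t ∧ t.x = φ) ∧ ∀ u ∈ U, Fresh j u t := by
  obtain ⟨k, hk⟩ := hφ.fix
  obtain ⟨k', hk'⟩ := exists_fix_finite hU hs
  obtain ⟨q'', h₀, τ, h₁, h₂, h₃, -⟩ := not_cov (Low := Fix (max j (max k k'))) (q := q') (X := Y)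
    (F := (Empty.elim : Empty → Nm)) fun h => by
      have := l1 q' hq' _ (le_max_left _ _) _ _ (fun k => k.elim) h
      simp only [mk_eq_zero] at this
      exact absurd hl (not_lt.2 this)
  obtain ⟨r, hr, H⟩ := supply_core (j := j) hφ hk (le_max_of_le_right (le_max_left _ _)) h₁ h₂ h₃
  exact ⟨_, hr.trans h₀, ⟨H, rfl⟩, fun u hu σ _ => (h₃ _ ((hs u hu).vadd σ)
    (((hk' u hu).mono (le_max_of_le_right (le_max_right _ _))).vadd σ)).mono hr⟩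

theorem phase_one
    (l1 : ∀ q' ≤ q, ∀ j', j ≤ j' → ∀ (K : Type) (F : K → Nm), (∀ k, HS (F k)) →
      Cov (Fix j') q' Y F → lam ≤ #K) {K : Type} {F : K → Nm} (hF : ∀ k, HS (F k))
    (hl : K → 0 < lam) (hK : #K ≤ max lam ℵ₀) :
    ∃ r ≤ q, Out j (fun i t => Sys j Y t ∧ t.x = F i) r (max lam ℵ₀) := by
  by_cases h : lam ≤ ℵ₀
  · rw [max_eq_right h] at hK ⊢
    have := mk_le_aleph0_iff.1 hK
    refine out_ctble (fun _ _ h => h.1.1) fun q' hq' L hL hG i => ?_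
    obtain ⟨t, h₁, h₂, h₃⟩ := supply_fin l1 (hl i) hq' (hL.image Tr.y) (by
      rintro _ ⟨t, ht, rfl⟩
      obtain ⟨i, hi⟩ := hG t ht
      exact hi.1.1) (hF i)
    exact ⟨t, h₁, h₂, fun t' ht' => h₃ _ ⟨t', ht', rfl⟩⟩
  · have h' := not_le.1 h
    rw [max_eq_left h'.le] at hK ⊢
    refine ⟨q, le_rfl, out_unc h' hK (fun _ _ h => h.1.1) fun q' hq' K' U hK' hU i => ?_⟩
    obtain ⟨k, hk⟩ := (hF i).fix
    obtain ⟨q'', h₀, τ, h₁, h₂, h₃, h₄⟩ := not_cov (Low := Fix (max j k)) (q := q') (X := Y)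
      (F := fun x : Gam × K' => x.1 +ᵥ U x.2) fun h => absurd (mk_gam_prod h' hK')
        (not_lt.2 (l1 q' hq' _ (le_max_left _ _) _ _ (fun x => (hU _).vadd _) h))
    obtain ⟨r, hr, H⟩ := supply_core (j := j) (hF i) hk (le_max_right _ _) h₁ h₂ h₃
    exact ⟨_, hr.trans h₀, ⟨H, rfl⟩, fun k σ _ => (h₄ (σ, k)).mono hr⟩

theorem match_main {K₁ K₂ : Type} {F₁ : K₁ → Nm} {F₂ : K₂ → Nm} (hF₁ : ∀ k, HS (F₁ k))
    (hF₂ : ∀ k, HS (F₂ k)) (hK₁ : #K₁ ≤ lam) (hK₂ : #K₂ ≤ mu) (c1 : Cov (Fix j) q X F₁)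
    (c2 : Cov (fun _ => False) q X F₂)
    (c3 : IsEmpty K₁ → Cov (Fix j) q Y (Empty.elim : Empty → Nm))
    (l1 : ∀ q' ≤ q, ∀ j', j ≤ j' → ∀ (K : Type) (F : K → Nm), (∀ k, HS (F k)) →
      Cov (Fix j') q' Y F → lam ≤ #K)
    (l2 : ∀ q' ≤ q, ∀ (K : Type) (F : K → Nm), (∀ k, HS (F k)) →
      Cov (fun _ => False) q' Y F → mu ≤ #K) :
    ∃ r ≤ q, ∃ S : Set Tr, Small.{0} S ∧ (∀ t ∈ S, Sys j Y t) ∧ S.Pairwise (Sep j) ∧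
      ∀ q' ≤ r, ∀ τ, HS τ → FMem τ X q' → ∃ t ∈ S, ∃ s ≤ q', s ≤ t.r ∧ FEq τ t.x s := by
  classical
  have hpos : K₁ → 0 < lam := fun k => (pos_iff_ne_zero.2 (mk_ne_zero_iff.2 ⟨k⟩)).trans_le hK₁
  by_cases hA : 0 < lam ∧ mu ≤ max lam ℵ₀
  · obtain ⟨r, hr, S, h₁, h₂, h₃, h₄, -⟩ := phase_one l1 hF₂ (fun _ => hA.1) (hK₂.trans hA.2)
    refine ⟨r, hr, S, h₁, fun t ht => (h₂ t ht).choose_spec.1, h₃, fun q' hq' τ hτ hm => ?_⟩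
    obtain ⟨s, hs, ⟨_, _, h, _⟩ | ⟨i, e⟩⟩ := c2 q' (hq'.trans hr) τ hτ hm
    · exact h.elim
    obtain ⟨t, ht, ⟨-, e'⟩, s', a, b⟩ := h₄ i s (hs.trans hq')
    exact ⟨t, ht, s', a.trans hs, b, e' ▸ e.mono a⟩
  have hit : ∀ {r : Q} {S : Set Tr} {Good : K₂ → Tr → Prop}, r ≤ q →
      (∀ i t, Good i t → Hit j (F₂ i) t) →
      (∀ i, ∀ q' ≤ r, ∃ t ∈ S, Good i t ∧ ∃ s ≤ q', s ≤ t.r) →
      ∀ q' ≤ r, ∀ τ z, HS τ → FMem τ X q' → HS z → Fix j z → FEq τ z q' →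
      ∃ t ∈ S, ∃ s ≤ q', s ≤ t.r ∧ FEq τ t.x s := by
    intro r S Good hr hG h₄ q' hq' τ z hτ hm z₁ z₂ z₃
    obtain ⟨s, hs, ⟨_, _, h, _⟩ | ⟨i, e⟩⟩ := c2 q' (hq'.trans hr) τ hτ hm
    · exact h.elim
    obtain ⟨t, ht, hg, s', a, b⟩ := h₄ i s (hs.trans hq')
    rcases hG i t hg with h | h
    · exact ⟨t, ht, s', a.trans hs, b, feq_trans (e.mono a) (h.mono b)⟩
    · exact absurd (feq_trans (e.mono a).symm (z₃.mono (a.trans hs))) (h s' b z z₁ z₂)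
  by_cases hB : ℵ₀ < mu
  · have hlm : max lam ℵ₀ < mu := by
      by_contra h
      rcases eq_zero_or_pos lam with h' | h'
      · rw [h', max_eq_right zero_le] at h
        exact h hB
      · exact hA ⟨h', not_lt.1 h⟩
    obtain ⟨r, hr, S, h₁, h₂, h₃, h₄, K, U, hK, hU, hc⟩ :=
      phase_one l1 hF₁ hpos (hK₁.trans (le_max_left _ _))
    obtain ⟨S', g₁, g₂, g₃, g₄, -⟩ := out_unc (j := j) (q := r)
      (Good := fun i t => Sys j Y t ∧ (∀ k, Fresh j (U k) t) ∧ Hit j (F₂ i) t) hB hK₂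
      (fun _ _ h => h.1.1) fun q' hq' K' U' hK' hU' i => by
        obtain ⟨q'', h₀, τ, a₁, a₂, -, a₄⟩ := not_cov (Low := fun _ => False) (q := q') (X := Y)
          (F := fun x : Gam × (K ⊕ K') => x.1 +ᵥ Sum.elim U U' x.2) fun h =>
          absurd (mk_gam_prod hB (by
            rw [mk_sum, lift_id, lift_id]
            exact add_lt_of_lt hB.le (hK.trans_lt hlm) hK'))
          (not_lt.2 (l2 q' (hq'.trans hr) _ _ (by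
            rintro ⟨σ, k | k⟩
            exacts [(hU k).vadd σ, (hU' k).vadd σ]) h))
        obtain ⟨s, hs, x, x₁, x₂, x₃⟩ := exists_hit j (F₂ i) τ q''
        exact ⟨⟨s, τ, x⟩, hs.trans h₀, ⟨⟨a₁, x₁, a₂.mono hs, fun σ hσ _ => Or.inr (x₂ σ hσ)⟩,
          fun k σ _ => (a₄ (σ, .inl k)).mono hs, x₃⟩, fun k σ _ => (a₄ (σ, .inr k)).mono hs⟩
    have hsep : ∀ t ∈ S, ∀ t' ∈ S', Sep j t t' := fun t ht t' ht' => by
      obtain ⟨k, hk⟩ := hc t ht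
      exact ((g₂ t' ht').choose_spec.2.1 k).sep hk
    refine ⟨r, hr, S ∪ S', inferInstance, ?_, ?_, fun q' hq' τ hτ hm => ?_⟩
    · rintro t (ht | ht)
      exacts [(h₂ t ht).choose_spec.1, (g₂ t ht).choose_spec.1]
    · rintro t (ht | ht) t' (ht' | ht') hne
      exacts [h₃ ht ht' hne, hsep t ht t' ht', (hsep t' ht' t ht).symm, g₃ ht ht' hne]
    · obtain ⟨s, hs, ⟨z, z₁, z₂, z₃⟩ | ⟨i, e⟩⟩ := c1 q' (hq'.trans hr) τ hτ hm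
      · obtain ⟨t, ht, s', a, b⟩ := hit hr (fun _ _ h => h.2.2) g₄ s (hs.trans hq') τ z hτ
          (hm.mono hs) z₁ z₂ z₃
        exact ⟨t, Or.inr ht, s', a.trans hs, b⟩
      · obtain ⟨t, ht, ⟨-, e'⟩, s', a, b⟩ := h₄ i s (hs.trans hq')
        exact ⟨t, Or.inl ht, s', a.trans hs, b, e' ▸ e.mono a⟩
  have hB' := not_lt.1 hB
  have hE : IsEmpty K₁ := ⟨fun k => hA ⟨hpos k, hB'.trans (le_max_right _ _)⟩⟩
  have sup : ∀ q' ≤ q, ∀ L : Set Tr, L.Finite → (L.ncard : Cardinal.{0}) < mu →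
      (∀ t ∈ L, ∃ i, Sys j Y t ∧ Fix j t.y ∧ Hit j (F₂ i) t) → ∀ i, ∃ t : Tr, t.r ≤ q' ∧
      (Sys j Y t ∧ Fix j t.y ∧ Hit j (F₂ i) t) ∧ ∀ t' ∈ L, Fresh j t'.y t := by
    intro q' hq' L hL hc hG i
    let e := hL.toFinset.equivFin
    have he : ∀ k, (e.symm k).1 ∈ L := fun k => hL.mem_toFinset.1 (e.symm k).2
    obtain ⟨q'', h₀, τ, a₁, a₂, -, a₄⟩ := not_cov (Low := fun _ => False) (q := q') (X := Y)
      (F := fun k => (e.symm k).1.y) fun h => absurd hc (not_lt.2 (by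
        have := l2 q' hq' _ _ (fun k => (hG _ (he k)).choose_spec.1.1) h
        rwa [mk_fin, ← Set.ncard_eq_toFinset_card _ hL] at this))
    obtain ⟨s₀, hs₀, ⟨z, z₁, z₂, z₃⟩ | ⟨k, -⟩⟩ := c3 hE q'' (h₀.trans hq') τ a₁ a₂
    swap
    · exact k.elim
    obtain ⟨s, hs, x, x₁, x₂, x₃⟩ := exists_hit j (F₂ i) z s₀
    refine ⟨⟨s, z, x⟩, hs.trans (hs₀.trans h₀), ⟨⟨z₁, x₁,
      (fmem_left z₃.symm (a₂.mono hs₀)).mono hs, fun σ hσ _ => Or.inr (x₂ σ hσ)⟩, z₂, x₃⟩,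
      fun t' ht' σ hσ s' hs' e' => ?_⟩
    have := a₄ (e ⟨t', hL.mem_toFinset.2 ht'⟩) s' (hs'.trans (hs.trans hs₀))
    simp only [Equiv.symm_apply_apply] at this
    exact this (feq_trans (z₃.mono (hs'.trans hs)) (feq_trans e'
      (((hG t' ht').choose_spec.2.1 σ hσ).mono le_top)))
  obtain ⟨r, hr, S, h₁, h₂, h₃, h₄, -⟩ : ∃ r ≤ q,
      Out j (fun i t => Sys j Y t ∧ Fix j t.y ∧ Hit j (F₂ i) t) r ℵ₀ := by
    rcases hB'.lt_or_eq with h | h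
    · have : Finite K₂ := lt_aleph0_iff_finite.1 (hK₂.trans_lt h)
      have := Fintype.ofFinite K₂
      refine out_fin (fun _ _ h => h.1.1) fun q' hq' L hL hc => sup q' hq' L hL ?_
      rw [mk_fintype] at hK₂
      exact (Nat.cast_lt.2 hc).trans_le hK₂
    · have := mk_le_aleph0_iff.1 (hK₂.trans hB')
      exact out_ctble (fun _ _ h => h.1.1) fun q' hq' L hL =>
        sup q' hq' L hL (h ▸ natCast_lt_aleph0)
  refine ⟨r, hr, S, h₁, fun t ht => (h₂ t ht).choose_spec.1, h₃, fun q' hq' τ hτ hm => ?_⟩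
  obtain ⟨s, hs, ⟨z, z₁, z₂, z₃⟩ | ⟨i, -⟩⟩ := c1 q' (hq'.trans hr) τ hτ hm
  · obtain ⟨t, ht, s', a, b⟩ := hit hr (fun _ _ h => h.2.2) h₄ s (hs.trans hq') τ z hτ
      (hm.mono hs) z₁ z₂ z₃
    exact ⟨t, ht, s', a.trans hs, b⟩
  · exact hE.elim i

end Main

end Pool.Agent.MP_a078ad_lc
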