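import Pool.Agent.MP_e34318_lc.Defs

namespace Pool.Agent.MP_a078ad_lc

open FirstOrder Pool.Agent.MP_c6cf52_lc Pool.Agent.MP_e34318_lc

universe u

variable {M : Type u} (E : M → M → Prop)

/-- `(M, E)` is a model of ZF. -/
structure IsZF : Prop where
  ext : ∀ a b, (∀ x, E x a ↔ E x b) → a = b
  found : ∀ a, (∃ x, E x a) → ∃ x, E x a ∧ ¬ ∃ y, E y x ∧ E y a
  pair : ∀ a b, ∃ c, ∀ x, E x c ↔ x = a ∨ x = b
  union : ∀ a, ∃ c, ∀ x, E x c ↔ ∃ y, E x y ∧ E y a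
  power : ∀ a, ∃ c, ∀ x, E x c ↔ ∀ y, E y x → E y a
  inf : ∃ w, (∃ e, E e w ∧ ∀ y, ¬ E y e) ∧
    ∀ x, E x w → ∃ s, E s w ∧ ∀ y, E y s ↔ E y x ∨ y = x
  sep : ∀ S : Set M, @Set.Definable₁ M Set.univ Language.graph (memStr E) S →
    ∀ a, ∃ b, ∀ x, E x b ↔ E x a ∧ x ∈ S
  repl : ∀ R : Set (M × M), @Set.Definable₂ M Set.univ Language.graph (memStr E) R →
    ∀ a, (∀ x, E x a → ∃! y, (x, y) ∈ R) → ∃ b, ∀ y, E y b ↔ ∃ x, E x a ∧ (x, y) ∈ R

/-- The axiom of choice: every family of pairwise disjoint nonempty sets has a choice set. -/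
def AC : Prop :=
  ∀ a, (∀ x, E x a → ∃ y, E y x) →
    (∀ x y, E x a → E y a → (∃ z, E z x ∧ E z y) → x = y) →
    ∃ c, ∀ x, E x a → ∃! y, E y x ∧ E y c

/-- `f` is a surjection from `X` onto `Y`. -/
def IsSurj (f X Y : M) : Prop := IsFun E f X Y ∧ ∀ b, E b Y → ∃ a, App E f a b

/-- `X` is empty or a surjective image of `Y`. -/
def LeStar (X Y : M) : Prop := (∀ x, ¬ E x X) ∨ ∃ f, IsSurj E f Y X

/-- `s = n ∪ {n}`. -/
def IsSucc (n s : M) : Prop := ∀ z, E z s ↔ E z n ∨ z = n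

/-- Every sequence of surjections `A n → A (n+1)` has some `n` with `A n ≤* A (n+1)`. -/
def WFs4 : Prop :=
  ∀ w A F U V, IsOmega E w → IsFun E A w U → IsFun E F w V →
    (∀ n s a b f, E n w → IsSucc E n s → App E A n a → App E A s b → App E F n f →
      IsSurj E f a b) →
    ∃ n s a b, E n w ∧ IsSucc E n s ∧ App E A n a ∧ App E A s b ∧ LeStar E a b

end Pool.Agent.MP_a078ad_lc
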