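import Pool.Agent.Mg.Fa078ad.Ga7d7d2

/-! Two ordinal invariants decide the surjective comparison of sets in the symmetric model. -/

namespace Pool.Agent.MP_a078ad_lc

namespace Dim

open Pool.Agent.MP_c6cf52_lc Pool.Agent.MP_c6cf52_lc.Name Pool.Agent.MP_e34318_lc Cardinal Gn

/-- Families of low names. -/
structure Lw (L : ℕ → Nm → Prop) : Prop where
  mono : ∀ {j k z}, L j z → j ≤ k → L k z
  vadd : ∀ {j z} (σ : Gam), L j z → L j (σ +ᵥ z)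
  ap : ∀ {j f z} (Y : Nm), Fix j f → L j z → L j (apN f Y z)

theorem lw_fix : Lw Fix := ⟨Fix.mono, fun σ h => h.vadd σ, fun Y h h' => fix_apN Y h h'⟩

theorem lw_no : Lw fun _ _ => False := ⟨fun h _ => h, fun _ h => h, fun _ _ h => h⟩

/-- Below `q` the least size of a cover of `X` is `c`. -/
def Dec (L : ℕ → Nm → Prop) (q : Q) (X : Nm) (c : Cardinal.{0}) : Prop :=
  (∃ (j : ℕ) (K : Type) (F : K → Nm), (∀ k, HS (F k)) ∧ Cov (L j) q X F ∧ #K = c) ∧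
    ∀ q' ≤ q, ∀ (j : ℕ) (K : Type) (F : K → Nm), (∀ k, HS (F k)) → Cov (L j) q' X F → c ≤ #K

variable {L : ℕ → Nm → Prop} {q q' : Q} {X X' Y : Nm} {c c' : Cardinal.{0}}

theorem Dec.mono (h : Dec L q X c) (hq : q' ≤ q) : Dec L q' X c :=
  let ⟨j, K, F, h₁, h₂, h₃⟩ := h.1
  ⟨⟨j, K, F, h₁, h₂.mono hq fun _ h => h, h₃⟩, fun r hr => h.2 r (hr.trans hq)⟩

theorem Dec.unique (h : Dec L q X c) (h' : Dec L q X c') : c = c' := by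
  obtain ⟨j, K, F, h₁, h₂, rfl⟩ := h.1
  obtain ⟨j', K', F', h₁', h₂', rfl⟩ := h'.1
  exact le_antisymm (h.2 q le_rfl j' K' F' h₁' h₂') (h'.2 q le_rfl j K F h₁ h₂)

theorem exists_dec (L : ℕ → Nm → Prop) (hX : HS X) (q : Q) :
    ∃ r ≤ q, ∃ c ≤ #X.I, Dec L r X c := by
  obtain ⟨c, ⟨r, hr, j, K, F, h₁, h₂, rfl⟩, l⟩ := wellFounded_lt.has_min
    {c : Cardinal.{0} | ∃ r ≤ q, ∃ (j : ℕ) (K : Type) (F : K → Nm), (∀ k, HS (F k)) ∧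
      Cov (L j) r X F ∧ #K = c} ⟨_, q, le_rfl, 0, _, _, hX.child, cov_self _ _ _, rfl⟩
  exact ⟨r, hr, _, not_lt.1 (l _ ⟨q, le_rfl, 0, _, _, hX.child, cov_self _ _ _, rfl⟩),
    ⟨j, K, F, h₁, h₂, rfl⟩, fun s hs j' K' F' a b =>
      not_lt.1 (l _ ⟨s, hs.trans hr, j', K', F', a, b, rfl⟩)⟩

theorem cov_congr {Low : Nm → Prop} {K : Type} {F : K → Nm} (h : Cov Low q X F)
    (e : FEq X X' q) : Cov Low q X' F := fun r hr τ hτ hm =>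
  h r hr τ hτ (fmem_right hm (e.symm.mono hr))

theorem Dec.congr (h : Dec L q X c) (e : FEq X X' q) : Dec L q X' c :=
  let ⟨j, K, F, h₁, h₂, h₃⟩ := h.1
  ⟨⟨j, K, F, h₁, cov_congr h₂ e, h₃⟩, fun r hr j K F a b =>
    h.2 r hr j K F a (cov_congr b (e.symm.mono hr))⟩

theorem cov_vadd (hL : Lw L) (σ : Gam) {j : ℕ} {K : Type} {F : K → Nm} (h : Cov (L j) q X F) :
    Cov (L j) (σ +ᵥ q) (σ +ᵥ X) fun k => σ +ᵥ F k := by
  intro r hr τ hτ hm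
  have hm' := fmem_vadd σ hm
  rw [vadd_vadd_self] at hm'
  obtain ⟨s, hs, H⟩ := h _ (vadd_le_swap hr) _ (hτ.vadd σ) hm'
  refine ⟨σ +ᵥ s, vadd_le_swap hs, ?_⟩
  rcases H with ⟨z, a, b, e⟩ | ⟨k, e⟩
  · exact Or.inl ⟨_, a.vadd σ, hL.vadd σ b, by simpa only [vadd_vadd_self] using feq_vadd σ e⟩
  · exact Or.inr ⟨k, by simpa only [vadd_vadd_self] using feq_vadd σ e⟩

theorem Dec.vadd (hL : Lw L) (σ : Gam) (h : Dec L q X c) : Dec L (σ +ᵥ q) (σ +ᵥ X) c := by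
  obtain ⟨j, K, F, h₁, h₂, h₃⟩ := h.1
  refine ⟨⟨j, K, _, fun k => (h₁ k).vadd σ, cov_vadd hL σ h₂, h₃⟩, fun r hr j K F a b => ?_⟩
  have := cov_vadd hL σ b
  rw [vadd_vadd_self] at this
  exact h.2 _ (vadd_le_swap hr) j K _ (fun k => (a k).vadd σ) this

theorem dec_le {l m l' m' : Cardinal.{0}} (hY : HS Y) (h₁ : Dec Fix q X l)
    (h₂ : Dec (fun _ _ => False) q X m) (h₃ : Dec Fix q Y l') (h₄ : Dec (fun _ _ => False) q Y m')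
    (hl : l ≤ l') (hm : m ≤ m') :
    ∃ r ≤ q, ∃ h, HS h ∧ ∀ g : Gn, r ∈ g.G → h ∈ g.N → X ∈ g.N → Y ∈ g.N →
      LeStar g.E (g.v X) (g.v Y) := by
  obtain ⟨j, K₁, F₁, a₁, c₁, rfl⟩ := h₁.1
  obtain ⟨j₂, K₂, F₂, a₂, c₂, rfl⟩ := h₂.1
  obtain ⟨j', K₃, F₃, -, c₃, rfl⟩ := h₃.1
  obtain ⟨k, hk⟩ := hY.fix
  have key : ∀ {K : Type} {F : K → Nm}, (∀ k, HS (F k)) → #K ≤ #K₃ →
      Cov (Fix (max k (max j j'))) q X F →
      (IsEmpty K → Cov (Fix (max k (max j j'))) q Y (Empty.elim : Empty → Nm)) →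
      ∃ r ≤ q, ∃ h, HS h ∧ ∀ g : Gn, r ∈ g.G → h ∈ g.N → X ∈ g.N → Y ∈ g.N →
        LeStar g.E (g.v X) (g.v Y) := by
    intro K F b₁ b₂ b₃ b₄
    obtain ⟨r, hr, S, d₁, d₂, d₃, d₄⟩ := match_main b₁ a₂ b₂ hm b₃ c₂ b₄
      (fun q' hq' j' _ => h₃.2 q' hq' j') fun q' hq' => h₄.2 q' hq' 0
    exact ⟨r, hr, leStar_of_sys (hk.mono (le_max_left _ _)) d₁ d₂ d₃ d₄⟩
  have c₁' := c₁.mono le_rfl fun z (h : Fix j z) =>
    h.mono (le_max_of_le_right (le_max_left j j') : j ≤ max k _)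
  rcases isEmpty_or_nonempty K₃ with hE | hE
  · refine key a₁ hl c₁' fun _ r hr τ hτ hm => ?_
    obtain ⟨s, hs, ⟨z, b₁, b₂, b₃⟩ | ⟨i, -⟩⟩ := c₃ r hr τ hτ hm
    exacts [⟨s, hs, Or.inl ⟨z, b₁, b₂.mono (le_max_of_le_right (le_max_right _ _)), b₃⟩⟩,
      hE.elim i]
  rcases isEmpty_or_nonempty K₁ with hE' | hE'
  · refine key (F := fun _ : Unit => emp) (fun _ => hs_emp)
      (by rw [mk_unit]; exact Cardinal.one_le_iff_ne_zero.2 (mk_ne_zero _)) (fun r hr τ hτ hm => ?_)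
      fun h => h.elim ()
    obtain ⟨s, hs, H | ⟨i, -⟩⟩ := c₁' r hr τ hτ hm
    exacts [⟨s, hs, Or.inl H⟩, hE'.elim i]
  · exact key a₁ hl c₁' fun h => hE'.elim h.elim

variable {g : Gn}

theorem le_of_leStar (hL : Lw L) (hX : X ∈ g.N) (hY : Y ∈ g.N) (hq : q ∈ g.G) (h₁ : Dec L q X c)
    (h₂ : Dec L q Y c') (h : LeStar g.E (g.v X) (g.v Y)) : c ≤ c' := by
  rcases h with h | ⟨f, h⟩
  · obtain ⟨p, hp, H⟩ := transfer (Ψ := fun _ E w => ∀ x, ¬ E x (w 0))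
      (UDef.all (UDef.mem _ _).not) (l1 hX) h
    obtain ⟨s, -, b₁, b₂⟩ := g.dir hp hq
    refine (h₁.2 s b₂ 0 _ (Empty.elim : Empty → Nm) (fun k => k.elim) fun r hr τ hτ hm => ?_).trans
      (by simp)
    obtain ⟨g', hg', hN⟩ := exists_gn r {τ, X} (Set.toFinite _).countable (by
      rintro x (rfl | rfl)
      exacts [hτ, g.hs hX])
    exact (H g' (g'.up hg' (hr.trans b₁)) (l1 (hN (by simp))) _
      ((v_mem_iff (τ := X) (hN (by simp)) (hN (by simp))).2 ⟨r, hg', hm⟩)).elim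
  · obtain ⟨f, hf, rfl⟩ := exists_v f
    obtain ⟨p, hp, H⟩ := transfer (udef_isSurj 0 1 2) (l3 hf hY hX) h
    obtain ⟨s, -, b₁, b₂⟩ := g.dir hp hq
    obtain ⟨j, K, F, a₁, a₂, rfl⟩ := h₂.1
    obtain ⟨k, hk⟩ := (g.hs hf).fix
    refine h₁.2 s b₂ (max j k) K _ (fun i => hs_apN (g.hs hf) (g.hs hX) (a₁ i))
      (cov_map (C := {f, Y, X}) (f := f) (X := Y) (Y := X) (Set.toFinite _).countable ?_
        (by simp) (by simp) (by simp)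
        (fun g' hg' hN => H g' (g'.up hg' b₁) (l3 (hN (by simp)) (hN (by simp)) (hN (by simp))))
        (fun z hz => hL.ap _ (hk.mono (le_max_right _ _)) hz) a₁
        (a₂.mono b₂ fun z hz => hL.mono hz (le_max_left _ _)))
    rintro x (rfl | rfl | rfl)
    exacts [g.hs hf, g.hs hY, g.hs hX]

/-- The cardinals up to `κ`. -/
def Wd (κ : Cardinal.{0}) : Type := Shrink.{0} (Set.Iic κ)

/-- The cardinal coded. -/
noncomputable def cd {κ : Cardinal.{0}} (a : Wd κ) : Cardinal.{0} := ((equivShrink _).symm a).1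

variable {κ : Cardinal.{0}}

theorem cd_inj {a b : Wd κ} (h : cd a = cd b) : a = b :=
  (equivShrink (Set.Iic κ)).symm.injective (Subtype.ext h)

theorem cd_wf (κ : Cardinal.{0}) : WellFounded fun a b : Wd κ => cd a < cd b :=
  InvImage.wf cd wellFounded_lt

theorem cd_tri (a b : Wd κ) : cd a < cd b ∨ a = b ∨ cd b < cd a :=
  (lt_trichotomy _ _).imp_right (Or.imp_left cd_inj)

theorem ord_le_iff {a b : Wd κ} (ha : ordN (cd_wf κ) a ∈ g.N) (hb : ordN (cd_wf κ) b ∈ g.N) :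
    g.E (g.v (ordN (cd_wf κ) a)) (g.v (ordN (cd_wf κ) b)) ∨
      g.v (ordN (cd_wf κ) a) = g.v (ordN (cd_wf κ) b) ↔ cd a ≤ cd b := by
  rw [ord_lt_iff _ cd_tri ha hb, le_iff_lt_or_eq]
  exact or_congr_right ⟨fun h => congrArg cd (ord_inj _ cd_tri ha hb h), fun h => by rw [cd_inj h]⟩

/-- The name of the function that gives the invariant. -/
noncomputable def dN (L : ℕ → Nm → Prop) (κ : Cardinal.{0}) (F : Nm) : Nm :=
  .mk {x : F.I × Q × Wd κ // x.2.1 ≤ F.B x.1 ∧ Dec L x.2.1 (F.A x.1) (cd x.2.2)}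
    (fun x => pairN (F.A x.1.1) (ordN (cd_wf κ) x.1.2.2)) fun x => x.1.2.1

variable {F : Nm}

theorem hs_dN (hL : Lw L) (hF : HS F) : HS (dN L κ F) := by
  obtain ⟨k, hk⟩ := hF.fix
  refine hs_mk (k := k) (fix_of fun σ hσ ⟨⟨i, q, w⟩, h₁, h₂⟩ => ?_)
    fun x => hs_pairN (hF.child _) (fix_ordN _ _).2
  change FMem (σ +ᵥ pairN (F.A i) (ordN (cd_wf κ) w)) _ (σ +ᵥ q)
  intro r hr
  obtain ⟨s, hs, j, hj, e⟩ :=
    fmem_right (fmem_vadd σ (fmem_child F i h₁)) ((hk σ hσ).mono le_top) r hr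
  exact ⟨s, hs, ⟨(j, s, w), hj, ((h₂.vadd hL σ).mono (hs.trans hr)).congr e⟩, le_rfl,
    feq_trans (vadd_pairN _ _ _ _) (feq_pairN e (((fix_ordN _ _).1 σ (inH_zero σ)).mono le_top))⟩

theorem mem_dN (h : dN L κ F ∈ g.N) {x : g.M} :
    g.E x (g.v (dN L κ F)) ↔ ∃ i q w, q ∈ g.G ∧ q ≤ F.B i ∧ Dec L q (F.A i) (cd w) ∧
      F.A i ∈ g.N ∧ ordN (cd_wf κ) w ∈ g.N ∧ x = pr (g.v (F.A i)) (g.v (ordN (cd_wf κ) w)) := by
  rw [E_v h]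
  constructor
  · rintro ⟨⟨⟨i, q, w⟩, h₁, h₂⟩, h₃, h₄, rfl⟩
    obtain ⟨k₁, k₂⟩ := pairN_mem_iff.1 h₄
    exact ⟨i, q, w, h₃, h₁, h₂, k₁, k₂, v_pairN k₁ k₂⟩
  · rintro ⟨i, q, w, h₃, h₁, h₂, k₁, k₂, rfl⟩
    exact ⟨⟨(i, q, w), h₁, h₂⟩, h₃, pairN_mem_iff.2 ⟨k₁, k₂⟩, v_pairN k₁ k₂⟩

theorem app_dN (h : dN L κ F ∈ g.N) (hX : X ∈ g.N) {b : g.M}
    (ha : App g.E (g.v (dN L κ F)) (g.v X) b) :
    ∃ s ∈ g.G, ∃ w, ordN (cd_wf κ) w ∈ g.N ∧ b = g.v (ordN (cd_wf κ) w) ∧ Dec L s X (cd w) := by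
  obtain ⟨i, q, w, h₁, -, h₂, h₃, h₄, e⟩ := (mem_dN h).1 (app_iff.1 ha)
  obtain ⟨p, hp, e'⟩ := (v_eq_iff hX h₃).1 (pr_inj.1 e).1
  obtain ⟨s, hs, b₁, b₂⟩ := g.dir hp h₁
  exact ⟨s, hs, w, h₄, (pr_inj.1 e).2, (h₂.mono b₂).congr (e'.symm.mono b₁)⟩

theorem fun_dN (hκ : ∀ i, #(F.A i).I ≤ κ) (h : dN L κ F ∈ g.N) (hF : F ∈ g.N)
    (hU : setN (cd_wf κ) Set.univ ∈ g.N) :
    IsFun g.E (g.v (dN L κ F)) (g.v F) (g.v (setN (cd_wf κ) Set.univ)) := by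
  refine ⟨fun p hp => ?_, fun a ha => ?_⟩
  · obtain ⟨i, q, w, h₁, h₂, -, h₃, h₄, rfl⟩ := (mem_dN h).1 hp
    exact ⟨_, _, (E_v hF).2 ⟨i, g.up h₁ h₂, h₃, rfl⟩, (E_setN _ hU).2 ⟨w, trivial, h₄, rfl⟩,
      isPair_pr _ _⟩
  obtain ⟨i, hB, hi, rfl⟩ := (E_v hF).1 ha
  refine existsUnique_of_exists_of_unique ?_ fun b b' hb hb' => ?_
  · refine dens (Ψ := fun _ E w => ∃ b, App E (w 0) (w 1) b) (UDef.ex (UDef.app _ _ _))
      (l2 h hi) fun p hp => ?_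
    obtain ⟨p', -, b₁, b₂⟩ := g.dir hp hB
    obtain ⟨r, hr, c, hc, hd⟩ := exists_dec L (g.hs hi) p'
    let w : Wd κ := equivShrink (Set.Iic κ) ⟨c, hc.trans (hκ i)⟩
    have e : cd w = c := by simp [cd, w]
    refine ⟨r, hr.trans b₁, {ordN (cd_wf κ) w}, Set.countable_singleton _,
      by simpa using (fix_ordN _ _).2, fun g' hr' hC hl => ⟨_, app_iff.2 ((mem_dN
        (hl _ (by simp))).2 ⟨i, r, w, hr', hr.trans b₂, e ▸ hd, hl _ (by simp), hC rfl, rfl⟩)⟩⟩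
  · obtain ⟨s, hs, w, -, rfl, d⟩ := app_dN h hi hb
    obtain ⟨s', hs', w', -, rfl, d'⟩ := app_dN h hi hb'
    obtain ⟨t, -, b₁, b₂⟩ := g.dir hs hs'
    rw [cd_inj ((d.mono b₁).unique (d'.mono b₂))]

theorem dim (g : Gn) (F : g.M) : ∃ a b U, IsFun g.E a F U ∧ IsFun g.E b F U ∧
    (∀ u, g.E u U → IsOrd g.E u) ∧ ∀ X Y α β γ δ, App g.E a X α → App g.E b X β →
      App g.E a Y γ → App g.E b Y δ →
      (LeStar g.E X Y ↔ (g.E α γ ∨ α = γ) ∧ (g.E β δ ∨ β = δ)) := by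
  obtain ⟨F, hF, rfl⟩ := exists_v F
  have u : UDef.{1} (fun _ E w => ∃ a b U, IsFun E a (w 0) U ∧ IsFun E b (w 0) U ∧
      (∀ u, E u U → IsOrd E u) ∧ ∀ X Y α β γ δ, App E a X α → App E b X β →
        App E a Y γ → App E b Y δ →
        (LeStar E X Y ↔ (E α γ ∨ α = γ) ∧ (E β δ ∨ β = δ))) := by
    unfold IsOrd
    repeat' first
      | exact UDef.mem _ _ | exact UDef.eq _ _ | exact UDef.isFun _ _ _ | exact UDef.app _ _ _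
      | exact udef_leStar _ _ | apply UDef.iff | apply UDef.and | apply UDef.or
      | apply UDef.imp | apply UDef.all | apply UDef.ex
  have hκ : ∀ i, #(F.A i).I ≤ #(Σ i, (F.A i).I) := fun i =>
    mk_le_of_injective (sigma_mk_injective (β := fun i => (F.A i).I))
  generalize #(Σ i, (F.A i).I) = κ at hκ
  refine dens u (l1 hF) fun p _ => ⟨p, le_rfl,
    {dN Fix κ F, dN (fun _ _ => False) κ F, setN (cd_wf κ) Set.univ},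
    (Set.toFinite _).countable, ?_, fun g _ hC hl => ?_⟩
  · rintro x (rfl | rfl | rfl)
    exacts [hs_dN lw_fix (g.hs hF), hs_dN lw_no (g.hs hF), hs_setN _ _]
  have ha : dN Fix κ F ∈ g.N := hC (by simp)
  have hb : dN (fun _ _ => False) κ F ∈ g.N := hC (by simp)
  have hU : setN (cd_wf κ) Set.univ ∈ g.N := hC (by simp)
  refine ⟨_, _, _, fun_dN hκ ha (hl F (by simp)) hU, fun_dN hκ hb (hl F (by simp)) hU,
    fun u hu => ?_, fun X Y α β γ δ h₁ h₂ h₃ h₄ => ?_⟩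
  · obtain ⟨w, -, hw, rfl⟩ := (E_setN _ hU).1 hu
    rw [ordN_eq] at hw ⊢
    exact isOrd_setN _ cd_tri hw fun a b h h' => lt_trans h h'
  obtain ⟨X, hX, rfl⟩ := exists_v X
  obtain ⟨Y, hY, rfl⟩ := exists_v Y
  obtain ⟨s₁, a₁, w₁, n₁, rfl, d₁⟩ := app_dN ha hX h₁
  obtain ⟨s₂, a₂, w₂, n₂, rfl, d₂⟩ := app_dN hb hX h₂
  obtain ⟨s₃, a₃, w₃, n₃, rfl, d₃⟩ := app_dN ha hY h₃
  obtain ⟨s₄, a₄, w₄, n₄, rfl, d₄⟩ := app_dN hb hY h₄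
  obtain ⟨t₁, c₁, b₁, b₂⟩ := g.dir a₁ a₂
  obtain ⟨t₂, c₂, b₃, b₄⟩ := g.dir a₃ a₄
  obtain ⟨t, ht, b₅, b₆⟩ := g.dir c₁ c₂
  replace d₁ := d₁.mono (b₅.trans b₁)
  replace d₂ := d₂.mono (b₅.trans b₂)
  replace d₃ := d₃.mono (b₆.trans b₃)
  replace d₄ := d₄.mono (b₆.trans b₄)
  rw [ord_le_iff n₁ n₃, ord_le_iff n₂ n₄]
  refine ⟨fun h => ⟨le_of_leStar lw_fix hX hY ht d₁ d₃ h, le_of_leStar lw_no hX hY ht d₂ d₄ h⟩,
    fun h => dens (udef_leStar 0 1) (l2 hX hY) fun p hp => ?_⟩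
  obtain ⟨s, -, e₁, e₂⟩ := g.dir hp ht
  obtain ⟨r, hr, f, hf, H⟩ := dec_le (g.hs hY) (d₁.mono e₂) (d₂.mono e₂) (d₃.mono e₂)
    (d₄.mono e₂) h.1 h.2
  exact ⟨r, hr.trans e₁, {f}, Set.countable_singleton _, by simpa using hf,
    fun g' hr' hC' hl' => H g' hr' (hC' rfl) (hl' X (by simp)) (hl' Y (by simp))⟩

end Dim

end Pool.Agent.MP_a078ad_lc
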