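import Pool.Agent.MP_a078ad_lc.Truth
import Pool.Agent.MP_a078ad_lc.Defs

namespace Pool.Agent.MP_a078ad_lc

open Pool.Agent.MP_c6cf52_lc Pool.Agent.MP_c6cf52_lc.Name

namespace Gn

variable {g : Gn}

theorem trans {z : ZFSet.{0}} {a : g.M} (h : z ∈ a.1) : ∃ y : g.M, y.1 = z := by
  obtain ⟨τ, hτ, rfl⟩ := exists_v a
  rw [v_val hτ, g.mem_val] at h
  obtain ⟨i, -, hi, rfl⟩ := h
  exact ⟨g.v (τ.A i), v_val hi⟩

theorem ext {a b : g.M} (h : ∀ x, g.E x a ↔ g.E x b) : a = b := by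
  refine Subtype.ext (ZFSet.ext fun z => ⟨fun hz => ?_, fun hz => ?_⟩)
  · obtain ⟨y, rfl⟩ := trans hz
    exact (h y).1 hz
  · obtain ⟨y, rfl⟩ := trans hz
    exact (h y).2 hz

theorem E_wf : WellFounded g.E := InvImage.wf Subtype.val ZFSet.mem_wf

theorem E_irrefl (a : g.M) : ¬ g.E a a := ZFSet.mem_irrefl _

theorem found (a : g.M) (h : ∃ x, g.E x a) : ∃ x, g.E x a ∧ ¬ ∃ y, g.E y x ∧ g.E y a := by
  obtain ⟨x, hx, hmin⟩ := E_wf.has_min {x | g.E x a} h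
  exact ⟨x, hx, fun ⟨y, h₁, h₂⟩ => hmin y h₂ h₁⟩

theorem E_fam {ι : Type} {A : ι → Nm} (h : fam A ∈ g.N) {x : g.M} :
    g.E x (g.v (fam A)) ↔ ∃ i, A i ∈ g.N ∧ g.v (A i) = x := by
  rw [E_v h]
  exact exists_congr fun i => and_iff_right g.top

theorem E_orb {ι : Type} {A : ι → Nm} (h : orb A ∈ g.N) (i : ι) (hi : A i ∈ g.N) :
    g.E (g.v (A i)) (g.v (orb A)) :=
  (E_fam h).2 ⟨(0, i), by simpa only [zero_vadd] using hi, by simp only [zero_vadd]⟩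

theorem not_E_emp (x : g.M) : ¬ g.E x (g.v emp) := by
  rw [E_v g.emp_mem]
  rintro ⟨i, -⟩
  exact i.elim

theorem E_upair {σ τ : Nm} (hσ : σ ∈ g.N) (hτ : τ ∈ g.N) {x : g.M} :
    g.E x (g.v (upair σ τ)) ↔ x = g.v σ ∨ x = g.v τ := by
  unfold upair
  rw [E_fam (upair_mem hσ hτ)]
  constructor
  · rintro ⟨⟨_ | _⟩, -, rfl⟩
    exacts [Or.inr rfl, Or.inl rfl]
  · rintro (rfl | rfl)
    exacts [⟨⟨true⟩, hσ, rfl⟩, ⟨⟨false⟩, hτ, rfl⟩]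

theorem exists_upair (a b : g.M) : ∃ c, ∀ x, g.E x c ↔ x = a ∨ x = b := by
  obtain ⟨σ, hσ, rfl⟩ := exists_v a
  obtain ⟨τ, hτ, rfl⟩ := exists_v b
  exact ⟨_, fun x => E_upair hσ hτ⟩

theorem sep_fml (φ : Fml) (l : List g.M) (a : g.M) :
    ∃ b, ∀ x, g.E x b ↔ g.E x a ∧ Sat g.E φ (cons x (env (g.v emp) l)) := by
  obtain ⟨l, hl, e⟩ := exists_vl l
  obtain ⟨τ, hτ, rfl⟩ := exists_v a
  rw [← e]
  refine ⟨g.v (sepS τ φ l), fun x => ?_⟩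
  rw [E_v (sepS_mem hτ φ hl), E_v hτ]
  constructor
  · rintro ⟨⟨⟨i, q⟩, h₁, h₂⟩, hq, hi, rfl⟩
    refine ⟨⟨i, g.up hq h₁, hi, rfl⟩, ?_⟩
    have := (truth φ (lcons hi hl)).2 ⟨q, hq, h₂⟩
    rwa [w_cons] at this
  · rintro ⟨⟨i, hB, hi, rfl⟩, h⟩
    rw [← w_cons, truth φ (lcons hi hl)] at h
    obtain ⟨p, hp, f⟩ := h
    obtain ⟨q, hq, h₁, h₂⟩ := g.dir hp hB
    exact ⟨⟨(i, q), h₂, f.mono h₁⟩, hq, hi, rfl⟩

theorem sep_udef {Ψ : ∀ (M : Type 1), (M → M → Prop) → (ℕ → M) → Prop} (h : UDef Ψ)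
    (l : List g.M) (a : g.M) :
    ∃ b, ∀ x, g.E x b ↔ g.E x a ∧ Ψ g.M g.E (cons x (env (g.v emp) l)) := by
  obtain ⟨φ, h⟩ := h
  simpa only [h] using sep_fml φ l a

theorem weak_union (a : g.M) : ∃ c, ∀ x y, g.E x y → g.E y a → g.E x c := by
  obtain ⟨τ, hτ, rfl⟩ := exists_v a
  refine ⟨g.v (unionS τ), fun x y hx hy => ?_⟩
  obtain ⟨i, -, hi, rfl⟩ := (E_v hτ).1 hy
  obtain ⟨j, -, hj, rfl⟩ := (E_v hi).1 hx
  exact E_orb (unionS_mem hτ) ⟨i, j⟩ hj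

theorem exists_union (a : g.M) : ∃ c, ∀ x, g.E x c ↔ ∃ y, g.E x y ∧ g.E y a := by
  obtain ⟨c, hc⟩ := weak_union a
  have hU : UDef.{1} (fun _ E w => ∃ y, E (w 0) y ∧ E y (w 1)) :=
    UDef.ex ((UDef.mem _ _).and (UDef.mem _ _))
  obtain ⟨b, hb⟩ := sep_udef hU [a] c
  refine ⟨b, fun x => (hb x).trans ⟨fun h => h.2, fun ⟨y, h₁, h₂⟩ => ⟨hc x y h₁ h₂, y, h₁, h₂⟩⟩⟩

theorem weak_power (a : g.M) : ∃ c, ∀ x, (∀ y, g.E y x → g.E y a) → g.E x c := by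
  obtain ⟨τ, hτ, rfl⟩ := exists_v a
  refine ⟨g.v (powS τ), fun x hx => ?_⟩
  obtain ⟨σ, hσ, rfl⟩ := exists_v x
  have hm := sepS_mem hτ (.mem 0 1) (l1 hσ)
  have e : g.v σ = g.v (sepS τ (.mem 0 1) [σ]) := by
    refine ext fun y => ?_
    rw [E_v hm]
    constructor
    · intro hy
      obtain ⟨i, hB, hi, rfl⟩ := (E_v hτ).1 (hx y hy)
      obtain ⟨q, hq, h⟩ := (v_mem_iff hi hσ).1 hy
      obtain ⟨r, hr, h₁, h₂⟩ := g.dir hq hB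
      exact ⟨⟨(i, r), h₂, h.mono h₁⟩, hr, hi, rfl⟩
    · rintro ⟨⟨⟨i, q⟩, h₀, h⟩, hq, hi, rfl⟩
      exact (v_mem_iff hi hσ).2 ⟨q, hq, h⟩
  rw [e]
  exact E_orb (A := fun S : {S : Set (τ.I × Q) // HS (subN τ S)} => subN τ S.1) (powS_mem hτ)
    ⟨_, g.hs hm⟩ hm

theorem exists_power (a : g.M) : ∃ c, ∀ x, g.E x c ↔ ∀ y, g.E y x → g.E y a := by
  obtain ⟨c, hc⟩ := weak_power a
  have hU : UDef.{1} (fun _ E w => ∀ y, E y (w 0) → E y (w 1)) :=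
    UDef.all ((UDef.mem _ _).imp (UDef.mem _ _))
  obtain ⟨b, hb⟩ := sep_udef hU [a] c
  exact ⟨b, fun x => (hb x).trans ⟨fun h => h.2, fun h => ⟨hc x h, h⟩⟩⟩

theorem collection (φ : Fml) (l : List g.M) (a : g.M) :
    ∃ c, ∀ x, g.E x a → (∃ y, Sat g.E φ (cons y (cons x (env (g.v emp) l)))) →
      ∃ y, g.E y c ∧ Sat g.E φ (cons y (cons x (env (g.v emp) l))) := by
  obtain ⟨l, hl, e⟩ := exists_vl l
  obtain ⟨τ, hτ, rfl⟩ := exists_v a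
  rw [← e]
  refine ⟨g.v (collS τ φ l), fun x hx ⟨y, hy⟩ => ?_⟩
  obtain ⟨i, -, hi, rfl⟩ := (E_v hτ).1 hx
  obtain ⟨ρ, hρ, rfl⟩ := exists_v y
  rw [← w_cons, ← w_cons, truth φ (lcons hρ (lcons hi hl))] at hy
  obtain ⟨p, hp, f⟩ := hy
  obtain ⟨q, hq, ⟨h₁, h₂⟩ | h⟩ := meets_wit φ (lcons hi hl)
  · refine ⟨_, E_orb (collS_mem hτ φ hl) (i, q) h₁, ?_⟩
    rw [← w_cons, ← w_cons, truth φ (lcons h₁ (lcons hi hl))]
    exact ⟨q, hq, h₂⟩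
  · obtain ⟨r, -, h₁, h₂⟩ := g.dir hp hq
    exact absurd (f.mono h₁) (h r h₂ ρ (g.hs hρ))

/-! ### Ordered pairs -/

theorem val_upair {σ τ : Nm} (hσ : σ ∈ g.N) (hτ : τ ∈ g.N) :
    (g.v (upair σ τ)).1 = {(g.v σ).1, (g.v τ).1} := by
  ext z
  rw [ZFSet.mem_pair]
  constructor
  · intro hz
    obtain ⟨y, rfl⟩ := trans hz
    rcases (E_upair hσ hτ).1 hz with rfl | rfl
    exacts [Or.inl rfl, Or.inr rfl]
  · rintro (rfl | rfl)
    exacts [(E_upair hσ hτ).2 (Or.inl rfl), (E_upair hσ hτ).2 (Or.inr rfl)]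

theorem val_pairN {σ τ : Nm} (hσ : σ ∈ g.N) (hτ : τ ∈ g.N) :
    (g.v (pairN σ τ)).1 = ZFSet.pair (g.v σ).1 (g.v τ).1 := by
  unfold pairN ZFSet.pair
  rw [val_upair (upair_mem hσ hσ) (upair_mem hσ hτ), val_upair hσ hσ, val_upair hσ hτ]
  simp

theorem pair_in (a b : g.M) : ∃ τ ∈ g.N, g.val τ = ZFSet.pair a.1 b.1 := by
  obtain ⟨σ, hσ, rfl⟩ := exists_v a
  obtain ⟨τ, hτ, rfl⟩ := exists_v b
  have h := pairN_mem_iff.2 ⟨hσ, hτ⟩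
  exact ⟨_, h, (v_val h).symm.trans (val_pairN hσ hτ)⟩

/-- The ordered pair in the model. -/
noncomputable def pr (a b : g.M) : g.M := ⟨ZFSet.pair a.1 b.1, pair_in a b⟩

theorem pr_inj {a b c d : g.M} : pr a b = pr c d ↔ a = c ∧ b = d := by
  constructor
  · intro h
    have := ZFSet.pair_inj.1 (congrArg Subtype.val h)
    exact ⟨Subtype.ext this.1, Subtype.ext this.2⟩
  · rintro ⟨rfl, rfl⟩; rfl

theorem v_pairN {σ τ : Nm} (hσ : σ ∈ g.N) (hτ : τ ∈ g.N) :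
    g.v (pairN σ τ) = pr (g.v σ) (g.v τ) := Subtype.ext (val_pairN hσ hτ)

theorem eq_upair_iff {z a b : g.M} : (∀ x, g.E x z ↔ x = a ∨ x = b) ↔ z.1 = {a.1, b.1} := by
  constructor
  · intro h
    ext y
    rw [ZFSet.mem_pair]
    constructor
    · intro hy
      obtain ⟨y, rfl⟩ := trans hy
      rcases (h y).1 hy with rfl | rfl
      exacts [Or.inl rfl, Or.inr rfl]
    · rintro (rfl | rfl)
      exacts [(h a).2 (Or.inl rfl), (h b).2 (Or.inr rfl)]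
  · intro h x
    unfold E
    rw [h, ZFSet.mem_pair]
    exact or_congr Subtype.ext_iff.symm Subtype.ext_iff.symm

theorem eq_single_iff {z a : g.M} : (∀ x, g.E x z ↔ x = a) ↔ z.1 = {a.1} := by
  have := @eq_upair_iff _ z a a
  simpa using this

theorem isPair_pr (a b : g.M) : IsPair g.E (pr a b) a b := by
  intro z
  rw [eq_upair_iff, eq_single_iff]
  exact ZFSet.mem_pair

theorem isPair_iff {p a b : g.M} : IsPair g.E p a b ↔ p = pr a b :=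
  ⟨fun h => ext fun x => (h x).trans (isPair_pr a b x).symm, fun h => h ▸ isPair_pr a b⟩

theorem app_iff {f a b : g.M} : App g.E f a b ↔ g.E (pr a b) f := by
  simp only [App, isPair_iff]
  exact ⟨fun ⟨_, h, e⟩ => e ▸ h, fun h => ⟨_, h, rfl⟩⟩

/-! ### Ordinals -/

section Ord

variable {X : Type} {r : X → X → Prop} (wf : WellFounded r)

theorem E_setN {s : Set X} (h : setN wf s ∈ g.N) {x : g.M} :
    g.E x (g.v (setN wf s)) ↔ ∃ y ∈ s, ordN wf y ∈ g.N ∧ g.v (ordN wf y) = x := by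
  unfold setN at h ⊢
  rw [E_fam h]
  exact ⟨fun ⟨y, h₁, h₂⟩ => ⟨y.1, y.2, h₁, h₂⟩, fun ⟨y, h₀, h₁, h₂⟩ => ⟨⟨y, h₀⟩, h₁, h₂⟩⟩

theorem E_ordN {a : X} (h : ordN wf a ∈ g.N) {x : g.M} :
    g.E x (g.v (ordN wf a)) ↔ ∃ y, r y a ∧ ordN wf y ∈ g.N ∧ g.v (ordN wf y) = x := by
  rw [ordN_eq] at h ⊢
  exact E_setN wf h

theorem setN_mem {s : Set X} (h : setN wf s ∈ g.N) (hs : s.Countable) {y : X} (hy : y ∈ s) :
    ordN wf y ∈ g.N := by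
  have := hs.to_subtype
  exact fam_mem (A := fun y : s => ordN wf y.1) h ⟨y, hy⟩

theorem ordN_mem {a : X} (h : ordN wf a ∈ g.N) (hs : {y | r y a}.Countable) {y : X}
    (hy : r y a) : ordN wf y ∈ g.N := by
  rw [ordN_eq] at h
  exact setN_mem wf h hs hy

theorem ord_lt_of {a b : X} (ha : ordN wf a ∈ g.N) (hb : ordN wf b ∈ g.N) (h : r a b) :
    g.E (g.v (ordN wf a)) (g.v (ordN wf b)) := (E_ordN wf hb).2 ⟨a, h, ha, rfl⟩

variable (tri : ∀ a b, r a b ∨ a = b ∨ r b a)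
include tri

theorem ord_inj {a b : X} (ha : ordN wf a ∈ g.N) (hb : ordN wf b ∈ g.N)
    (h : g.v (ordN wf a) = g.v (ordN wf b)) : a = b := by
  rcases tri a b with h' | h' | h'
  · exact absurd (h ▸ ord_lt_of wf ha hb h') (E_irrefl _)
  · exact h'
  · exact absurd (h ▸ ord_lt_of wf hb ha h') (E_irrefl _)

theorem ord_lt_iff {a b : X} (ha : ordN wf a ∈ g.N) (hb : ordN wf b ∈ g.N) :
    g.E (g.v (ordN wf a)) (g.v (ordN wf b)) ↔ r a b := by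
  refine ⟨fun h => ?_, ord_lt_of wf ha hb⟩
  obtain ⟨y, h₁, h₂, e⟩ := (E_ordN wf hb).1 h
  exact ord_inj wf tri h₂ ha e ▸ h₁

theorem ord_mem_setN_iff {s : Set X} {a : X} (ha : ordN wf a ∈ g.N) (hs : setN wf s ∈ g.N) :
    g.E (g.v (ordN wf a)) (g.v (setN wf s)) ↔ a ∈ s := by
  refine ⟨fun h => ?_, fun h => (E_setN wf hs).2 ⟨a, h, ha, rfl⟩⟩
  obtain ⟨y, h₁, h₂, e⟩ := (E_setN wf hs).1 h
  exact ord_inj wf tri h₂ ha e ▸ h₁

theorem isOrd_setN {s : Set X} (hs : setN wf s ∈ g.N) (low : ∀ a b, r a b → b ∈ s → a ∈ s) :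
    IsOrd g.E (g.v (setN wf s)) := by
  constructor
  · intro x y hx hy
    obtain ⟨a, ha, haN, rfl⟩ := (E_setN wf hs).1 hx
    obtain ⟨b, hb, hbN, rfl⟩ := (E_ordN wf haN).1 hy
    exact (E_setN wf hs).2 ⟨b, low b a hb ha, hbN, rfl⟩
  · intro x y hx hy
    obtain ⟨a, -, haN, rfl⟩ := (E_setN wf hs).1 hx
    obtain ⟨b, -, hbN, rfl⟩ := (E_setN wf hs).1 hy
    rcases tri a b with h | rfl | h
    exacts [Or.inl (ord_lt_of wf haN hbN h), Or.inr (Or.inl rfl),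
      Or.inr (Or.inr (ord_lt_of wf hbN haN h))]

end Ord

theorem nat_mem (n : ULift.{0} ℕ) : (ordN natWf n : Nm) ∈ g.N :=
  setN_mem natWf g.omega_mem (Set.to_countable _) (Set.mem_univ n)

theorem natTri (a b : ULift.{0} ℕ) : a.down < b.down ∨ a = b ∨ b.down < a.down := by
  rcases lt_trichotomy a.down b.down with h | h | h
  exacts [Or.inl h, Or.inr (Or.inl (ULift.ext _ _ h)), Or.inr (Or.inr h)]

theorem infinity : ∃ w, (∃ e, g.E e w ∧ ∀ y, ¬ g.E y e) ∧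
    ∀ x, g.E x w → ∃ s, g.E s w ∧ ∀ y, g.E y s ↔ g.E y x ∨ y = x := by
  refine ⟨g.v (setN natWf Set.univ), ⟨g.v (ordN natWf ⟨0⟩), ?_, fun y hy => ?_⟩, fun x hx => ?_⟩
  · exact (E_setN _ g.omega_mem).2 ⟨_, trivial, nat_mem _, rfl⟩
  · obtain ⟨z, hz, -⟩ := (E_ordN _ (nat_mem _)).1 hy
    exact Nat.not_lt_zero _ hz
  · obtain ⟨n, -, -, rfl⟩ := (E_setN _ g.omega_mem).1 hx
    refine ⟨g.v (ordN natWf ⟨n.down + 1⟩),
      (E_setN _ g.omega_mem).2 ⟨_, trivial, nat_mem _, rfl⟩, fun y => ?_⟩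
    rw [E_ordN _ (nat_mem _), E_ordN _ (nat_mem _)]
    constructor
    · rintro ⟨m, hm, -, rfl⟩
      rcases Nat.lt_succ_iff_lt_or_eq.1 hm with h | h
      · exact Or.inl ⟨m, h, nat_mem _, rfl⟩
      · exact Or.inr (by rw [ULift.ext m n h])
    · rintro (⟨m, hm, -, rfl⟩ | rfl)
      · exact ⟨m, Nat.lt_succ_of_lt hm, nat_mem _, rfl⟩
      · exact ⟨n, Nat.lt_succ_self _, nat_mem _, rfl⟩

/-- The generic model satisfies ZF. -/
theorem isZF (g : Gn) : IsZF g.E where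
  ext := fun _ _ => ext
  found := found
  pair := exists_upair
  union := exists_union
  power := exists_power
  inf := infinity
  sep := fun S hS a => by
    obtain ⟨φ, l, h⟩ := exists_fml_of_definable₁ g.E S hS
    simpa only [h] using sep_fml φ l a
  repl := fun R hR a ha => by
    obtain ⟨φ, l, h⟩ := exists_fml_of_definable₂ g.E R hR
    obtain ⟨c, hc⟩ := collection φ l a
    have hU : UDef.{1} (fun _ E w => ∃ x, E x (w 1) ∧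
        Sat E φ (cons (w 0) (cons x (fun k => w (k + 2))))) := by
      refine UDef.ex ((UDef.mem _ _).and ((UDef.sat φ (cons 1 (cons 0 (fun k => k + 3)))).congr
        fun M E w => ?_))
      have : (fun k => w (cons 1 (cons 0 fun k => k + 3) k)) =
          cons (w 1) (cons (w 0) fun k => w (k + 3)) := by
        funext k
        rcases k with _ | _ | k <;> rfl
      rw [this]
    obtain ⟨b, hb⟩ := sep_udef hU (a :: l) c
    have hb' : ∀ y, g.E y b ↔ g.E y c ∧ ∃ x, g.E x a ∧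
        Sat g.E φ (cons y (cons x (env (g.v emp) l))) := hb
    simp only [h] at hb' hc
    refine ⟨b, fun y => (hb' y).trans ⟨fun h => h.2, fun ⟨x, h₁, h₂⟩ => ⟨?_, x, h₁, h₂⟩⟩⟩
    obtain ⟨y', h₃, h₄⟩ := hc x h₁ ⟨y, h₂⟩
    exact (ha x h₁).unique h₄ h₂ ▸ h₃

theorem fun_mem {f X Y a b : g.M} (h : IsFun g.E f X Y) (hab : App g.E f a b) :
    g.E a X ∧ g.E b Y := by
  obtain ⟨a', b', ha, hb, e⟩ := h.1 _ (app_iff.1 hab)
  obtain ⟨rfl, rfl⟩ := pr_inj.1 (isPair_iff.1 e)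
  exact ⟨ha, hb⟩

theorem fun_uniq {f X Y a b b' : g.M} (h : IsFun g.E f X Y) (hab : App g.E f a b)
    (hab' : App g.E f a b') : b = b' :=
  (h.2 a (fun_mem h hab).1).unique hab hab'

theorem fun_ex {f X Y a : g.M} (h : IsFun g.E f X Y) (ha : g.E a X) :
    ∃ b, g.E b Y ∧ App g.E f a b := by
  obtain ⟨b, hb, -⟩ := h.2 a ha
  exact ⟨b, (fun_mem h hb).2, hb⟩

theorem l3 {a b c : Nm} (ha : a ∈ g.N) (hb : b ∈ g.N) (hc : c ∈ g.N) :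
    ∀ x ∈ [a, b, c], x ∈ g.N := lcons ha (l2 hb hc)

theorem l4 {a b c d : Nm} (ha : a ∈ g.N) (hb : b ∈ g.N) (hc : c ∈ g.N) (hd : d ∈ g.N) :
    ∀ x ∈ [a, b, c, d], x ∈ g.N := lcons ha (l3 hb hc hd)

theorem transfer_app {a b c : Nm} (ha : a ∈ g.N) (hb : b ∈ g.N) (hc : c ∈ g.N)
    (h : App g.E (g.v a) (g.v b) (g.v c)) :
    ∃ p ∈ g.G, ∀ g' : Gn, p ∈ g'.G → a ∈ g'.N → b ∈ g'.N → c ∈ g'.N →
      App g'.E (g'.v a) (g'.v b) (g'.v c) := by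
  obtain ⟨p, hp, H⟩ := transfer (UDef.app 0 1 2) (l3 ha hb hc) h
  exact ⟨p, hp, fun g' hp' ha' hb' hc' => H g' hp' (l3 ha' hb' hc')⟩

end Gn

end Pool.Agent.MP_a078ad_lc
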