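import Pool.Agent.MP_a078ad_lc.Cover
import Pool.Agent.MP_a078ad_lc.Model

namespace Pool.Agent.MP_a078ad_lc

open Pool.Agent.MP_c6cf52_lc Pool.Agent.MP_c6cf52_lc.Name Pool.Agent.MP_e34318_lc Cardinal Gn

variable {g : Gn}

/-! ### Natural numbers -/

noncomputable def nN (n : ℕ) : Nm := ordN natWf ⟨n⟩

theorem nN_mem (n : ℕ) : nN n ∈ g.N := nat_mem _

theorem hs_nN (n : ℕ) : HS (nN n) := (fix_ordN _ _).2

theorem fix_nN (k n : ℕ) : Fix k (nN n) := (fix_ordN _ _).1.mono (Nat.zero_le k)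

theorem E_nN {n : ℕ} {x : g.M} : g.E x (g.v (nN n)) ↔ ∃ m < n, x = g.v (nN m) := by
  unfold nN
  rw [E_ordN _ (nat_mem _)]
  exact ⟨fun ⟨m, h, _, e⟩ => ⟨m.down, h, e.symm⟩, fun ⟨m, h, e⟩ => ⟨⟨m⟩, h, nat_mem _, e.symm⟩⟩

theorem nN_inj {m n : ℕ} (h : g.v (nN m) = g.v (nN n)) : m = n :=
  congrArg ULift.down (ord_inj natWf natTri (nat_mem _) (nat_mem _) h)

theorem isSucc_nN (n : ℕ) : IsSucc g.E (g.v (nN n)) (g.v (nN (n + 1))) := by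
  intro z
  rw [E_nN, E_nN]
  constructor
  · rintro ⟨m, hm, rfl⟩
    rcases Nat.lt_succ_iff_lt_or_eq.1 hm with h | rfl
    exacts [Or.inl ⟨m, h, rfl⟩, Or.inr rfl]
  · rintro (⟨m, hm, rfl⟩ | rfl)
    exacts [⟨m, Nat.lt_succ_of_lt hm, rfl⟩, ⟨n, Nat.lt_succ_self _, rfl⟩]

theorem nN_mem_omega {w : g.M} (hw : IsOmega g.E w) (n : ℕ) : g.E (g.v (nN n)) w := by
  obtain ⟨⟨tr, tri⟩, ⟨hne, hlim⟩, -⟩ := hw
  induction n with
  | zero =>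
    obtain ⟨x, hx, hmin⟩ := found w hne
    have : x = g.v (nN 0) := ext fun y => ⟨fun hy => absurd ⟨y, hy, tr x y hx hy⟩ hmin,
      fun hy => by simpa using E_nN.1 hy⟩
    exact this ▸ hx
  | succ n ih =>
    obtain ⟨y, ⟨hy, hny⟩, hmin⟩ := E_wf.has_min {y | g.E y w ∧ g.E (g.v (nN n)) y} (hlim _ ih)
    have : y = g.v (nN (n + 1)) := ext fun z => by
      rw [isSucc_nN n z]
      constructor
      · intro hz
        rcases tri z _ (tr y z hy hz) ih with h | h | h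
        exacts [Or.inl h, Or.inr h, absurd hz (hmin z ⟨tr y z hy hz, h⟩)]
      · rintro (hz | rfl)
        · rcases tri z y (tr _ z ih hz) hy with h | rfl | h
          · exact h
          · exact absurd hz (E_wf.asymmetric _ _ hny)
          · exact absurd h (E_wf.asymmetric₃ _ _ _ hz hny)
        · exact hny
    exact this ▸ hy

/-! ### Function application -/

theorem E_sepS {τ : Nm} (hτ : τ ∈ g.N) (φ : Fml) {l : List Nm} (hl : ∀ x ∈ l, x ∈ g.N)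
    {x : g.M} : g.E x (g.v (sepS τ φ l)) ↔ g.E x (g.v τ) ∧ Sat g.E φ (cons x (g.w l)) := by
  rw [E_v (sepS_mem hτ φ hl), E_v hτ]
  constructor
  · rintro ⟨⟨⟨i, q⟩, h₁, h₂⟩, hq, hi, rfl⟩
    refine ⟨⟨i, g.up hq h₁, hi, rfl⟩, ?_⟩
    have := (truth φ (lcons hi hl)).2 ⟨q, hq, h₂⟩
    rwa [w_cons] at this
  · rintro ⟨⟨i, hB, hi, rfl⟩, h⟩
    rw [← w_cons, truth φ (lcons hi hl)] at h
    obtain ⟨p, hp, f⟩ := h
    obtain ⟨q, hq, h₁, h₂⟩ := g.dir hp hB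
    exact ⟨⟨(i, q), h₂, f.mono h₁⟩, hq, hi, rfl⟩

theorem udef_ap : UDef.{1} (fun _ E w => ∃ y, App E (w 1) (w 2) y ∧ E (w 0) y) :=
  UDef.ex ((UDef.app _ _ _).and (UDef.mem _ _))

/-- The name of the value of `f` at `x`. -/
noncomputable def apN (f U x : Nm) : Nm := sepS (unionS U) udef_ap.choose [f, x]

theorem hs_apN {f U x : Nm} (hf : HS f) (hU : HS U) (hx : HS x) : HS (apN f U x) :=
  hs_sepS (hs_unionS hU) _ (by simp [hf, hx])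

theorem fix_apN {k : ℕ} {f x : Nm} (U : Nm) (hf : Fix k f) (hx : Fix k x) : Fix k (apN f U x) :=
  fix_sepS ((fix_orb _).mono (Nat.zero_le k)) _ (by simp [hf, hx])

theorem apN_mem {f U x : Nm} (hf : f ∈ g.N) (hU : U ∈ g.N) (hx : x ∈ g.N) : apN f U x ∈ g.N :=
  sepS_mem (unionS_mem hU) _ (l2 hf hx)

theorem v_apN {f U x : Nm} (hf : f ∈ g.N) (hU : U ∈ g.N) (hx : x ∈ g.N) {D y : g.M}
    (h : IsFun g.E (g.v f) D (g.v U)) (hy : App g.E (g.v f) (g.v x) y) : g.v (apN f U x) = y := by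
  refine ext fun z => ?_
  unfold apN
  rw [E_sepS (unionS_mem hU) _ (l2 hf hx), udef_ap.choose_spec]
  constructor
  · rintro ⟨-, y', h₁, h₂⟩
    exact fun_uniq h h₁ hy ▸ h₂
  · intro hz
    refine ⟨?_, y, hy, hz⟩
    obtain ⟨i, -, hi, rfl⟩ := (E_v hU).1 (fun_mem h hy).2
    obtain ⟨j, -, hj, rfl⟩ := (E_v hi).1 hz
    exact E_orb (unionS_mem hU) ⟨i, j⟩ hj

theorem cov_map {Low : Nm → Prop} {f X Y : Nm} {C : Set Nm} (hC : C.Countable)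
    (hs : ∀ x ∈ C, HS x) (hf : f ∈ C) (hX : X ∈ C) (hY : Y ∈ C) {q : Q}
    (h : ∀ g : Gn, q ∈ g.G → C ⊆ g.N → IsSurj g.E (g.v f) (g.v X) (g.v Y))
    (hL : ∀ z, Low z → Low (apN f Y z)) {K : Type} {F : K → Nm} (hF : ∀ k, HS (F k))
    (c : Cov Low q X F) : Cov Low q Y fun k => apN f Y (F k) := by
  intro q' hq' τ hτ hm
  obtain ⟨g, hg, hN⟩ := exists_gn q' (insert τ C) (hC.insert τ) (by
    rintro x (rfl | hx)
    exacts [hτ, hs x hx])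
  have hτN : τ ∈ g.N := hN (Or.inl rfl)
  have hCN : C ⊆ g.N := fun x hx => hN (Or.inr hx)
  have H := h g (g.up hg hq') hCN
  obtain ⟨a, ha⟩ := H.2 _ ((v_mem_iff hτN (hCN hY)).2 ⟨q', hg, hm⟩)
  obtain ⟨υ, hυ, rfl⟩ := exists_v a
  obtain ⟨p₁, hp₁, H₁⟩ := transfer_app (hCN hf) hυ hτN ha
  obtain ⟨p₂, hp₂, H₂⟩ := (v_mem_iff hυ (hCN hX)).1 (fun_mem H.1 ha).1
  obtain ⟨p₃, hp₃, a₁, a₂⟩ := g.dir hp₁ hp₂
  obtain ⟨p₄, -, a₃, a₄⟩ := g.dir hp₃ hg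
  have key : ∀ s ≤ p₄, ∀ z, HS z → FEq υ z s → FEq τ (apN f Y z) s := by
    intro s hs' z hz e
    have hap := hs_apN (hs f hf) (hs Y hY) hz
    refine feq_of_sem (insert τ (insert υ (insert z (insert (apN f Y z) C))))
      ((((hC.insert _).insert _).insert _).insert _) ?_ (by simp) (by simp) fun g' hg' hN' => ?_
    · rintro x (rfl | rfl | rfl | rfl | hx)
      exacts [hτ, g.hs hυ, hz, hap, hs x hx]
    · have hC' : C ⊆ g'.N := fun x hx => hN' (by simp [hx])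
      have b₁ : τ ∈ g'.N := hN' (by simp)
      have b₂ : υ ∈ g'.N := hN' (by simp)
      have b₃ : z ∈ g'.N := hN' (by simp)
      have := H₁ g' (g'.up hg' (hs'.trans (a₃.trans a₁))) (hC' hf) b₂ b₁
      rw [(v_eq_iff b₂ b₃).2 ⟨s, hg', e⟩] at this
      exact (v_apN (hC' hf) (hC' hY) b₃
        (h g' (g'.up hg' (hs'.trans (a₄.trans hq'))) hC').1 this).symm
  obtain ⟨s, hs', ⟨z, z₁, z₂, z₃⟩ | ⟨k, e⟩⟩ := c p₄ (a₄.trans hq') υ (g.hs hυ)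
    (H₂.mono (a₃.trans a₂))
  · exact ⟨s, hs'.trans a₄, Or.inl ⟨_, hs_apN (hs f hf) (hs Y hY) z₁, hL z z₂,
      key s hs' z z₁ z₃⟩⟩
  · exact ⟨s, hs'.trans a₄, Or.inr ⟨k, key s hs' _ (hF k) e⟩⟩

/-! ### From a system of triples to a surjection -/

theorem leStar_of_rel {h X Y : g.M} (h₁ : ∀ a b b', App g.E h a b → App g.E h a b' → b = b')
    (h₂ : ∀ a b, App g.E h a b → g.E a Y) (h₃ : ∀ b, g.E b X → ∃ a, App g.E h a b) :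
    LeStar g.E X Y := by
  by_cases hX : ∀ x, ¬ g.E x X
  · exact Or.inl hX
  push Not at hX
  obtain ⟨x₀, hx₀⟩ := hX
  obtain ⟨u₀, hu₀⟩ := exists_upair X Y
  obtain ⟨u, hu⟩ := exists_union u₀
  obtain ⟨c₀, hc₀⟩ := exists_power u
  obtain ⟨c, hc⟩ := exists_power c₀
  have hpr : ∀ a b, g.E a Y → g.E b X → g.E (pr a b) c := by
    intro a b ha hb
    have ha' : g.E a u := (hu a).2 ⟨Y, ha, (hu₀ Y).2 (Or.inr rfl)⟩
    have hb' : g.E b u := (hu b).2 ⟨X, hb, (hu₀ X).2 (Or.inl rfl)⟩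
    refine (hc _).2 fun z hz => (hc₀ z).2 fun x hx => ?_
    rcases (isPair_pr a b z).1 hz with H | H
    · exact (H x).1 hx ▸ ha'
    · rcases (H x).1 hx with rfl | rfl
      exacts [ha', hb']
  have hU : UDef.{1} (fun _ E w => ∃ a b, E a (w 3) ∧ E b (w 2) ∧ IsPair E (w 0) a b ∧
      (App E (w 1) a b ∨ (b = w 4 ∧ ¬ ∃ b', E b' (w 2) ∧ App E (w 1) a b'))) := by
    repeat' first
      | exact UDef.mem _ _ | exact UDef.eq _ _ | exact UDef.app _ _ _ | exact UDef.isPair _ _ _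
      | apply UDef.and | apply UDef.or | apply UDef.not | apply UDef.ex
  obtain ⟨f, hf⟩ := sep_udef hU [h, X, Y, x₀] c
  have hf' : ∀ p, g.E p f ↔ g.E p c ∧ ∃ a b, g.E a Y ∧ g.E b X ∧ IsPair g.E p a b ∧
      (App g.E h a b ∨ (b = x₀ ∧ ¬ ∃ b', g.E b' X ∧ App g.E h a b')) := hf
  have happ : ∀ a b, App g.E f a b ↔ g.E a Y ∧ g.E b X ∧
      (App g.E h a b ∨ (b = x₀ ∧ ¬ ∃ b', g.E b' X ∧ App g.E h a b')) := by
    intro a b
    rw [app_iff, hf']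
    constructor
    · rintro ⟨-, a', b', k₁, k₂, k₃, k₄⟩
      obtain ⟨rfl, rfl⟩ := pr_inj.1 (isPair_iff.1 k₃)
      exact ⟨k₁, k₂, k₄⟩
    · rintro ⟨k₁, k₂, k₃⟩
      exact ⟨hpr a b k₁ k₂, a, b, k₁, k₂, isPair_pr a b, k₃⟩
  refine Or.inr ⟨f, ⟨fun p hp => ?_, fun a ha => ?_⟩, fun b hb => ?_⟩
  · obtain ⟨-, a, b, k₁, k₂, k₃, -⟩ := (hf' p).1 hp
    exact ⟨a, b, k₁, k₂, k₃⟩
  · by_cases H : ∃ b', g.E b' X ∧ App g.E h a b'
    · obtain ⟨b, k₁, k₂⟩ := H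
      refine ⟨b, (happ a b).2 ⟨ha, k₁, Or.inl k₂⟩, fun b' hb' => ?_⟩
      rcases ((happ a b').1 hb').2.2 with k | k
      exacts [h₁ a b' b k k₂, absurd ⟨b, k₁, k₂⟩ k.2]
    · refine ⟨x₀, (happ a x₀).2 ⟨ha, hx₀, Or.inr ⟨rfl, H⟩⟩, fun b' hb' => ?_⟩
      obtain ⟨-, k₁, k | k⟩ := (happ a b').1 hb'
      exacts [absurd ⟨b', k₁, k⟩ H, k.1]
  · obtain ⟨a, ha⟩ := h₃ b hb
    exact ⟨a, (happ a b).2 ⟨h₂ a b ha, hb, Or.inl ha⟩⟩

/-- The name of the union of the orbits of a family of triples. -/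
noncomputable def hN (j : ℕ) {J : Type} (t : J → Tr) : Nm :=
  .mk (J × {σ // InH j σ}) (fun x => pairN (x.2.1 +ᵥ (t x.1).y) (x.2.1 +ᵥ (t x.1).x))
    (fun x => x.2.1 +ᵥ (t x.1).r)

theorem hs_hN {j : ℕ} {J : Type} {t : J → Tr} (h₁ : ∀ a, HS (t a).y) (h₂ : ∀ a, HS (t a).x) :
    HS (hN j t) := by
  refine hs_mk (k := j) (fix_of fun σ hσ ⟨a, τ, hτ⟩ => ?_)
    fun x => hs_pairN ((h₁ _).vadd _) ((h₂ _).vadd _)
  have := fmem_child (hN j t) (a, ⟨σ + τ, hσ.add hτ⟩) le_rfl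
  simp only [hN, A_mk, B_mk, add_vadd] at this
  exact fmem_left (vadd_pairN σ _ _ _) this

theorem app_hN {j : ℕ} {J : Type} {t : J → Tr} (h : hN j t ∈ g.N) {a b : g.M} :
    App g.E (g.v (hN j t)) a b ↔ ∃ i σ, InH j σ ∧ σ +ᵥ (t i).r ∈ g.G ∧ σ +ᵥ (t i).y ∈ g.N ∧
      σ +ᵥ (t i).x ∈ g.N ∧ a = g.v (σ +ᵥ (t i).y) ∧ b = g.v (σ +ᵥ (t i).x) := by
  rw [app_iff, E_v h]
  constructor
  · rintro ⟨⟨i, σ, hσ⟩, h₁, h₂, h₃⟩
    obtain ⟨k₁, k₂⟩ := pairN_mem_iff.1 h₂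
    obtain ⟨rfl, rfl⟩ := pr_inj.1 ((v_pairN k₁ k₂).symm.trans h₃)
    exact ⟨i, σ, hσ, h₁, k₁, k₂, rfl, rfl⟩
  · rintro ⟨i, σ, hσ, h₁, k₁, k₂, rfl, rfl⟩
    exact ⟨(i, ⟨σ, hσ⟩), h₁, pairN_mem_iff.2 ⟨k₁, k₂⟩, v_pairN k₁ k₂⟩

theorem leStar_of_sys {X Y : Nm} {j : ℕ} (hY : Fix j Y) {r : Q} {S : Set Tr} (hS : Small.{0} S)
    (h₁ : ∀ t ∈ S, Sys j Y t) (h₂ : S.Pairwise (Sep j))
    (h₃ : ∀ q' ≤ r, ∀ τ, HS τ → FMem τ X q' → ∃ t ∈ S, ∃ s ≤ q', s ≤ t.r ∧ FEq τ t.x s) :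
    ∃ h, HS h ∧ ∀ g : Gn, r ∈ g.G → h ∈ g.N → X ∈ g.N → Y ∈ g.N →
      LeStar g.E (g.v X) (g.v Y) := by
  let tt : Shrink.{0} S → Tr := fun a => ((equivShrink S).symm a).1
  have htt : ∀ a, tt a ∈ S := fun a => ((equivShrink S).symm a).2
  refine ⟨hN j tt, hs_hN (fun a => (h₁ _ (htt a)).1) (fun a => (h₁ _ (htt a)).2.1),
    fun g hr hh hX hYN => leStar_of_rel (h := g.v (hN j tt)) (fun a b b' k k' => ?_)
      (fun a b k => ?_) fun b hb => ?_⟩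
  · obtain ⟨i, σ, hσ, a₁, a₂, a₃, rfl, rfl⟩ := (app_hN hh).1 k
    obtain ⟨i', σ', hσ', b₁, b₂, b₃, e, rfl⟩ := (app_hN hh).1 k'
    obtain ⟨p, hp, e'⟩ := (v_eq_iff a₂ b₂).1 e
    obtain ⟨s₀, hs₀, c₁, c₂⟩ := g.dir a₁ b₁
    obtain ⟨s, -, c₃, c₄⟩ := g.dir hp hs₀
    have d₁ : σ' +ᵥ s ≤ (σ' + σ) +ᵥ (tt i).r := by
      rw [add_vadd]; exact vadd_mono _ (c₄.trans c₁)
    have d₂ : σ' +ᵥ s ≤ (tt i').r := vadd_le_swap (c₄.trans c₂)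
    have d₃ : FEq ((σ' + σ) +ᵥ (tt i).y) (tt i').y (σ' +ᵥ s) := by
      simpa only [vadd_vadd_self, add_vadd] using feq_vadd σ' (e'.mono c₃)
    have d₄ : tt i = tt i' := by_contra fun hne =>
      h₂ (htt i) (htt i') hne _ (hσ'.add hσ) _ d₁ d₂ d₃
    rw [← d₄] at d₂ d₃ b₃ ⊢
    rcases (h₁ _ (htt i)).2.2.2 _ (hσ'.add hσ) (stab_of_compat d₂ d₁) with H | H
    · exact absurd d₃ (H _ d₂)
    · refine (v_eq_iff a₃ b₃).2 ⟨⊤, g.top, ?_⟩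
      simpa only [vadd_vadd_self, add_vadd] using feq_vadd_top σ' H ⊤
  · obtain ⟨i, σ, hσ, a₁, a₂, -, rfl, -⟩ := (app_hN hh).1 k
    exact (v_mem_iff a₂ hYN).2 ⟨_, a₁,
      fmem_right (fmem_vadd σ (h₁ _ (htt i)).2.2.1) ((hY σ hσ).mono le_top)⟩
  · obtain ⟨τ, hτ, rfl⟩ := exists_v b
    obtain ⟨p₀, hp₀, hm⟩ := (v_mem_iff hτ hX).1 hb
    refine dens (Ψ := fun _ E w => ∃ a, App E (w 0) a (w 1)) (UDef.ex (UDef.app _ _ _))
      (l2 hh hτ) fun p hp => ?_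
    obtain ⟨p₁, hp₁, c₁, c₂⟩ := g.dir hp hp₀
    obtain ⟨p₂, -, c₃, c₄⟩ := g.dir hp₁ hr
    obtain ⟨t, ht, s, hs, d₁, d₂⟩ := h₃ p₂ c₄ τ (g.hs hτ) (hm.mono (c₃.trans c₂))
    refine ⟨s, hs.trans (c₃.trans c₁), {t.y, t.x}, (Set.toFinite _).countable, ?_,
      fun g' hs' hC hl => ?_⟩
    · rintro x (rfl | rfl)
      exacts [(h₁ t ht).1, (h₁ t ht).2.1]
    · have e : tt (equivShrink S ⟨t, ht⟩) = t := by simp [tt]
      refine ⟨g'.v t.y, (app_hN (hl _ (by simp))).2 ⟨equivShrink S ⟨t, ht⟩, 0, InH.zero _, ?_⟩⟩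
      simp only [zero_vadd, e]
      exact ⟨g'.up hs' d₁, hC (by simp), hC (by simp), trivial,
        (v_eq_iff (hl τ (by simp)) (hC (by simp))).2 ⟨s, hs', d₂⟩⟩

/-! ### Well-foundedness -/

theorem exists_step {A f : ℕ → Nm} {m : ℕ} {p : Q} (hA : ∀ n, HS (A n)) (hf : ∀ n, HS (f n))
    (fA : ∀ n, Fix m (A n)) (ff : ∀ n, Fix m (f n)) {C : Set Nm} (hC : C.Countable)
    (hs : ∀ x ∈ C, HS x) (hAC : ∀ n, A n ∈ C) (hfC : ∀ n, f n ∈ C)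
    (h : ∀ g : Gn, p ∈ g.G → C ⊆ g.N → ∀ n, IsSurj g.E (g.v (f n)) (g.v (A n)) (g.v (A (n + 1)))) :
    ∃ r ≤ p, ∃ n h, HS h ∧ ∀ g : Gn, r ∈ g.G → h ∈ g.N → A n ∈ g.N → A (n + 1) ∈ g.N →
      LeStar g.E (g.v (A n)) (g.v (A (n + 1))) := by
  obtain ⟨lam, ⟨q₁, hq₁, n₁, j, hj, K₁, F₁, hF₁, c1, rfl⟩, l1⟩ := wellFounded_lt.has_min
    {c : Cardinal.{0} | ∃ q ≤ p, ∃ n j, m ≤ j ∧ ∃ (K : Type) (F : K → Nm), (∀ k, HS (F k)) ∧
      Cov (Fix j) q (A n) F ∧ #K = c}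
    ⟨_, p, le_rfl, 0, m, le_rfl, _, _, (hA 0).child, cov_self _ _ _, rfl⟩
  obtain ⟨mu, ⟨q₂, hq₂, n₂, hn, K₂, F₂, hF₂, c2, rfl⟩, l2⟩ := wellFounded_lt.has_min
    {c : Cardinal.{0} | ∃ q ≤ q₁, ∃ n, n₁ ≤ n ∧ ∃ (K : Type) (F : K → Nm), (∀ k, HS (F k)) ∧
      Cov (fun _ => False) q (A n) F ∧ #K = c}
    ⟨_, q₁, le_rfl, n₁, le_rfl, _, _, (hA n₁).child, cov_self _ _ _, rfl⟩
  have c1' : ∀ n, n₁ ≤ n → ∃ F : K₁ → Nm, (∀ k, HS (F k)) ∧ Cov (Fix j) q₁ (A n) F := by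
    intro n hn
    induction n, hn using Nat.le_induction with
    | base => exact ⟨F₁, hF₁, c1⟩
    | succ n _ ih =>
      obtain ⟨F, h₁, h₂⟩ := ih
      exact ⟨_, fun k => hs_apN (hf n) (hA _) (h₁ k), cov_map hC hs (hfC n) (hAC n) (hAC _)
        (fun g hg hN => h g (g.up hg hq₁) hN n)
        (fun z hz => fix_apN _ ((ff n).mono hj) hz) h₁ h₂⟩
  obtain ⟨F, hF, c⟩ := c1' n₂ hn
  obtain ⟨r, hr, S, h₁, h₂, h₃, h₄⟩ := match_main (Y := A (n₂ + 1)) hF hF₂ le_rfl le_rfl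
    (c.mono hq₂ fun _ h => h) c2 (fun hE => by
      obtain ⟨F', -, c'⟩ := c1' (n₂ + 1) (Nat.le_succ_of_le hn)
      intro q' hq' τ hτ hm
      obtain ⟨s, hs', h' | ⟨k, -⟩⟩ := c' q' (hq'.trans hq₂) τ hτ hm
      exacts [⟨s, hs', Or.inl h'⟩, hE.elim k])
    (fun q' hq' j' hj' K F a b => not_lt.1
      (l1 _ ⟨q', hq'.trans (hq₂.trans hq₁), _, j', hj.trans hj', K, F, a, b, rfl⟩))
    (fun q' hq' K F a b => not_lt.1
      (l2 _ ⟨q', hq'.trans hq₂, _, Nat.le_succ_of_le hn, K, F, a, b, rfl⟩))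
  exact ⟨r, hr.trans (hq₂.trans hq₁), n₂, leStar_of_sys ((fA _).mono hj) h₁ h₂ h₃ h₄⟩

theorem udef_isOmega (i : ℕ) : UDef.{1} (fun _ E w => IsOmega E (w i)) := by
  unfold IsOmega IsOrd IsLim
  repeat' first
    | exact UDef.mem _ _ | exact UDef.eq _ _ | apply UDef.and | apply UDef.or
    | apply UDef.not | apply UDef.imp | apply UDef.all | apply UDef.ex

theorem udef_isSucc (i j : ℕ) : UDef.{1} (fun _ E w => IsSucc E (w i) (w j)) := by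
  unfold IsSucc
  repeat' first
    | exact UDef.mem _ _ | exact UDef.eq _ _ | apply UDef.or | apply UDef.iff | apply UDef.all

theorem udef_isSurj (i j k : ℕ) : UDef.{1} (fun _ E w => IsSurj E (w i) (w j) (w k)) := by
  unfold IsSurj
  repeat' first
    | exact UDef.mem _ _ | exact UDef.isFun _ _ _ | exact UDef.app _ _ _ | apply UDef.and
    | apply UDef.imp | apply UDef.all | apply UDef.ex

theorem udef_leStar (i j : ℕ) : UDef.{1} (fun _ E w => LeStar E (w i) (w j)) := by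
  unfold LeStar
  repeat' first
    | exact UDef.mem _ _ | exact udef_isSurj _ _ _ | apply UDef.or | apply UDef.not
    | apply UDef.all | apply UDef.ex

theorem wfs4 (g : Gn) : WFs4 g.E := by
  intro w A F U V h₁ h₂ h₃ h₄
  obtain ⟨w, hw, rfl⟩ := exists_v w
  obtain ⟨A, hA, rfl⟩ := exists_v A
  obtain ⟨F, hF, rfl⟩ := exists_v F
  obtain ⟨U, hU, rfl⟩ := exists_v U
  obtain ⟨V, hV, rfl⟩ := exists_v V
  have hl : ∀ x ∈ [w, A, F, U, V], x ∈ g.N := lcons hw (l4 hA hF hU hV)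
  have u₁ : UDef.{1} (fun _ E w => IsOmega E (w 0) ∧ IsFun E (w 1) (w 0) (w 3) ∧
      IsFun E (w 2) (w 0) (w 4) ∧ ∀ n s a b f, E n (w 0) → IsSucc E n s → App E (w 1) n a →
        App E (w 1) s b → App E (w 2) n f → IsSurj E f a b) := by
    repeat' first
      | exact UDef.mem _ _ | exact udef_isOmega _ | exact UDef.isFun _ _ _
      | exact udef_isSucc _ _ | exact udef_isSurj _ _ _ | exact UDef.app _ _ _
      | apply UDef.and | apply UDef.imp | apply UDef.all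
  have u₂ : UDef.{1} (fun _ E w => ∃ n s a b, E n (w 0) ∧ IsSucc E n s ∧ App E (w 1) n a ∧
      App E (w 1) s b ∧ LeStar E a b) := by
    repeat' first
      | exact UDef.mem _ _ | exact udef_isSucc _ _ | exact udef_leStar _ _ | exact UDef.app _ _ _
      | apply UDef.and | apply UDef.ex
  obtain ⟨p₀, hp₀, H⟩ := transfer u₁ hl ⟨h₁, h₂, h₃, h₄⟩
  refine dens u₂ hl fun p hp => ?_
  obtain ⟨p₁, -, c₁, c₂⟩ := g.dir hp hp₀
  obtain ⟨m, hm⟩ := exists_fix_list fun x hx => g.hs (hl x hx)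
  have hsA : ∀ n, HS (apN A U (nN n)) := fun n => hs_apN (g.hs hA) (g.hs hU) (hs_nN n)
  have hsF : ∀ n, HS (apN F V (nN n)) := fun n => hs_apN (g.hs hF) (g.hs hV) (hs_nN n)
  have val : ∀ g' : Gn, p₁ ∈ g'.G → (∀ x ∈ [w, A, F, U, V], x ∈ g'.N) → ∀ n,
      g'.E (g'.v (nN n)) (g'.v w) ∧ App g'.E (g'.v A) (g'.v (nN n)) (g'.v (apN A U (nN n))) ∧
      App g'.E (g'.v F) (g'.v (nN n)) (g'.v (apN F V (nN n))) := by
    intro g' hg' hl' n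
    obtain ⟨k₁, k₂, k₃, -⟩ := H g' (g'.up hg' c₂) hl'
    have hn := nN_mem_omega k₁ n
    obtain ⟨a, -, ha⟩ := fun_ex k₂ hn
    obtain ⟨f, -, hf⟩ := fun_ex k₃ hn
    exact ⟨hn, (v_apN (hl' A (by simp)) (hl' U (by simp)) (nN_mem n) k₂ ha).symm ▸ ha,
      (v_apN (hl' F (by simp)) (hl' V (by simp)) (nN_mem n) k₃ hf).symm ▸ hf⟩
  obtain ⟨r, hr, n, h, hh, K⟩ := exists_step (p := p₁) hsA hsF
    (fun n => fix_apN _ (hm A (by simp)) (fix_nN m n))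
    (fun n => fix_apN _ (hm F (by simp)) (fix_nN m n))
    (C := {x | x ∈ [w, A, F, U, V]} ∪ (Set.range (fun n => apN A U (nN n)) ∪
      Set.range (fun n => apN F V (nN n))))
    ((List.finite_toSet _).countable.union ((Set.countable_range _).union (Set.countable_range _)))
    (by
      rintro x (hx | ⟨n, rfl⟩ | ⟨n, rfl⟩)
      exacts [g.hs (hl x hx), hsA n, hsF n])
    (fun n => Or.inr (Or.inl ⟨n, rfl⟩)) (fun n => Or.inr (Or.inr ⟨n, rfl⟩))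
    (fun g' hg' hN n => by
      have hl' : ∀ x ∈ [w, A, F, U, V], x ∈ g'.N := fun x hx => hN (Or.inl hx)
      obtain ⟨k₁, k₂, k₃⟩ := val g' hg' hl' n
      exact (H g' (g'.up hg' c₂) hl').2.2.2 _ _ _ _ _ k₁ (isSucc_nN n) k₂
        (val g' hg' hl' (n + 1)).2.1 k₃)
  refine ⟨r, hr.trans c₁, {h}, Set.countable_singleton _, by simpa using hh,
    fun g' hg' hC hl' => ?_⟩
  have hp₁ := g'.up hg' hr
  have hm' : ∀ n, apN A U (nN n) ∈ g'.N := fun n =>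
    apN_mem (hl' A (by simp)) (hl' U (by simp)) (nN_mem n)
  exact ⟨_, _, _, _, (val g' hp₁ hl' n).1, isSucc_nN n, (val g' hp₁ hl' n).2.1,
    (val g' hp₁ hl' (n + 1)).2.1, K g' hg' (hC rfl) (hm' _) (hm' _)⟩

/-! ### Failure of choice -/

/-- The generic real restricted to coordinates of type at most `k`. -/
noncomputable def xN (k : ℕ) : Nm :=
  .mk {x : I × Q // x.1.1 ≤ k ∧ x.2.p.Dec x.1 ∧ x.2.p.x x.1 = 1}
    (fun x => nN (Nat.pair x.1.1.1 x.1.1.2)) (fun x => x.1.2)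

theorem hs_xN (k : ℕ) : HS (xN k) := by
  refine hs_mk (k := k + 1) (fix_of fun σ hσ ⟨⟨i, r⟩, h₁, h₂, h₃⟩ => ?_) fun x => hs_nN _
  have h₀ : σ i = 0 := by_contra fun h => by have := hσ i h; simp only at h₁; omega
  exact fmem_left ((fix_nN 0 _ σ (inH_zero σ)).mono le_top)
    (fmem_child (xN k) ⟨(i, σ +ᵥ r), h₁, h₂, by simpa [vadd_p, P.shift, h₀] using h₃⟩ le_rfl)

theorem feq_nN {m n : ℕ} {s : Q} (h : FEq (nN m) (nN n) s) : m = n := by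
  obtain ⟨g, hg, -⟩ := exists_gn s ∅ Set.countable_empty (by simp)
  exact nN_inj ((v_eq_iff (nN_mem m) (nN_mem n)).2 ⟨s, hg, h⟩)

theorem xN_moved {k : ℕ} {ρ : Gam} (hρ : ¬ InH (k + 1) ρ) (s : Q) : ¬ FEq (ρ +ᵥ xN k) (xN k) s := by
  unfold InH at hρ
  push Not at hρ
  obtain ⟨i, hi, hk⟩ := hρ
  have key : ∀ s : Q, s.p.Dec i → s.p.x i = 1 → ¬ FEq (ρ +ᵥ xN k) (xN k) s := by
    intro s h₁ h₂ e
    have := fmem_right (fmem_child (xN k) ⟨(i, s), Nat.lt_succ_iff.1 hk, h₁, h₂⟩ le_rfl) e.symm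
    rw [vadd_eq] at this
    obtain ⟨s', hs', ⟨⟨i', r⟩, a₁, a₂, a₃⟩, b₁, b₂⟩ := this s le_rfl
    have := feq_nN (feq_trans b₂ ((fix_nN 0 _ ρ (inH_zero ρ)).mono le_top))
    rw [Nat.pair_eq_pair] at this
    obtain rfl : i = i' := Prod.ext this.1 this.2
    have c₁ := h₁.x_eq hs'.2
    have c₂ := P.Dec.x_eq (p := (ρ +ᵥ r).p) a₂ b₁.2
    simp only [vadd_p, P.shift, Pi.add_apply] at c₂ a₃
    rw [c₁, h₂, a₃] at c₂
    exact hi (by linear_combination -c₂)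
  intro e
  obtain ⟨s', hs', hd⟩ := exists_dec s {i}
  have hd' := hd i (Finset.mem_singleton_self i)
  by_cases h : s'.p.x i = 0
  · refine key (ρ +ᵥ s') hd' ?_ ?_
    · simp only [vadd_p, P.shift, Pi.add_apply, h, zero_add]
      exact two_eq hi one_ne_zero
    · simpa only [vadd_vadd_self] using (feq_vadd ρ (e.mono hs')).symm
  · exact key s' hd' (two_eq h one_ne_zero) (e.mono hs')

noncomputable def yN (k : ℕ) (σ : Gam) : Nm := pairN (nN k) (σ +ᵥ xN k)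

theorem hs_yN (k : ℕ) (σ : Gam) : HS (yN k σ) := hs_pairN (hs_nN k) ((hs_xN k).vadd σ)

theorem vadd_yN (k : ℕ) (ρ σ : Gam) (p : Q) : FEq (ρ +ᵥ yN k σ) (yN k (ρ + σ)) p :=
  feq_trans (vadd_pairN _ _ _ _) (feq_pairN ((fix_nN 0 _ ρ (inH_zero ρ)).mono le_top)
    (by rw [add_vadd]; exact feq_refl _ _))

noncomputable def zN (k : ℕ) : Nm := fam (yN k)

theorem fix_zN (k : ℕ) : Fix 0 (zN k) := fix_fam fun ρ _ σ => ⟨ρ + σ, vadd_yN k ρ σ ⊤⟩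

noncomputable def aN : Nm := fam zN

theorem hs_aN : HS aN :=
  hs_mk (fix_fam fun σ hσ k => ⟨k, fix_zN k σ hσ⟩) fun k => hs_mk (fix_zN k) (hs_yN k)

theorem not_ac (ha : aN ∈ g.N) : ¬ AC g.E := by
  intro H
  have hz : ∀ k, zN k ∈ g.N := fam_mem ha
  have hy : ∀ k σ, yN k σ ∈ g.N := fun k => fam_mem (hz k)
  have hx : ∀ k (σ : Gam), σ +ᵥ xN k ∈ g.N := fun k σ => (pairN_mem_iff.1 (hy k σ)).2
  have ey : ∀ k σ, g.v (yN k σ) = pr (g.v (nN k)) (g.v (σ +ᵥ xN k)) := fun k σ =>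
    v_pairN (nN_mem k) (hx k σ)
  have my : ∀ k σ, g.E (g.v (yN k σ)) (g.v (zN k)) := fun k σ =>
    (E_fam (hz k)).2 ⟨σ, hy k σ, rfl⟩
  obtain ⟨c, hc⟩ := H (g.v aN) (fun x hx => by
      obtain ⟨k, -, rfl⟩ := (E_fam ha).1 hx
      exact ⟨_, my k 0⟩) (fun x y hx hy' ⟨z, h₁, h₂⟩ => by
      obtain ⟨k, -, rfl⟩ := (E_fam ha).1 hx
      obtain ⟨k', -, rfl⟩ := (E_fam ha).1 hy'
      obtain ⟨σ, -, rfl⟩ := (E_fam (hz k)).1 h₁
      obtain ⟨σ', -, e⟩ := (E_fam (hz k')).1 h₂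
      rw [ey, ey] at e
      rw [nN_inj (pr_inj.1 e).1])
  obtain ⟨γ, hγ, rfl⟩ := exists_v c
  obtain ⟨k, hk⟩ := (g.hs hγ).fix
  obtain ⟨y, ⟨h₁, h₂⟩, h₃⟩ := hc _ ((E_fam ha).2 ⟨k, hz k, rfl⟩)
  obtain ⟨σ, -, rfl⟩ := (E_fam (hz k)).1 h₁
  obtain ⟨p, hp, hm⟩ := (v_mem_iff (hy k σ) hγ).1 h₂
  obtain ⟨ρ, b₁, b₂, b₃⟩ := exists_block p k
  have hm' : FMem (yN k (ρ + σ)) γ p := fmem_left (vadd_yN k ρ σ p).symm
    (fmem_right ((fmem_vadd ρ hm).mono b₁.ge) ((hk ρ b₂).mono le_top))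
  have e := h₃ _ ⟨my k (ρ + σ), (v_mem_iff (hy k _) hγ).2 ⟨p, hp, hm'⟩⟩
  rw [ey, ey] at e
  obtain ⟨s, -, e'⟩ := (v_eq_iff (hx _ _) (hx _ _)).1 (pr_inj.1 e).2
  refine xN_moved (k := k) b₃ (σ +ᵥ s) ?_
  have := feq_vadd σ e'
  rwa [vadd_vadd_self, add_comm, add_vadd, vadd_vadd_self] at this

theorem main : ∃ (M : Type 1) (E : M → M → Prop), IsZF E ∧ WFs4 E ∧ ¬ AC E := by
  obtain ⟨g, -, hC⟩ := exists_gn ⊤ {aN} (Set.countable_singleton _) (by simpa using hs_aN)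
  exact ⟨g.M, g.E, g.isZF, wfs4 g, not_ac (hC rfl)⟩

end Pool.Agent.MP_a078ad_lc
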