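import Pool.Agent.MP_a078ad_lc.Canon

namespace Pool.Agent.MP_a078ad_lc

open Pool.Agent.MP_c6cf52_lc Pool.Agent.MP_c6cf52_lc.Name Cardinal

/-- A condition, a source name and a target name. -/
structure Tr where
  r : Q
  y : Nm
  x : Nm

def Sep (j : ℕ) (t t' : Tr) : Prop :=
  ∀ σ, InH j σ → ∀ s, s ≤ σ +ᵥ t.r → s ≤ t'.r → ¬ FEq (σ +ᵥ t.y) t'.y s

theorem Sep.symm {j : ℕ} {t t' : Tr} (h : Sep j t t') : Sep j t' t := fun σ hσ s h₁ h₂ e =>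
  h σ hσ (σ +ᵥ s) (vadd_mono σ h₂) (vadd_le_swap h₁)
    (by simpa only [vadd_vadd_self] using (feq_vadd σ e).symm)

def Fresh (j : ℕ) (u : Nm) (t : Tr) : Prop := ∀ σ, InH j σ → FNe t.y (σ +ᵥ u) t.r

theorem Fresh.sep {j : ℕ} {u : Nm} {t t' : Tr} (h : Fresh j u t') (e : FEq t.y u t.r) :
    Sep j t t' := fun σ hσ s h₁ h₂ e' =>
  h σ hσ s h₂ (feq_trans e'.symm ((feq_vadd σ e).mono h₁))

/-- A separated system of triples that serves all tasks densely below `q`. -/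
def Out (j : ℕ) {ι : Type} (Good : ι → Tr → Prop) (q : Q) (κ : Cardinal.{0}) : Prop :=
  ∃ S : Set Tr, Small.{0} S ∧ (∀ t ∈ S, ∃ i, Good i t) ∧ S.Pairwise (Sep j) ∧
    (∀ i, ∀ q' ≤ q, ∃ t ∈ S, Good i t ∧ ∃ s ≤ q', s ≤ t.r) ∧
    ∃ (K : Type) (U : K → Nm), #K ≤ κ ∧ (∀ k, HS (U k)) ∧ ∀ t ∈ S, ∃ k, FEq t.y (U k) t.r

theorem out_of_countable {j : ℕ} {ι : Type} {Good : ι → Tr → Prop} {q : Q}
    (hG : ∀ i t, Good i t → HS t.y) {S : Set Tr} (hS : S.Countable) (h₁ : ∀ t ∈ S, ∃ i, Good i t)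
    (h₂ : S.Pairwise (Sep j)) (h₃ : ∀ i, ∀ q' ≤ q, ∃ t ∈ S, Good i t ∧ ∃ s ≤ q', s ≤ t.r) :
    Out j Good q ℵ₀ := by
  have := hS.to_subtype
  refine ⟨S, inferInstance, h₁, h₂, h₃, Shrink.{0} S, fun a => ((equivShrink.{0} S).symm a).1.y,
    ?_, fun a => ?_, fun t ht => ⟨equivShrink.{0} S ⟨t, ht⟩, by simpa using feq_refl _ _⟩⟩
  · have : Countable (Shrink.{0} S) := (equivShrink.{0} S).symm.countable_iff.2 inferInstance
    exact mk_le_aleph0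
  · obtain ⟨i, hi⟩ := h₁ _ ((equivShrink.{0} S).symm a).2
    exact hG i _ hi

theorem pairwise_insert {j : ℕ} {L : Set Tr} {t : Tr} (h : L.Pairwise (Sep j))
    (hf : ∀ t' ∈ L, Fresh j t'.y t) : (insert t L).Pairwise (Sep j) :=
  Set.pairwise_insert.2 ⟨h, fun t' ht' _ =>
    ⟨((hf t' ht').sep (feq_refl _ _)).symm, (hf t' ht').sep (feq_refl _ _)⟩⟩

theorem out_fin {j : ℕ} {ι : Type} [Fintype ι] {Good : ι → Tr → Prop} {q : Q}
    (hG : ∀ i t, Good i t → HS t.y)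
    (sup : ∀ q' ≤ q, ∀ L : Set Tr, L.Finite → L.ncard < Fintype.card ι →
      (∀ t ∈ L, ∃ i, Good i t) → ∀ i, ∃ t, t.r ≤ q' ∧ Good i t ∧ ∀ t' ∈ L, Fresh j t'.y t) :
    ∃ r ≤ q, Out j Good r ℵ₀ := by
  classical
  have key : ∀ T : Finset ι, ∃ r ≤ q, ∃ L : Set Tr, L.Finite ∧ L.ncard ≤ T.card ∧
      (∀ t ∈ L, ∃ i, Good i t) ∧ L.Pairwise (Sep j) ∧ ∀ i ∈ T, ∃ t ∈ L, Good i t ∧ r ≤ t.r := by
    intro T
    induction T using Finset.induction_on with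
    | empty => exact ⟨q, le_rfl, ∅, by simp, by simp, by simp, by simp, by simp⟩
    | insert a T ha ih =>
      obtain ⟨r, hr, L, h₁, h₂, h₃, h₄, h₅⟩ := ih
      have hc : T.card < Fintype.card ι := by
        have := Finset.card_le_univ (insert a T)
        rw [Finset.card_insert_of_notMem ha] at this
        omega
      obtain ⟨t, t₁, t₂, t₃⟩ := sup r hr L h₁ (h₂.trans_lt hc) h₃ a
      refine ⟨t.r, t₁.trans hr, insert t L, h₁.insert t, ?_, ?_, pairwise_insert h₄ t₃,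
        fun i hi => ?_⟩
      · rw [Finset.card_insert_of_notMem ha]
        exact (Set.ncard_insert_le _ _).trans (by omega)
      · rintro t' (rfl | ht')
        exacts [⟨a, t₂⟩, h₃ t' ht']
      · rcases Finset.mem_insert.1 hi with rfl | hi
        · exact ⟨t, Or.inl rfl, t₂, le_rfl⟩
        · obtain ⟨t', h₆, h₇, h₈⟩ := h₅ i hi
          exact ⟨t', Or.inr h₆, h₇, t₁.trans h₈⟩
  obtain ⟨r, hr, L, h₁, -, h₃, h₄, h₅⟩ := key Finset.univ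
  refine ⟨r, hr, out_of_countable hG h₁.countable h₃ h₄ fun i q' hq' => ?_⟩
  obtain ⟨t, h₆, h₇, h₈⟩ := h₅ i (Finset.mem_univ i)
  exact ⟨t, h₆, h₇, q', le_rfl, hq'.trans h₈⟩

theorem out_ctble {j : ℕ} {ι : Type} [Countable ι] {Good : ι → Tr → Prop} {q : Q}
    (hG : ∀ i t, Good i t → HS t.y)
    (sup : ∀ q' ≤ q, ∀ L : Set Tr, L.Finite →
      (∀ t ∈ L, ∃ i, Good i t) → ∀ i, ∃ t, t.r ≤ q' ∧ Good i t ∧ ∀ t' ∈ L, Fresh j t'.y t) :
    ∃ r ≤ q, Out j Good r ℵ₀ := by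
  classical
  rcases isEmpty_or_nonempty ι with hι | hι
  · exact ⟨q, le_rfl, out_of_countable hG Set.countable_empty (by simp) (by simp)
      fun i => hι.elim i⟩
  obtain ⟨e, he⟩ := exists_surjective_nat ι
  obtain ⟨r, hr, Δ, s, L, hI, hR, -, -, -, H⟩ := fusion (St := Set Tr)
    (fun n Δ r L => L.Finite ∧ (∀ t ∈ L, ∃ i, Good i t) ∧ L.Pairwise (Sep j) ∧
      (∀ δ ∈ Δ, δ +ᵥ r ≤ q) ∧
      ∀ m, n = m + 1 → ∀ δ ∈ Δ, ∃ t ∈ L, Good (e m) t ∧ δ +ᵥ r ≤ t.r) (· ⊆ ·)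
    (fun _ _ _ _ _ hr ⟨h₁, h₂, h₃, h₄, h₅⟩ => ⟨h₁, h₂, h₃,
      fun δ hδ => (vadd_mono _ hr).trans (h₄ δ hδ), fun m hm δ hδ =>
        let ⟨t, a, b, c⟩ := h₅ m hm δ hδ
        ⟨t, a, b, (vadd_mono _ hr).trans c⟩⟩) (by
      rintro n Δ r L k ⟨h₁, h₂, h₃, h₄, -⟩
      have inner : ∀ T : Finset Gam, T ⊆ Δ → ∃ r' ≤ r, ∃ L' ⊇ L, L'.Finite ∧
          (∀ t ∈ L', ∃ i, Good i t) ∧ L'.Pairwise (Sep j) ∧
          ∀ δ ∈ T, ∃ t ∈ L', Good (e n) t ∧ δ +ᵥ r' ≤ t.r := by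
        intro T
        induction T using Finset.induction_on with
        | empty => exact fun _ => ⟨r, le_rfl, L, subset_rfl, h₁, h₂, h₃, by simp⟩
        | insert a T _ ih =>
          intro hT
          obtain ⟨r', hr', L', l₀, l₁, l₂, l₃, l₄⟩ := ih ((Finset.subset_insert _ _).trans hT)
          obtain ⟨t, t₁, t₂, t₃⟩ := sup (a +ᵥ r')
            ((vadd_mono _ hr').trans (h₄ a (hT (Finset.mem_insert_self _ _)))) L' l₁ l₂ (e n)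
          have hle : a +ᵥ t.r ≤ r' := vadd_le_swap t₁
          refine ⟨a +ᵥ t.r, hle.trans hr', insert t L', l₀.trans (Set.subset_insert _ _),
            l₁.insert t, ?_, pairwise_insert l₃ t₃, fun δ hδ => ?_⟩
          · rintro t' (rfl | ht')
            exacts [⟨_, t₂⟩, l₂ t' ht']
          · rcases Finset.mem_insert.1 hδ with rfl | hδ
            · exact ⟨t, Or.inl rfl, t₂, by rw [vadd_vadd_self]⟩
            · obtain ⟨t', a₁, a₂, a₃⟩ := l₄ δ hδ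
              exact ⟨t', Or.inr a₁, a₂, (vadd_mono _ hle).trans a₃⟩
      obtain ⟨r', hr', L', l₀, l₁, l₂, l₃, l₄⟩ := inner Δ subset_rfl
      obtain ⟨ρ, b₁, b₂, b₃⟩ := exists_block r' k
      have hg : ∀ δ ∈ grow Δ ρ, ∃ δ' ∈ Δ, δ +ᵥ r' ≤ δ' +ᵥ r' := by
        intro δ hδ
        rw [mem_grow] at hδ
        rcases hδ with hδ | ⟨δ, hδ, rfl⟩
        · exact ⟨δ, hδ, le_rfl⟩
        · exact ⟨δ, hδ, by rw [add_vadd]; exact vadd_mono _ b₁.le⟩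
      refine ⟨ρ, b₁.of_le hr', b₂, b₃, r', hr', L', ⟨l₁, l₂, l₃, fun δ hδ => ?_,
        fun m hm δ hδ => ?_⟩, l₀⟩
      · obtain ⟨δ', a₁, a₂⟩ := hg δ hδ
        exact a₂.trans ((vadd_mono _ hr').trans (h₄ δ' a₁))
      · obtain ⟨δ', a₁, a₂⟩ := hg δ hδ
        obtain ⟨t, c₁, c₂, c₃⟩ := l₄ δ' a₁
        obtain rfl : n = m := by omega
        exact ⟨t, c₁, c₂, a₂.trans c₃⟩) q ∅ (by simp)
  have hm : Monotone L := monotone_nat_of_le_succ hR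
  refine ⟨r, hr, out_of_countable hG (S := ⋃ n, L n)
    (Set.countable_iUnion fun n => (hI n).1.countable) (fun t ht => ?_) (fun t ht t' ht' => ?_)
    fun i q' hq' => ?_⟩
  · obtain ⟨n, hn⟩ := Set.mem_iUnion.1 ht
    exact (hI n).2.1 t hn
  · obtain ⟨n, hn⟩ := Set.mem_iUnion.1 ht
    obtain ⟨n', hn'⟩ := Set.mem_iUnion.1 ht'
    exact (hI (max n n')).2.2.1 (hm (le_max_left _ _) hn) (hm (le_max_right _ _) hn')
  · obtain ⟨m, rfl⟩ := he i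
    obtain ⟨s', hs', δ, hδ, hle⟩ := H (m + 1) q' hq'
    obtain ⟨t, c₁, c₂, c₃⟩ := (hI (m + 1)).2.2.2.2 m rfl δ hδ
    exact ⟨t, Set.mem_iUnion.2 ⟨_, c₁⟩, c₂, s', hs', hle.trans c₃⟩

/-- Mixing names along an antichain of the collapse. -/
theorem exists_mix {J : Type} (c : J → Col) (y : J → Nm) (k : ℕ) (hs : ∀ a, HS (y a))
    (hf : ∀ a, Fix k (y a)) (anti : ∀ a b d, d ≤ c a → d ≤ c b → a = b) :
    ∃ u, HS u ∧ ∀ a (q : Q), q.c ≤ c a → FEq (y a) u q := by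
  let u : Nm := .mk {x : Σ a : J, (y a).I × Q // x.2.2.c ≤ c x.1 ∧ x.2.2 ≤ (y x.1).B x.2.1}
    (fun x => (y x.1.1).A x.1.2.1) (fun x => x.1.2.2)
  have key : ∀ a (q : Q), q.c ≤ c a → FEq (y a) u q := by
    intro a q hq
    rw [feq_iff]
    refine ⟨fun i s h₁ h₂ => fmem_child u ⟨⟨a, i, s⟩, h₁.1.trans hq, h₂⟩ le_rfl,
      fun ⟨⟨b, i, s'⟩, h₁, h₂⟩ s h₃ h₄ => ?_⟩
    obtain rfl : a = b := anti a b s.c (h₃.1.trans hq) (h₄.1.trans h₁)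
    exact fmem_child (y a) i (h₄.trans h₂)
  have hu : Fix k u := fix_of fun σ hσ ⟨⟨a, i, s⟩, h₁, h₂⟩ =>
    fmem_right (fmem_right (fmem_vadd σ (fmem_child (y a) i h₂)) ((hf a σ hσ).mono le_top))
      (key a _ h₁)
  exact ⟨u, hs_mk hu fun x => (hs _).child _, key⟩

/-- One stage of the transfinite construction. -/
theorem stage (Cand : Tr → Prop) (hC : ∀ t, Cand t → HS t.y) :
    ∃ (A : Set Tr) (u : ℕ → Nm), (∀ n, HS (u n)) ∧ Small.{0} A ∧ (∀ t ∈ A, Cand t) ∧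
      (A.Pairwise fun t t' => ∀ d, d ≤ t.r.c → ¬ d ≤ t'.r.c) ∧
      (∀ t, Cand t → ∃ t' ∈ A, ∃ d, d ≤ t.r.c ∧ d ≤ t'.r.c) ∧
      ∀ t ∈ A, ∃ n, FEq t.y (u n) t.r := by
  obtain ⟨A, ⟨h₁, h₂⟩, hmax⟩ := zorn_subset
    {A : Set Tr | (∀ t ∈ A, Cand t) ∧ A.Pairwise fun t t' => ∀ d, d ≤ t.r.c → ¬ d ≤ t'.r.c} (by
      intro c hc hch
      refine ⟨⋃₀ c, ⟨fun t ⟨A, hA, ht⟩ => (hc hA).1 t ht, ?_⟩,
        fun s hs => Set.subset_sUnion_of_mem hs⟩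
      rintro t ⟨A, hA, ht⟩ t' ⟨A', hA', ht'⟩ hne
      rcases hch.total hA hA' with h | h
      exacts [(hc hA').2 (h ht) ht' hne, (hc hA).2 ht (h ht') hne])
  have hinj : ∀ t ∈ A, ∀ t' ∈ A, ∀ d, d ≤ t.r.c → d ≤ t'.r.c → t = t' :=
    fun t ht t' ht' d a b => by_contra fun h => h₂ ht ht' h d a b
  have hsm : Small.{0} A := small_of_injective (f := fun t : A => t.1.r.c) fun t t' e =>
    Subtype.ext (hinj _ t.2 _ t'.2 _ le_rfl (le_of_eq e))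
  let tt : Shrink.{0} A → Tr := fun a => ((equivShrink A).symm a).1
  have htt : ∀ a, tt a ∈ A := fun a => ((equivShrink A).symm a).2
  have hmix : ∀ k, ∃ u, HS u ∧ ∀ (a : {a // Fix k (tt a).y}) (q : Q), q.c ≤ (tt a.1).r.c →
      FEq (tt a.1).y u q := fun k =>
    exists_mix (fun a : {a // Fix k (tt a).y} => (tt a.1).r.c) (fun a => (tt a.1).y) k
      (fun a => hC _ (h₁ _ (htt _))) (fun a => a.2) fun a b d h h' =>
      Subtype.ext ((equivShrink A).symm.injective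
        (Subtype.ext (hinj _ (htt _) _ (htt _) d h h')))
  choose u hu hu' using hmix
  refine ⟨A, u, hu, hsm, h₁, h₂, fun t ht => ?_, fun t ht => ?_⟩
  · by_contra h
    push Not at h
    have : insert t A ⊆ A := hmax (y := insert t A) ⟨?_, Set.pairwise_insert.2 ⟨h₂, fun t' ht' _ =>
      ⟨fun d a b => h t' ht' d a b, fun d a b => h t' ht' d b a⟩⟩⟩ (Set.subset_insert _ _)
    · exact h t (this (Or.inl rfl)) _ le_rfl le_rfl
    · rintro t' (rfl | ht')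
      exacts [ht, h₁ t' ht']
  · obtain ⟨k, hk⟩ := (hC t (h₁ t ht)).fix
    have e : tt (equivShrink A ⟨t, ht⟩) = t := by simp [tt]
    have := hu' k ⟨equivShrink A ⟨t, ht⟩, by rwa [e]⟩ t.r (by simp only [e]; exact le_rfl)
    simp only [e] at this
    exact ⟨k, this⟩

theorem out_unc {j : ℕ} {ι : Type} {Good : ι → Tr → Prop} {q : Q} {κ : Cardinal.{0}}
    (hκ : ℵ₀ < κ) (hι : #ι ≤ κ) (hG : ∀ i t, Good i t → HS t.y)
    (sup : ∀ q' ≤ q, ∀ (K : Type) (U : K → Nm), #K < κ → (∀ k, HS (U k)) →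
      ∀ i, ∃ t, t.r ≤ q' ∧ Good i t ∧ ∀ k, Fresh j (U k) t) : Out j Good q κ := by
  classical
  have hZ : #(ι × W) ≤ κ := by
    rw [mk_prod, lift_id, lift_id, mk_W]
    have h₁ : aleph 1 ≤ κ := by
      rw [← succ_aleph0]; exact Order.succ_le_of_lt hκ
    exact (mul_le_mul' hι h₁).trans (mul_eq_self hκ.le).le
  obtain ⟨f⟩ : Nonempty (ι × W ↪ κ.ord.ToType) := by
    rw [← le_def, mk_ord_toType]; exact hZ
  let R : ι × W → ι × W → Prop := fun a b => f a < f b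
  have wf : WellFounded R := InvImage.wf f wellFounded_lt
  have hlt : ∀ z, #({z' // R z' z} × ℕ) < κ := by
    intro z
    rw [mk_prod, lift_id, lift_id, mk_nat]
    refine mul_lt_of_lt hκ.le ?_ hκ
    refine lt_of_le_of_lt (mk_le_of_injective (f := fun a : {z' // R z' z} =>
      (⟨f a.1, a.2⟩ : Set.Iio (f z))) fun a b e => ?_) (mk_Iio_toType_ord_lt _)
    exact Subtype.ext (f.injective (congrArg Subtype.val e))
  let Cand : ∀ z : ι × W, ({z' // R z' z} → ℕ → Nm) → Tr → Prop := fun z prev t =>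
    Good z.1 t ∧ (∀ z' n, Fresh j (prev z' n) t) ∧ ∃ p, t.r.c.f z.2 = some p ∧ t.r.p ≤ p
  choose A u h₁ h₂ h₃ h₄ h₅ h₆ using fun z prev => stage (Cand z prev) fun t h => hG _ _ h.1
  let F : ι × W → ℕ → Nm := wf.fix fun z prev => u z fun z' => prev z'.1 z'.2
  have hF : ∀ z, F z = u z fun z' => F z'.1 := fun z => wf.fix_eq _ z
  let B : ι × W → Set Tr := fun z => A z fun z' => F z'.1
  have hFs : ∀ z n, HS (F z n) := fun z n => by rw [hF]; exact h₁ _ _ _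
  have hcov : ∀ z, ∀ t ∈ B z, ∃ n, FEq t.y (F z n) t.r := fun z t ht => by
    rw [hF]; exact h₆ _ _ t ht
  have hlt' : ∀ z z', R z z' → ∀ t ∈ B z, ∀ t' ∈ B z', Sep j t t' := by
    intro z z' h t ht t' ht'
    obtain ⟨n, hn⟩ := hcov z t ht
    exact ((h₃ _ _ t' ht').2.1 ⟨z, h⟩ n).sep hn
  refine ⟨⋃ z, B z, ?_, fun t ht => ?_, fun t ht t' ht' hne => ?_, fun i q' hq' => ?_,
    (ι × W) × ℕ, fun x => F x.1 x.2, ?_, fun x => hFs _ _, fun t ht => ?_⟩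
  · have : ∀ z, Small.{0} (B z) := fun z => h₂ _ _
    exact small_iUnion B
  · obtain ⟨z, hz⟩ := Set.mem_iUnion.1 ht
    exact ⟨z.1, (h₃ _ _ t hz).1⟩
  · obtain ⟨z, hz⟩ := Set.mem_iUnion.1 ht
    obtain ⟨z', hz'⟩ := Set.mem_iUnion.1 ht'
    rcases lt_trichotomy (f z) (f z') with h | h | h
    · exact hlt' z z' h t hz t' hz'
    · obtain rfl := f.injective h
      exact fun σ _ s a b _ => h₄ _ _ hz hz' hne s.c a.1 b.1
    · exact (hlt' z' z h t' hz' t hz).symm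
  · obtain ⟨ξ, d, hd, hξ⟩ := q'.c.exists_ext q'.p
    have hle : (⟨d, q'.p⟩ : Q) ≤ q' := ⟨hd, le_rfl⟩
    obtain ⟨t, t₁, t₂, t₃⟩ := sup _ (hle.trans hq') _
      (fun x : {z' // R z' (i, ξ)} × ℕ => F x.1.1 x.2) (hlt (i, ξ)) (fun x => hFs _ _) i
    obtain ⟨t', a₁, d', a₂, a₃⟩ := h₅ (i, ξ) (fun z' => F z'.1) t
      ⟨t₂, fun z' n => t₃ (z', n), q'.p, t₁.1 _ _ hξ, t₁.2⟩
    obtain ⟨b₁, -, p, b₂, b₃⟩ := h₃ _ _ t' a₁
    have e : p = q'.p := by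
      have e₁ := a₃ _ _ b₂
      have e₂ := a₂ _ _ (t₁.1 _ _ hξ)
      exact Option.some.inj (e₁.symm.trans e₂)
    exact ⟨t', Set.mem_iUnion.2 ⟨_, a₁⟩, b₁, ⟨d', t'.r.p⟩,
      ⟨a₂.trans (t₁.1.trans hd), e ▸ b₃⟩, a₃, le_rfl⟩
  · rw [mk_prod, lift_id, lift_id, mk_nat]
    exact (mul_le_mul' hZ hκ.le).trans (mul_eq_self hκ.le).le
  · obtain ⟨z, hz⟩ := Set.mem_iUnion.1 ht
    obtain ⟨n, hn⟩ := hcov z t hz
    exact ⟨(z, n), hn⟩

end Pool.Agent.MP_a078ad_lc
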