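import Mathlib

namespace Pool.Agent.MP_a078ad_lc

open Set

/-- Coordinates; the first component is the type of the coordinate. -/
abbrev I : Type := ℕ × ℕ

/-- The group of finite flips. -/
abbrev Gam : Type := I →₀ ZMod 2

theorem two_self (a : ZMod 2) : a + a = 0 := CharTwo.add_self_eq_zero a

theorem two_eq {a b : ZMod 2} (ha : a ≠ 0) (hb : b ≠ 0) : a = b := by
  revert a b; decide

theorem gam_self (a : Gam) : a + a = 0 := by
  ext i; simp [two_self]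

/-- Flips of coordinates of type at least `k`. -/
def InH (k : ℕ) (σ : Gam) : Prop := ∀ i, σ i ≠ 0 → k ≤ i.1

theorem InH.zero (k : ℕ) : InH k 0 := fun i h => by simp at h

theorem InH.add {k : ℕ} {σ τ : Gam} (h₁ : InH k σ) (h₂ : InH k τ) : InH k (σ + τ) := by
  intro i h
  by_cases h' : σ i = 0
  · exact h₂ i (by simpa [h'] using h)
  · exact h₁ i h'

theorem InH.mono {k l : ℕ} {σ : Gam} (h : InH l σ) (hkl : k ≤ l) : InH k σ :=
  fun i hi => hkl.trans (h i hi)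

theorem inH_zero (σ : Gam) : InH 0 σ := fun _ _ => Nat.zero_le _

theorem InH.of_add {k : ℕ} {σ τ : Gam} (h₁ : InH k (σ + τ)) (h₂ : InH k τ) : InH k σ := by
  have := h₁.add h₂
  rwa [add_assoc, gam_self, add_zero] at this

/-- A base point and a family of disjoint finite blocks, infinitely many of each type. -/
structure P where
  x : I → ZMod 2
  b : I → Gam
  disj : ∀ m n i, b m i ≠ 0 → b n i ≠ 0 → m = n
  inH : ∀ n, InH n.1 (b n)
  notH : ∀ n, ¬ InH (n.1 + 1) (b n)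

namespace P

/-- `d` is the indicator of a union of blocks. -/
def Sat (p : P) (d : I → ZMod 2) : Prop :=
  (∀ i, d i ≠ 0 → ∃ n, p.b n i ≠ 0) ∧ ∀ n i j, p.b n i ≠ 0 → p.b n j ≠ 0 → d i = d j

theorem sat_zero (p : P) : p.Sat 0 := ⟨fun i h => by simp at h, fun _ _ _ _ _ => rfl⟩

theorem Sat.add {p : P} {d e : I → ZMod 2} (h₁ : p.Sat d) (h₂ : p.Sat e) : p.Sat (d + e) := by
  refine ⟨fun i h => ?_, fun n i j hi hj => ?_⟩
  · by_cases h' : d i = 0
    · exact h₂.1 i (by simpa [h'] using h)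
    · exact h₁.1 i h'
  · simp only [Pi.add_apply, h₁.2 n i j hi hj, h₂.2 n i j hi hj]

theorem sat_b (p : P) (n : I) : p.Sat (p.b n) := by
  refine ⟨fun i h => ⟨n, h⟩, fun m i j hi hj => ?_⟩
  by_cases h : m = n
  · subst h; exact two_eq hi hj
  · have h₁ : p.b n i = 0 := by_contra fun h' => h (p.disj _ _ _ hi h')
    have h₂ : p.b n j = 0 := by_contra fun h' => h (p.disj _ _ _ hj h')
    rw [h₁, h₂]

theorem Sat.trans' {p q : P} {d : I → ZMod 2} (h : q.Sat d)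
    (H : ∀ n i, d i ≠ 0 → q.b n i ≠ 0 → p.Sat (q.b n)) : p.Sat d := by
  refine ⟨fun i hi => ?_, fun m i j hi hj => ?_⟩
  · obtain ⟨n, hn⟩ := h.1 i hi
    exact (H n i hi hn).1 i hn
  · have key : ∀ i j, p.b m i ≠ 0 → p.b m j ≠ 0 → d i ≠ 0 → d i = d j := by
      intro i j hi hj hd
      obtain ⟨n, hn⟩ := h.1 i hd
      exact h.2 n i j hn ((H n i hd hn).2 m i j hi hj ▸ hn)
    by_cases h₁ : d i = 0
    · by_cases h₂ : d j = 0
      · rw [h₁, h₂]
      · exact (key j i hj hi h₂).symm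
    · exact key i j hi hj h₁

theorem pi_self (d : I → ZMod 2) : d + d = 0 := by
  funext i; exact two_self _

instance : Preorder P where
  le q p := p.Sat (q.x + p.x) ∧ ∀ n, p.Sat (q.b n)
  le_refl p := ⟨by rw [pi_self]; exact p.sat_zero, p.sat_b⟩
  le_trans r q p h₁ h₂ := by
    refine ⟨?_, fun n => (h₁.2 n).trans' fun m _ _ _ => h₂.2 m⟩
    have := (h₁.1.trans' fun m _ _ _ => h₂.2 m).add h₂.1
    rwa [add_assoc, ← add_assoc q.x, pi_self, zero_add] at this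

theorem le_def {q p : P} : q ≤ p ↔ p.Sat (q.x + p.x) ∧ ∀ n, p.Sat (q.b n) := Iff.rfl

theorem Sat.of_le {p q : P} {d : I → ZMod 2} (h : q.Sat d) (hq : q ≤ p) : p.Sat d :=
  h.trans' fun m _ _ _ => hq.2 m

noncomputable def top : P where
  x := 0
  b n := Finsupp.single n 1
  disj m n i h₁ h₂ := by
    rw [Finsupp.single_apply_ne_zero] at h₁ h₂
    rw [← h₁.1, ← h₂.1]
  inH n i h := by
    rw [Finsupp.single_apply_ne_zero] at h
    rw [h.1]
  notH n h := by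
    have := h n (by simp)
    omega

theorem top_sat (d : I → ZMod 2) : top.Sat d := by
  refine ⟨fun i _ => ⟨i, by simp [top]⟩, fun n i j hi hj => ?_⟩
  simp only [top] at hi hj
  rw [Finsupp.single_apply_ne_zero] at hi hj
  rw [hi.1, hj.1]

noncomputable instance : OrderTop P where
  top := top
  le_top _ := ⟨top_sat _, fun _ => top_sat _⟩

def shift (σ : Gam) (p : P) : P := { p with x := p.x + σ }

theorem shift_sat {σ : Gam} {p : P} {d : I → ZMod 2} : (shift σ p).Sat d ↔ p.Sat d := Iff.rfl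

theorem shift_mono (σ : Gam) {p q : P} (h : q ≤ p) : shift σ q ≤ shift σ p := by
  refine ⟨?_, h.2⟩
  have : (shift σ q).x + (shift σ p).x = q.x + p.x := by
    funext i
    simp only [shift, Pi.add_apply]
    linear_combination two_self (σ i)
  rw [this]
  exact h.1

theorem shift_le_iff {σ : Gam} {p : P} : shift σ p ≤ p ↔ p.Sat σ := by
  have : (shift σ p).x + p.x = σ := by
    funext i
    simp only [shift, Pi.add_apply]
    linear_combination two_self (p.x i)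
  rw [le_def, this]
  exact ⟨fun h => h.1, fun h => ⟨h, p.sat_b⟩⟩

/-- The coordinate `i` is decided. -/
def Dec (p : P) (i : I) : Prop := ∀ n, p.b n i = 0

theorem Dec.sat {p : P} {i : I} (h : p.Dec i) {d : I → ZMod 2} (hd : p.Sat d) : d i = 0 := by
  by_contra h'
  obtain ⟨n, hn⟩ := hd.1 i h'
  exact hn (h n)

theorem Dec.mono {p q : P} {i : I} (h : p.Dec i) (hq : q ≤ p) : q.Dec i :=
  fun n => h.sat (hq.2 n)

theorem Dec.x_eq {p q : P} {i : I} (h : p.Dec i) (hq : q ≤ p) : q.x i = p.x i := by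
  have := h.sat hq.1
  simp only [Pi.add_apply] at this
  linear_combination this - two_self (p.x i)

theorem exists_dec (p : P) (T : Finset I) : ∃ q ≤ p, ∀ i ∈ T, q.Dec i := by
  classical
  have h : ∀ i, ∃ N, ∀ n, p.b n i ≠ 0 → n.2 < N := by
    intro i
    by_cases h : ∃ n, p.b n i ≠ 0
    · obtain ⟨n, hn⟩ := h
      exact ⟨n.2 + 1, fun m hm => by rw [p.disj _ _ _ hm hn]; omega⟩
    · exact ⟨0, fun m hm => absurd ⟨m, hm⟩ h⟩
  choose N hN using h
  let M := T.sup N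
  refine ⟨⟨p.x, fun n => p.b (n.1, n.2 + M), fun m n i h₁ h₂ => ?_, fun n => p.inH _,
    fun n => p.notH _⟩, ⟨?_, fun n => p.sat_b _⟩, fun i hi n => ?_⟩
  · have := p.disj _ _ _ h₁ h₂
    simp only [Prod.mk.injEq] at this
    exact Prod.ext this.1 (by omega)
  · show p.Sat (p.x + p.x)
    rw [pi_self]; exact p.sat_zero
  · by_contra h
    have h₁ := hN i _ h
    have h₂ : N i ≤ M := Finset.le_sup hi
    simp only at h₁
    omega

end P

/-- An index set of size `ℵ₁`. -/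
def W : Type := (Cardinal.aleph 1).out

theorem mk_W : Cardinal.mk W = Cardinal.aleph 1 := Cardinal.mk_out _

instance : Uncountable W := by
  rw [← Cardinal.aleph0_lt_mk_iff, mk_W]
  exact Cardinal.aleph0_lt_aleph_one

/-- Countable partial functions. -/
structure Col where
  f : W → Option P
  cnt : {ξ | f ξ ≠ none}.Countable

instance : Preorder Col where
  le d c := ∀ ξ p, c.f ξ = some p → d.f ξ = some p
  le_refl _ _ _ h := h
  le_trans _ _ _ h₁ h₂ ξ p h := h₁ ξ p (h₂ ξ p h)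

instance : OrderTop Col where
  top := ⟨fun _ => none, by simp⟩
  le_top _ _ _ h := by cases h

theorem Col.closed (s : ℕ → Col) (hs : Antitone s) : ∃ c, ∀ n, c ≤ s n := by
  classical
  refine ⟨⟨fun ξ => if h : ∃ n, (s n).f ξ ≠ none then (s h.choose).f ξ else none, ?_⟩, ?_⟩
  · refine (countable_iUnion fun n => (s n).cnt).mono fun ξ h => ?_
    by_contra h'
    simp only [mem_iUnion, mem_ofPred_eq] at h'
    exact h (dif_neg h')
  · intro n ξ p h
    have h' : ∃ n, (s n).f ξ ≠ none := ⟨n, by simp [h]⟩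
    show (if h : ∃ n, (s n).f ξ ≠ none then (s h.choose).f ξ else none) = some p
    rw [dif_pos h']
    obtain ⟨p', hp'⟩ := Option.ne_none_iff_exists'.1 h'.choose_spec
    have h₁ := hs (le_max_left n h'.choose) ξ p h
    have h₂ := hs (le_max_right n h'.choose) ξ p' hp'
    rw [hp', ← h₁, h₂]

theorem Col.exists_ext (c : Col) (p : P) : ∃ ξ, ∃ d ≤ c, d.f ξ = some p := by
  classical
  obtain ⟨ξ, hξ⟩ : ∃ ξ, ξ ∉ {ξ | c.f ξ ≠ none} := by
    by_contra h
    push Not at h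
    exact not_countable_univ (c.cnt.mono fun ξ _ => h ξ)
  refine ⟨ξ, ⟨Function.update c.f ξ (some p), (c.cnt.insert ξ).mono fun η h => ?_⟩,
    fun η q h => ?_, by simp⟩
  · by_cases e : η = ξ
    · exact Or.inl e
    · exact Or.inr (by simpa [Function.update_of_ne e] using h)
  · have e : η ≠ ξ := by
      rintro rfl
      exact hξ (by simp [h])
    simpa [Function.update_of_ne e] using h

/-- The forcing. -/
structure Q where
  c : Col
  p : P

instance : Preorder Q where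
  le r q := r.c ≤ q.c ∧ r.p ≤ q.p
  le_refl _ := ⟨le_rfl, le_rfl⟩
  le_trans _ _ _ h₁ h₂ := ⟨h₁.1.trans h₂.1, h₁.2.trans h₂.2⟩

noncomputable instance : OrderTop Q where
  top := ⟨⊤, ⊤⟩
  le_top _ := ⟨le_top, le_top⟩

instance : AddAction Gam Q where
  vadd σ q := ⟨q.c, P.shift σ q.p⟩
  zero_vadd q := by
    show Q.mk q.c (P.shift 0 q.p) = q
    simp [P.shift]
  add_vadd σ τ q := by
    show Q.mk q.c (P.shift (σ + τ) q.p) = Q.mk q.c (P.shift σ (P.shift τ q.p))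
    simp [P.shift, add_assoc, add_comm σ τ]

@[simp] theorem vadd_c (σ : Gam) (q : Q) : (σ +ᵥ q).c = q.c := rfl
theorem vadd_p (σ : Gam) (q : Q) : (σ +ᵥ q).p = P.shift σ q.p := rfl

theorem vadd_vadd_self {α : Type*} [AddAction Gam α] (σ : Gam) (q : α) : σ +ᵥ σ +ᵥ q = q := by
  rw [← add_vadd, gam_self, zero_vadd]

theorem vadd_mono (σ : Gam) {r q : Q} (h : r ≤ q) : σ +ᵥ r ≤ σ +ᵥ q :=
  ⟨h.1, P.shift_mono σ h.2⟩

theorem vadd_le_swap {σ : Gam} {r q : Q} (h : r ≤ σ +ᵥ q) : σ +ᵥ r ≤ q := by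
  simpa only [vadd_vadd_self] using vadd_mono σ h

theorem le_vadd_swap {σ : Gam} {r q : Q} (h : σ +ᵥ r ≤ q) : r ≤ σ +ᵥ q := by
  simpa only [vadd_vadd_self] using vadd_mono σ h

theorem le_vadd_top (σ : Gam) (q : Q) : q ≤ σ +ᵥ (⊤ : Q) := le_vadd_swap le_top

/-- The stabiliser of a condition. -/
def Stab (q : Q) (σ : Gam) : Prop := q.p.Sat σ

theorem Stab.le {q : Q} {σ : Gam} (h : Stab q σ) : σ +ᵥ q ≤ q :=
  ⟨le_rfl, P.shift_le_iff.2 h⟩

theorem Stab.ge {q : Q} {σ : Gam} (h : Stab q σ) : q ≤ σ +ᵥ q := le_vadd_swap h.le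

theorem Stab.zero (q : Q) : Stab q 0 := q.p.sat_zero

theorem Stab.add {q : Q} {σ τ : Gam} (h₁ : Stab q σ) (h₂ : Stab q τ) : Stab q (σ + τ) :=
  P.Sat.add h₁ h₂

theorem Stab.of_le {q r : Q} {σ : Gam} (h : Stab r σ) (hr : r ≤ q) : Stab q σ :=
  P.Sat.of_le h hr.2

theorem stab_vadd {q : Q} {σ τ : Gam} : Stab (τ +ᵥ q) σ ↔ Stab q σ := Iff.rfl

theorem stab_of_compat {q s : Q} {σ : Gam} (h₁ : s ≤ q) (h₂ : s ≤ σ +ᵥ q) : Stab q σ := by
  have := h₁.2.1.add (P.shift_sat.1 h₂.2.1)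
  have e : s.p.x + q.p.x + (s.p.x + (σ +ᵥ q).p.x) = σ := by
    funext i
    simp only [vadd_p, P.shift, Pi.add_apply]
    linear_combination two_self (s.p.x i) + two_self (q.p.x i)
  rwa [e] at this

theorem exists_blocks (q : Q) (k : ℕ) : ∃ ρ : ℕ → Gam, (∀ u, Stab q (ρ u)) ∧ (∀ u, InH k (ρ u)) ∧
    (∀ u, ¬ InH (k + 1) (ρ u)) ∧ ∀ u v, u ≠ v → ¬ InH (k + 1) (ρ u + ρ v) := by
  refine ⟨fun u => q.p.b (k, u), fun u => q.p.sat_b _, fun u => q.p.inH (k, u),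
    fun u => q.p.notH (k, u), fun u v h h' => q.p.notH (k, u) fun i hi => h' i ?_⟩
  have : q.p.b (k, v) i = 0 := by_contra fun h'' => h (by simpa using q.p.disj _ _ _ hi h'')
  simpa [this] using hi

theorem exists_block (q : Q) (k : ℕ) : ∃ ρ, Stab q ρ ∧ InH k ρ ∧ ¬ InH (k + 1) ρ :=
  ⟨q.p.b (k, 0), q.p.sat_b _, q.p.inH (k, 0), q.p.notH (k, 0)⟩

theorem exists_dec (q : Q) (T : Finset I) : ∃ r ≤ q, ∀ i ∈ T, r.p.Dec i := by
  obtain ⟨p, hp, h⟩ := q.p.exists_dec T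
  exact ⟨⟨q.c, p⟩, ⟨le_rfl, hp⟩, h⟩

/-- Strengthening finitely many translates at once. -/
theorem exists_all_branches (D : Gam → Q → Prop) (mono : ∀ δ q r, r ≤ q → D δ q → D δ r)
    (Δ : Finset Gam) (r : Q) (dense : ∀ δ ∈ Δ, ∀ r' ≤ r, ∃ s ≤ r', D δ s) :
    ∃ s ≤ r, ∀ δ ∈ Δ, D δ s := by
  classical
  induction Δ using Finset.induction_on with
  | empty => exact ⟨r, le_rfl, by simp⟩
  | insert a Δ _ ih =>
    obtain ⟨s, hs, h⟩ := ih fun δ hδ => dense δ (Finset.mem_insert_of_mem hδ)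
    obtain ⟨t, ht, h'⟩ := dense a (Finset.mem_insert_self _ _) s hs
    refine ⟨t, ht.trans hs, fun δ hδ => ?_⟩
    rcases Finset.mem_insert.1 hδ with rfl | hδ
    exacts [h', mono _ _ _ ht (h δ hδ)]

open Classical in
/-- Adding a new block to a finite group of flips. -/
noncomputable def grow (Δ : Finset Gam) (ρ : Gam) : Finset Gam := Δ ∪ Δ.image (· + ρ)

theorem mem_grow {Δ : Finset Gam} {ρ σ : Gam} :
    σ ∈ grow Δ ρ ↔ σ ∈ Δ ∨ ∃ δ ∈ Δ, δ + ρ = σ := by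
  simp only [grow, Finset.mem_union, Finset.mem_image]

/-- The limit of a fusion sequence. -/
theorem fusion_limit (r : ℕ → Q) (hr : Antitone r) (ρ : ℕ → Gam) (hs : ∀ n, Stab (r n) (ρ n))
    (h₁ : ∀ n, InH n.unpair.1 (ρ n)) (h₂ : ∀ n, ¬ InH (n.unpair.1 + 1) (ρ n))
    (hd : ∀ n i, ρ n i ≠ 0 → (r (n + 1)).p.Dec i) (hd' : ∀ n, (r (n + 1)).p.Dec n.unpair)
    (Δ : ℕ → Finset Gam) (h0 : Δ 0 = {0}) (hΔ : ∀ n, Δ (n + 1) = grow (Δ n) (ρ n)) :
    ∃ q ≤ r 0, (∀ σ, Stab q σ → ∃ n, σ ∈ Δ n) ∧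
      ∀ n s, s ≤ q → ∃ s' ≤ s, ∃ δ ∈ Δ n, s' ≤ δ +ᵥ r n := by
  classical
  obtain ⟨c, hc⟩ := Col.closed (fun n => (r n).c) fun m n h => (hr h).1
  have hsat : ∀ n m, n ≤ m → (r n).p.Sat (ρ m) := fun n m h => (hs m).of_le (hr h)
  have hdisj : ∀ m n i, ρ m i ≠ 0 → ρ n i ≠ 0 → m = n := by
    have key : ∀ m n i, ρ m i ≠ 0 → ρ n i ≠ 0 → ¬ m < n := fun m n i hm hn h =>
      hn ((hd m i hm).sat (hsat (m + 1) n h))
    intro m n i hm hn
    have := key m n i hm hn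
    have := key n m i hn hm
    omega
  let p : P := ⟨fun i => (r (Nat.pair i.1 i.2 + 1)).p.x i, fun n => ρ (Nat.pair n.1 n.2),
    fun m n i hm hn => by
      have := hdisj _ _ i hm hn
      rw [Nat.pair_eq_pair] at this
      exact Prod.ext this.1 this.2,
    fun n => by simpa using h₁ (Nat.pair n.1 n.2), fun n => by simpa using h₂ (Nat.pair n.1 n.2)⟩
  have hx : ∀ i N, Nat.pair i.1 i.2 + 1 ≤ N → (r N).p.x i = p.x i := fun i N h =>
    (show (r (Nat.pair i.1 i.2 + 1)).p.Dec i by simpa using hd' (Nat.pair i.1 i.2)).x_eq (hr h).2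
  have hxs : ∀ n, (r n).p.Sat (p.x + (r n).p.x) := by
    intro n
    refine ⟨fun i hi => ?_, fun m i j hi hj => ?_⟩
    · refine (hr (le_max_left n (Nat.pair i.1 i.2 + 1))).2.1.1 i ?_
      simpa only [Pi.add_apply, hx i _ (le_max_right _ _)] using hi
    · have := (hr (le_max_left n (max (Nat.pair i.1 i.2 + 1) (Nat.pair j.1 j.2 + 1)))).2.1.2
        m i j hi hj
      simpa only [Pi.add_apply, hx i _ (le_max_of_le_right (le_max_left _ _)),
        hx j _ (le_max_of_le_right (le_max_right _ _))] using this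
  have hb : ∀ m, p.b m.unpair = ρ m := fun m => by simp [p]
  have htail : ∀ n d, p.Sat d → (∀ m < n, ∀ i, ρ m i ≠ 0 → d i = 0) → (r n).p.Sat d := by
    intro n d hd hv
    refine hd.trans' fun m i hi hm => hsat _ _ ?_
    by_contra h
    exact hi (hv _ (not_le.1 h) i hm)
  have hdec : ∀ d, p.Sat d → ∀ n, ∃ δ ∈ Δ n, p.Sat δ ∧ (∀ i, δ i ≠ 0 → ∃ m < n, ρ m i ≠ 0) ∧
      ∀ m < n, ∀ i, ρ m i ≠ 0 → d i = δ i := by
    intro d hd n
    induction n with
    | zero => exact ⟨0, by simp [h0], p.sat_zero, by simp, by simp⟩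
    | succ n ih =>
      obtain ⟨δ, hδ, s₁, s₂, s₃⟩ := ih
      have hz : ∀ i, ρ n i ≠ 0 → δ i = 0 := fun i hi => by
        by_contra h
        obtain ⟨m, hm, h'⟩ := s₂ i h
        exact hm.ne (hdisj _ _ i h' hi)
      by_cases h : ∃ i, ρ n i ≠ 0 ∧ d i ≠ 0
      · obtain ⟨i₀, hi₀, hd₀⟩ := h
        refine ⟨δ + ρ n, by rw [hΔ, mem_grow]; exact Or.inr ⟨δ, hδ, rfl⟩, ?_, fun i hi => ?_,
          fun m hm i hi => ?_⟩
        · exact s₁.add (hb n ▸ p.sat_b _)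
        · by_cases h' : δ i = 0
          · exact ⟨n, Nat.lt_succ_self _, by simpa [h'] using hi⟩
          · obtain ⟨m, hm, h''⟩ := s₂ i h'
            exact ⟨m, Nat.lt_succ_of_lt hm, h''⟩
        · rcases Nat.lt_succ_iff_lt_or_eq.1 hm with hm | rfl
          · have : ρ n i = 0 := by_contra fun h' => hm.ne (hdisj _ _ i hi h')
            simp [this, s₃ m hm i hi]
          · have e : d i = d i₀ := hd.2 m.unpair i i₀ (by rwa [hb]) (by rwa [hb])
            simp only [Finsupp.add_apply, hz i hi, zero_add]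
            exact two_eq (e ▸ hd₀) hi
      · push Not at h
        refine ⟨δ, by rw [hΔ, mem_grow]; exact Or.inl hδ, s₁, fun i hi => ?_,
          fun m hm i hi => ?_⟩
        · obtain ⟨m, hm, h''⟩ := s₂ i hi
          exact ⟨m, Nat.lt_succ_of_lt hm, h''⟩
        · rcases Nat.lt_succ_iff_lt_or_eq.1 hm with hm | rfl
          · exact s₃ m hm i hi
          · rw [h i hi, hz i hi]
  refine ⟨⟨c, p⟩, ⟨hc 0, hxs 0, fun n => hsat 0 _ (Nat.zero_le _)⟩, fun σ hσ => ?_,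
    fun n s hs => ?_⟩
  · have : ∀ i, ∃ N, ∀ m, ρ m i ≠ 0 → m < N := by
      intro i
      by_cases h : ∃ m, ρ m i ≠ 0
      · obtain ⟨m, hm⟩ := h
        exact ⟨m + 1, fun m' hm' => by rw [hdisj _ _ _ hm' hm]; omega⟩
      · exact ⟨0, fun m hm => absurd ⟨m, hm⟩ h⟩
    choose N hN using this
    obtain ⟨δ, hδ, -, s₂, s₃⟩ := hdec σ hσ (σ.support.sup N)
    suffices e : σ = δ from ⟨σ.support.sup N, by rw [e] at hδ ⊢; exact hδ⟩
    ext i
    by_cases h : σ i = 0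
    · by_cases h' : δ i = 0
      · rw [h, h']
      · obtain ⟨m, hm, h''⟩ := s₂ i h'
        exact s₃ m hm i h''
    · obtain ⟨m, hm⟩ := hσ.1 i h
      exact s₃ _ ((hN i _ hm).trans_le (Finset.le_sup (f := N) (Finsupp.mem_support_iff.2 h)))
        i hm
  · obtain ⟨s', hs', hT⟩ := exists_dec s ((Finset.range n).biUnion fun m => (ρ m).support)
    have hT' : ∀ m < n, ∀ i, ρ m i ≠ 0 → s'.p.Dec i := fun m hm i hi =>
      hT i (Finset.mem_biUnion.2 ⟨m, Finset.mem_range.2 hm, Finsupp.mem_support_iff.2 hi⟩)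
    have hle := hs'.trans hs
    obtain ⟨δ, hδ, s₁, -, s₃⟩ := hdec _ hle.2.1 n
    refine ⟨s', hs', δ, hδ, hle.1.trans (hc n), ?_, fun m => ?_⟩
    · have := (htail n _ (hle.2.1.add s₁) fun m hm i hi => by
        rw [Pi.add_apply, s₃ m hm i hi]; exact two_self _).add (hxs n)
      have e : s'.p.x + (δ +ᵥ r n).p.x = s'.p.x + p.x + δ + (p.x + (r n).p.x) := by
        funext i
        simp only [vadd_p, P.shift, Pi.add_apply]
        linear_combination - two_self (p.x i)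
      rw [e]
      exact this
    · exact htail n _ (hle.2.2 m) fun m' hm' i hi => hT' m' hm' i hi m

/-- The fusion principle. -/
theorem fusion {St : Type*} (Inv : ℕ → Finset Gam → Q → St → Prop) (Rel : St → St → Prop)
    (mono : ∀ n Δ r r' a, r' ≤ r → Inv n Δ r a → Inv n Δ r' a)
    (step : ∀ n Δ r a k, Inv n Δ r a → ∃ ρ, Stab r ρ ∧ InH k ρ ∧ ¬ InH (k + 1) ρ ∧
      ∃ r' ≤ r, ∃ a', Inv (n + 1) (grow Δ ρ) r' a' ∧ Rel a a')
    (r₀ : Q) (a₀ : St) (h₀ : Inv 0 {0} r₀ a₀) :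
    ∃ q ≤ r₀, ∃ (Δ : ℕ → Finset Gam) (r : ℕ → Q) (a : ℕ → St),
      (∀ n, Inv n (Δ n) (r n) (a n)) ∧ (∀ n, Rel (a n) (a (n + 1))) ∧ Monotone Δ ∧
      (∀ n, ∀ δ ∈ Δ n, ∀ δ' ∈ Δ n, δ + δ' ∈ Δ n) ∧ (∀ σ, Stab q σ → ∃ n, σ ∈ Δ n) ∧
      ∀ n s, s ≤ q → ∃ s' ≤ s, ∃ δ ∈ Δ n, s' ≤ δ +ᵥ r n := by
  classical
  have step' : ∀ n (z : {z : Finset Gam × Q × St // Inv n z.1 z.2.1 z.2.2}),
      ∃ (ρ : Gam) (z' : {z : Finset Gam × Q × St // Inv (n + 1) z.1 z.2.1 z.2.2}),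
      Stab z.1.2.1 ρ ∧ InH n.unpair.1 ρ ∧ ¬ InH (n.unpair.1 + 1) ρ ∧ z'.1.2.1 ≤ z.1.2.1 ∧
      z'.1.1 = grow z.1.1 ρ ∧ Rel z.1.2.2 z'.1.2.2 ∧ (∀ i, ρ i ≠ 0 → z'.1.2.1.p.Dec i) ∧
      z'.1.2.1.p.Dec n.unpair := by
    rintro n ⟨⟨Δ, r, a⟩, h⟩
    obtain ⟨ρ, h₁, h₂, h₃, r', hr', a', h₄, h₅⟩ := step n Δ r a n.unpair.1 h
    obtain ⟨r'', hr'', hT⟩ := exists_dec r' (insert n.unpair ρ.support)
    exact ⟨ρ, ⟨⟨grow Δ ρ, r'', a'⟩, mono _ _ _ _ _ hr'' h₄⟩, h₁, h₂, h₃, hr''.trans hr', rfl, h₅,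
      fun i hi => hT i (Finset.mem_insert_of_mem (Finsupp.mem_support_iff.2 hi)),
      hT _ (Finset.mem_insert_self _ _)⟩
  choose ρ nx h₁ h₂ h₃ h₄ h₅ h₆ h₇ h₈ using step'
  let z : ∀ n, {z : Finset Gam × Q × St // Inv n z.1 z.2.1 z.2.2} :=
    fun n => Nat.rec ⟨({0}, r₀, a₀), h₀⟩ nx n
  have hz : ∀ n, z (n + 1) = nx n (z n) := fun n => rfl
  obtain ⟨q, hq, H₁, H₂⟩ := fusion_limit (fun n => (z n).1.2.1)
    (antitone_nat_of_succ_le fun n => h₄ n (z n)) (fun n => ρ n (z n)) (fun n => h₁ n _)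
    (fun n => h₂ n _) (fun n => h₃ n _) (fun n => h₇ n _) (fun n => h₈ n _) (fun n => (z n).1.1)
    rfl (fun n => h₅ n _)
  refine ⟨q, hq, fun n => (z n).1.1, fun n => (z n).1.2.1, fun n => (z n).1.2.2,
    fun n => (z n).2, fun n => h₆ n _, monotone_nat_of_le_succ fun n => ?_, fun n => ?_, H₁, H₂⟩
  · intro δ hδ
    rw [hz, h₅, mem_grow]
    exact Or.inl hδ
  · induction n with
    | zero =>
      intro δ hδ δ' hδ'
      have e₁ : δ = 0 := Finset.mem_singleton.1 hδ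
      have e₂ : δ' = 0 := Finset.mem_singleton.1 hδ'
      exact Finset.mem_singleton.2 (by rw [e₁, e₂, add_zero])
    | succ n ih =>
      intro δ hδ δ' hδ'
      simp only [hz, h₅, mem_grow] at hδ hδ' ⊢
      rcases hδ with hδ | ⟨δ, hδ, rfl⟩ <;> rcases hδ' with hδ' | ⟨δ', hδ', rfl⟩
      · exact Or.inl (ih _ hδ _ hδ')
      · exact Or.inr ⟨_, ih _ hδ _ hδ', add_assoc _ _ _⟩
      · exact Or.inr ⟨_, ih _ hδ _ hδ', by abel⟩
      · refine Or.inl ?_
        have : δ + ρ n (z n) + (δ' + ρ n (z n)) = δ + δ' + (ρ n (z n) + ρ n (z n)) := by abel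
        rw [this, gam_self, add_zero]
        exact ih _ hδ _ hδ'

end Pool.Agent.MP_a078ad_lc
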