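import Pool.Agent.MP_c6cf52_lc.Names
import Pool.Agent.MP_a078ad_lc.Poset

namespace Pool.Agent.MP_a078ad_lc

open Pool.Agent.MP_c6cf52_lc Pool.Agent.MP_c6cf52_lc.Name

abbrev Nm : Type 1 := Name Q

def nact (σ : Gam) : Nm → Nm
  | .mk ι A B => .mk ι (fun i => nact σ (A i)) (fun i => σ +ᵥ B i)

instance : AddAction Gam Nm where
  vadd := nact
  zero_vadd τ := by
    show nact 0 τ = τ
    induction τ with
    | mk ι A B ih => simp only [nact, ih, zero_vadd]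
  add_vadd σ ρ τ := by
    show nact (σ + ρ) τ = nact σ (nact ρ τ)
    induction τ with
    | mk ι A B ih => simp only [nact, ih, add_vadd]

theorem vadd_eq (σ : Gam) (τ : Nm) :
    σ +ᵥ τ = .mk τ.I (fun i => σ +ᵥ τ.A i) (fun i => σ +ᵥ τ.B i) := by
  cases τ; rfl

theorem vadd_swap (σ ρ : Gam) (τ : Nm) : σ +ᵥ ρ +ᵥ τ = ρ +ᵥ σ +ᵥ τ := by
  rw [← add_vadd, ← add_vadd, add_comm]

theorem feq_refl : ∀ (τ : Nm) (p : Q), FEq τ τ p := by
  intro τ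
  induction τ using Name.ind with
  | h τ ih =>
    intro p
    rw [feq_def]
    exact ⟨fun i q _ h => ⟨q, le_rfl, i, h, ih i q⟩, fun i q _ h => ⟨q, le_rfl, i, h, ih i q⟩⟩

theorem feq_trans : ∀ {a b c : Nm} {p : Q}, FEq a b p → FEq b c p → FEq a c p := by
  intro a
  induction a using Name.ind with
  | h a ih =>
    intro b c p h₁ h₂
    rw [feq_def] at h₁ h₂ ⊢
    refine ⟨fun i q hq hi => ?_, fun k q hq hk => ?_⟩
    · obtain ⟨r, hr, j, hj, e⟩ := h₁.1 i q hq hi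
      obtain ⟨s, hs, k, hk, e'⟩ := h₂.1 j r (hr.trans hq) hj
      exact ⟨s, hs.trans hr, k, hk, ih i (e.mono hs) e'⟩
    · obtain ⟨r, hr, j, hj, e⟩ := h₂.2 k q hq hk
      obtain ⟨s, hs, i, hi, e'⟩ := h₁.2 j r (hr.trans hq) hj
      exact ⟨s, hs.trans hr, i, hi, ih i e' (e.mono hs)⟩

theorem feq_vadd (σ : Gam) : ∀ {a b : Nm} {p : Q}, FEq a b p →
    FEq (σ +ᵥ a) (σ +ᵥ b) (σ +ᵥ p) := by
  intro a
  induction a using Name.ind with
  | h a ih =>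
    intro b p h
    rw [feq_def] at h
    rw [vadd_eq σ a, vadd_eq σ b, feq_def]
    refine ⟨fun i q hq hi => ?_, fun j q hq hj => ?_⟩
    · obtain ⟨r, hr, j, hj, e⟩ := h.1 i (σ +ᵥ q) (vadd_le_swap hq) (vadd_le_swap hi)
      exact ⟨σ +ᵥ r, vadd_le_swap hr, j, vadd_mono σ hj, ih i e⟩
    · obtain ⟨r, hr, i, hi, e⟩ := h.2 j (σ +ᵥ q) (vadd_le_swap hq) (vadd_le_swap hj)
      exact ⟨σ +ᵥ r, vadd_le_swap hr, i, vadd_mono σ hi, ih i e⟩

theorem feq_vadd_top (σ : Gam) {a b : Nm} (h : FEq a b ⊤) (p : Q) : FEq (σ +ᵥ a) (σ +ᵥ b) p :=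
  (feq_vadd σ h).mono (le_vadd_top σ p)

theorem fmem_vadd (σ : Gam) {a b : Nm} {p : Q} (h : FMem a b p) :
    FMem (σ +ᵥ a) (σ +ᵥ b) (σ +ᵥ p) := by
  rw [vadd_eq σ b]
  intro q hq
  obtain ⟨r, hr, j, hj, e⟩ := h (σ +ᵥ q) (vadd_le_swap hq)
  exact ⟨σ +ᵥ r, vadd_le_swap hr, j, vadd_mono σ hj, feq_vadd σ e⟩

theorem fmem_left {a a' b : Nm} {p : Q} (e : FEq a' a p) (h : FMem a b p) : FMem a' b p := by
  intro q hq
  obtain ⟨r, hr, j, hj, e'⟩ := h q hq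
  exact ⟨r, hr, j, hj, feq_trans (e.mono (hr.trans hq)) e'⟩

theorem fmem_right {a b b' : Nm} {p : Q} (h : FMem a b p) (e : FEq b b' p) : FMem a b' p := by
  refine FMem.reg fun q hq => ?_
  obtain ⟨r, hr, j, hj, e'⟩ := h q hq
  exact ⟨r, hr, fmem_left e' (((feq_iff _ _ _).1 e).1 j r (hr.trans hq) hj)⟩

theorem fmem_child (τ : Nm) (i : τ.I) {p : Q} (h : p ≤ τ.B i) : FMem (τ.A i) τ p :=
  FMem.of_feq h (feq_refl _ _)

/-- `p` forces that `a` and `b` are different. -/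
def FNe (a b : Nm) (p : Q) : Prop := ∀ q ≤ p, ¬ FEq a b q

theorem FNe.mono {a b : Nm} {p q : Q} (h : FNe a b p) (hq : q ≤ p) : FNe a b q :=
  fun r hr => h r (hr.trans hq)

theorem FNe.symm {a b : Nm} {p : Q} (h : FNe a b p) : FNe b a p := fun r hr e => h r hr e.symm

theorem FNe.vadd (σ : Gam) {a b : Nm} {p : Q} (h : FNe a b p) :
    FNe (σ +ᵥ a) (σ +ᵥ b) (σ +ᵥ p) := fun q hq e =>
  h (σ +ᵥ q) (vadd_le_swap hq) (by simpa only [vadd_vadd_self] using feq_vadd σ e)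

theorem exists_fne {a b : Nm} {p : Q} (h : ¬ FEq a b p) : ∃ q ≤ p, FNe a b q := by
  by_contra h'
  refine h (FEq.reg fun q hq => ?_)
  by_contra h''
  exact h' ⟨q, hq, fun r hr e => h'' ⟨r, hr, e⟩⟩

/-- The name is fixed by all flips of type at least `k`. -/
def Fix (k : ℕ) (τ : Nm) : Prop := ∀ σ, InH k σ → FEq (σ +ᵥ τ) τ ⊤

theorem Fix.mono {k l : ℕ} {τ : Nm} (h : Fix k τ) (hkl : k ≤ l) : Fix l τ :=
  fun σ hσ => h σ (hσ.mono hkl)

theorem Fix.vadd {k : ℕ} {τ : Nm} (h : Fix k τ) (ρ : Gam) : Fix k (ρ +ᵥ τ) := fun σ hσ => by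
  rw [vadd_swap]
  exact feq_vadd_top ρ (h σ hσ) _

theorem fix_of {k : ℕ} {ν : Nm}
    (h : ∀ σ, InH k σ → ∀ i, FMem (σ +ᵥ ν.A i) ν (σ +ᵥ ν.B i)) : Fix k ν := by
  intro σ hσ
  rw [feq_iff]
  constructor
  · rw [vadd_eq σ ν]
    exact fun i q _ hi => (h σ hσ i).mono hi
  · intro j q _ hj
    have := fmem_vadd σ (h σ hσ j)
    rw [vadd_vadd_self, vadd_vadd_self] at this
    exact this.mono hj

/-- Hereditarily symmetric names. -/
def HS : Nm → Prop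
  | .mk ι A B => (∃ k, Fix k (.mk ι A B)) ∧ ∀ i, HS (A i)

theorem hs_iff (τ : Nm) : HS τ ↔ (∃ k, Fix k τ) ∧ ∀ i, HS (τ.A i) := by
  cases τ; rfl

theorem HS.fix {τ : Nm} (h : HS τ) : ∃ k, Fix k τ := ((hs_iff τ).1 h).1

theorem HS.child {τ : Nm} (h : HS τ) (i : τ.I) : HS (τ.A i) := ((hs_iff τ).1 h).2 i

theorem HS.vadd (σ : Gam) : ∀ {τ : Nm}, HS τ → HS (σ +ᵥ τ) := by
  intro τ
  induction τ using Name.ind with
  | h τ ih =>
    intro h
    obtain ⟨k, hk⟩ := h.fix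
    rw [hs_iff]
    refine ⟨⟨k, hk.vadd σ⟩, ?_⟩
    rw [vadd_eq]
    exact fun i => ih i (h.child i)

theorem exists_fix_list {l : List Nm} (h : ∀ x ∈ l, HS x) : ∃ k, ∀ x ∈ l, Fix k x := by
  induction l with
  | nil => exact ⟨0, by simp⟩
  | cons a l ih =>
    obtain ⟨k, hk⟩ := ih fun x hx => h x (List.mem_cons_of_mem _ hx)
    obtain ⟨k', hk'⟩ := (h a List.mem_cons_self).fix
    refine ⟨max k k', fun x hx => ?_⟩
    rcases List.mem_cons.1 hx with rfl | hx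
    exacts [hk'.mono (le_max_right _ _), (hk x hx).mono (le_max_left _ _)]

theorem fix_fam {ι : Type} {A : ι → Nm} {k : ℕ}
    (h : ∀ σ, InH k σ → ∀ i, ∃ j, FEq (σ +ᵥ A i) (A j) ⊤) : Fix k (fam A) := by
  refine fix_of fun σ hσ i => ?_
  obtain ⟨j, e⟩ := h σ hσ i
  exact FMem.of_feq (τ := fam A) (j := j) le_top (e.mono le_top)

theorem hs_mk {ι : Type} {A : ι → Nm} {B : ι → Q} {k : ℕ} (h : Fix k (.mk ι A B))
    (hA : ∀ i, HS (A i)) : HS (.mk ι A B) := ⟨⟨k, h⟩, hA⟩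

theorem fix_emp (k : ℕ) : Fix k emp := fix_of fun _ _ i => i.elim

theorem hs_emp : HS emp := hs_mk (fix_emp 0) fun i => i.elim

theorem feq_fam {ι : Type} {A A' : ι → Nm} {p : Q} (h : ∀ i, FEq (A i) (A' i) p) :
    FEq (fam A) (fam A') p := by
  rw [feq_def]
  exact ⟨fun i q hq _ => ⟨q, le_rfl, i, le_top, (h i).mono hq⟩,
    fun i q hq _ => ⟨q, le_rfl, i, le_top, (h i).mono hq⟩⟩

theorem vadd_fam (σ : Gam) {ι : Type} (A : ι → Nm) (p : Q) :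
    FEq (σ +ᵥ fam A) (fam fun i => σ +ᵥ A i) p := by
  rw [vadd_eq, feq_def]
  exact ⟨fun i q _ _ => ⟨q, le_rfl, i, le_top, feq_refl _ _⟩,
    fun i q _ _ => ⟨q, le_rfl, i, le_vadd_top _ _, feq_refl _ _⟩⟩

theorem feq_upair {a a' b b' : Nm} {p : Q} (h₁ : FEq a a' p) (h₂ : FEq b b' p) :
    FEq (upair a b) (upair a' b') p :=
  feq_fam fun ⟨i⟩ => by cases i; exacts [h₂, h₁]

theorem vadd_upair (σ : Gam) (a b : Nm) (p : Q) :
    FEq (σ +ᵥ upair a b) (upair (σ +ᵥ a) (σ +ᵥ b)) p :=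
  feq_trans (vadd_fam σ _ p) (feq_fam fun ⟨i⟩ => by cases i <;> exact feq_refl _ _)

theorem vadd_pairN (σ : Gam) (a b : Nm) (p : Q) :
    FEq (σ +ᵥ pairN a b) (pairN (σ +ᵥ a) (σ +ᵥ b)) p :=
  feq_trans (vadd_upair σ _ _ p) (feq_upair (vadd_upair σ _ _ p) (vadd_upair σ _ _ p))

theorem feq_pairN {a a' b b' : Nm} {p : Q} (h₁ : FEq a a' p) (h₂ : FEq b b' p) :
    FEq (pairN a b) (pairN a' b') p :=
  feq_upair (feq_upair h₁ h₁) (feq_upair h₁ h₂)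

theorem hs_upair {a b : Nm} (ha : HS a) (hb : HS b) : HS (upair a b) := by
  obtain ⟨k, hk⟩ := ha.fix
  obtain ⟨l, hl⟩ := hb.fix
  refine hs_mk (k := max k l) (fun σ hσ => feq_trans (vadd_upair σ a b ⊤)
    (feq_upair (hk σ (hσ.mono (le_max_left _ _))) (hl σ (hσ.mono (le_max_right _ _))))) ?_
  rintro ⟨i⟩
  cases i
  exacts [hb, ha]

theorem hs_pairN {a b : Nm} (ha : HS a) (hb : HS b) : HS (pairN a b) :=
  hs_upair (hs_upair ha ha) (hs_upair ha hb)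

theorem fix_ordN {X : Type} {r : X → X → Prop} (wf : WellFounded r) (x : X) :
    Fix 0 (ordN wf x : Nm) ∧ HS (ordN wf x) := by
  induction x using wf.induction with
  | h x ih =>
    rw [ordN_eq]
    have : Fix 0 (setN wf {y | r y x} : Nm) :=
      fix_fam fun σ hσ i => ⟨i, (ih i.1 i.2).1 σ hσ⟩
    exact ⟨this, hs_mk this fun i => (ih i.1 i.2).2⟩

theorem hs_setN {X : Type} {r : X → X → Prop} (wf : WellFounded r) (s : Set X) :
    HS (setN wf s) :=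
  hs_mk (fix_fam fun σ hσ i => ⟨i, (fix_ordN wf i.1).1 σ hσ⟩) fun i => (fix_ordN wf i.1).2

/-- The family of all translates of a family of names. -/
noncomputable def orb {ι : Type} (A : ι → Nm) : Nm := fam fun x : Gam × ι => x.1 +ᵥ A x.2

theorem fix_orb {ι : Type} (A : ι → Nm) : Fix 0 (orb A) :=
  fix_fam fun σ _ x => ⟨(σ + x.1, x.2), by rw [add_vadd]; exact feq_refl _ _⟩

theorem hs_orb {ι : Type} {A : ι → Nm} (h : ∀ i, HS (A i)) : HS (orb A) :=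
  hs_mk (fix_orb A) fun x => (h x.2).vadd _

/-! ### Symmetric forcing -/

def SForces : Fml → (ℕ → Nm) → Q → Prop
  | .mem i j, w, p => FMem (w i) (w j) p
  | .eq i j, w, p => FEq (w i) (w j) p
  | .bot, _, _ => False
  | .imp φ ψ, w, p => ∀ q ≤ p, SForces φ w q → SForces ψ w q
  | .all φ, w, p => ∀ τ, HS τ → SForces φ (cons τ w) p

theorem SForces.mono : ∀ {φ : Fml} {w : ℕ → Nm} {p q : Q},
    SForces φ w p → q ≤ p → SForces φ w q := by
  intro φ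
  induction φ with
  | mem i j => intro w p q h hq; exact FMem.mono h hq
  | eq i j => intro w p q h hq; exact FEq.mono h hq
  | bot => intro w p q h _; exact h
  | imp φ ψ _ _ => intro w p q h hq r hr; exact h r (hr.trans hq)
  | all φ ih => intro w p q h hq τ hτ; exact ih (h τ hτ) hq

theorem SForces.reg : ∀ {φ : Fml} {w : ℕ → Nm} {p : Q},
    (∀ q ≤ p, ∃ r ≤ q, SForces φ w r) → SForces φ w p := by
  intro φ
  induction φ with
  | mem i j => intro w p h; exact FMem.reg h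
  | eq i j => intro w p h; exact FEq.reg h
  | bot => intro w p h; obtain ⟨_, _, h⟩ := h p le_rfl; exact h
  | imp φ ψ _ ih₂ =>
    intro w p h q hq hφ
    refine ih₂ fun r hr => ?_
    obtain ⟨s, hs, h⟩ := h r (hr.trans hq)
    exact ⟨s, hs, h s le_rfl (hφ.mono (hs.trans hr))⟩
  | all φ ih =>
    intro w p h τ hτ
    refine ih fun q hq => ?_
    obtain ⟨r, hr, h⟩ := h q hq
    exact ⟨r, hr, h τ hτ⟩

theorem SForces.vadd (σ : Gam) : ∀ {φ : Fml} {w : ℕ → Nm} {p : Q},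
    SForces φ w p → SForces φ (fun k => σ +ᵥ w k) (σ +ᵥ p) := by
  intro φ
  induction φ with
  | mem i j => intro w p h; exact fmem_vadd σ h
  | eq i j => intro w p h; exact feq_vadd σ h
  | bot => intro w p h; exact h
  | imp φ ψ ih₁ ih₂ =>
    intro w p h q hq hφ
    have h₁ := ih₁ hφ
    simp only [vadd_vadd_self] at h₁
    simpa only [vadd_vadd_self] using ih₂ (h _ (vadd_le_swap hq) h₁)
  | all φ ih =>
    intro w p h τ hτ
    have := ih (h _ (hτ.vadd σ))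
    rwa [comp_cons (fun x : Nm => σ +ᵥ x), vadd_vadd_self] at this

theorem SForces.congr : ∀ {φ : Fml} {w w' : ℕ → Nm} {p : Q}, (∀ k, FEq (w k) (w' k) p) →
    SForces φ w p → SForces φ w' p := by
  intro φ
  induction φ with
  | mem i j => intro w w' p e h; exact fmem_right (fmem_left (e i).symm h) (e j)
  | eq i j => intro w w' p e h; exact feq_trans (e i).symm (feq_trans h (e j))
  | bot => intro w w' p _ h; exact h
  | imp φ ψ ih₁ ih₂ =>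
    intro w w' p e h q hq hφ
    exact ih₂ (fun k => (e k).mono hq) (h q hq (ih₁ (fun k => ((e k).mono hq).symm) hφ))
  | all φ ih =>
    intro w w' p e h τ hτ
    refine ih (fun k => ?_) (h τ hτ)
    cases k
    exacts [feq_refl _ _, e _]

def sepS (τ : Nm) (φ : Fml) (l : List Nm) : Nm :=
  subN τ {x | x.2 ≤ τ.B x.1 ∧ SForces φ (env emp (τ.A x.1 :: l)) x.2}

theorem fix_sepS {k : ℕ} {τ : Nm} (hτ : Fix k τ) (φ : Fml) {l : List Nm}
    (hl : ∀ x ∈ l, Fix k x) : Fix k (sepS τ φ l) := by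
  refine fix_of fun σ hσ ⟨⟨i, q⟩, h₁, h₂⟩ => ?_
  change FMem (σ +ᵥ τ.A i) _ (σ +ᵥ q)
  have h₃ : FMem (σ +ᵥ τ.A i) τ (σ +ᵥ q) :=
    fmem_right (fmem_vadd σ (fmem_child τ i h₁)) ((hτ σ hσ).mono le_top)
  intro r hr
  obtain ⟨s, hs, j, hj, e⟩ := h₃ r hr
  refine ⟨s, hs, ⟨(j, s), hj, ?_⟩, le_rfl, e⟩
  refine SForces.congr (fun n => ?_) ((h₂.vadd σ).mono (hs.trans hr))
  rw [env_cons, env_cons]
  cases n with
  | zero => exact e
  | succ n =>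
    exact ((env_mem (S := {x | Fix k x}) (fix_emp k) hl n) σ hσ).mono le_top

theorem hs_sepS {τ : Nm} (hτ : HS τ) (φ : Fml) {l : List Nm} (hl : ∀ x ∈ l, HS x) :
    HS (sepS τ φ l) := by
  obtain ⟨k, hk⟩ := hτ.fix
  obtain ⟨k', hk'⟩ := exists_fix_list hl
  exact hs_mk (fix_sepS (hk.mono (le_max_left k k')) φ
    fun x hx => (hk' x hx).mono (le_max_right _ _)) fun x => hτ.child _

open Classical in
noncomputable def witS (φ : Fml) (l : List Nm) (q : Q) : Nm :=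
  if h : ∃ ρ, HS ρ ∧ SForces φ (env emp (ρ :: l)) q then h.choose else emp

theorem witS_spec {φ : Fml} {l : List Nm} {q : Q} {ρ : Nm} (hρ : HS ρ)
    (h : SForces φ (env emp (ρ :: l)) q) : SForces φ (env emp (witS φ l q :: l)) q := by
  have h' : ∃ ρ, HS ρ ∧ SForces φ (env emp (ρ :: l)) q := ⟨ρ, hρ, h⟩
  unfold witS
  rw [dif_pos h']
  exact h'.choose_spec.2

theorem hs_witS (φ : Fml) (l : List Nm) (q : Q) : HS (witS φ l q) := by
  unfold witS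
  split_ifs with h
  exacts [h.choose_spec.1, hs_emp]

noncomputable def unionS (τ : Nm) : Nm :=
  orb (fun x : Σ i : τ.I, (τ.A i).I => (τ.A x.1).A x.2)

noncomputable def powS (τ : Nm) : Nm :=
  orb (fun S : {S : Set (τ.I × Q) // HS (subN τ S)} => subN τ S.1)

noncomputable def collS (τ : Nm) (φ : Fml) (l : List Nm) : Nm :=
  orb (fun x : τ.I × Q => witS φ (τ.A x.1 :: l) x.2)

theorem hs_unionS {τ : Nm} (h : HS τ) : HS (unionS τ) := hs_orb fun x => (h.child x.1).child _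

theorem hs_powS (τ : Nm) : HS (powS τ) :=
  hs_orb fun S : {S : Set (τ.I × Q) // HS (subN τ S)} => S.2

theorem hs_collS (τ : Nm) (φ : Fml) (l : List Nm) : HS (collS τ φ l) :=
  hs_orb fun _ => hs_witS _ _ _

theorem hs_child (k : ℕ) {τ : Nm} (h : HS τ) : HS (child k τ) := by
  unfold child
  split_ifs
  exacts [h.child _, hs_emp]

/-- The closure operations. -/
noncomputable def opS (t : ℕ) (φ : Fml) (k : ℕ) (l : List Nm) : Nm :=
  match t with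
  | 0 => emp
  | 1 => upair (env emp l 0) (env emp l 1)
  | 2 => unionS (env emp l 0)
  | 3 => sepS (env emp l 0) φ l.tail
  | 4 => powS (env emp l 0)
  | 5 => collS (env emp l 0) φ l.tail
  | 6 => setN natWf Set.univ
  | _ => child k (env emp l 0)

theorem hs_opS (t : ℕ) (φ : Fml) (k : ℕ) {l : List Nm} (hl : ∀ x ∈ l, HS x) :
    HS (opS t φ k l) := by
  have h : ∀ n, HS (env emp l n) := env_mem (S := {x | HS x}) hs_emp hl
  match t with
  | 0 => exact hs_emp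
  | 1 => exact hs_upair (h 0) (h 1)
  | 2 => exact hs_unionS (h 0)
  | 3 => exact hs_sepS (h 0) φ fun x hx => hl x (List.mem_of_mem_tail hx)
  | 4 => exact hs_powS _
  | 5 => exact hs_collS _ _ _
  | 6 => exact hs_setN _ _
  | _ + 7 => exact hs_child k (h 0)

/-- The basic requirements. -/
def basicS (t : ℕ) (φ : Fml) (k : ℕ) (l : List Nm) (q : Q) (ρ : Nm) : Prop :=
  match t with
  | 0 => reqMem (env emp l 0) (env emp l 1) q ρ
  | 1 => reqEq (env emp l 0) (env emp l 1) q ρ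
  | 2 => SForces φ (env emp l) q ∨ ∀ r ≤ q, ¬ SForces φ (env emp l) r
  | 3 => (SForces φ (env emp (ρ :: l)) q ∧ ρ = witS φ l q) ∨
      ∀ r ≤ q, ∀ ρ', HS ρ' → ¬ SForces φ (env emp (ρ' :: l)) r
  | t + 4 => ρ = opS t φ k l

theorem basicS_dense (t : ℕ) (φ : Fml) (k : ℕ) {l : List Nm} (hl : ∀ x ∈ l, HS x) (p : Q) :
    ∃ q ≤ p, ∃ ρ, HS ρ ∧ basicS t φ k l q ρ := by
  have h : ∀ n, HS (env emp l n) := env_mem (S := {x | HS x}) hs_emp hl
  match t with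
  | 0 =>
    obtain ⟨q, hq, ρ, h' | ⟨i, h₁, h₂, rfl⟩⟩ := reqMem_dense (env emp l 0) (env emp l 1) p
    · exact ⟨q, hq, emp, hs_emp, Or.inl h'⟩
    · exact ⟨q, hq, _, (h 1).child i, Or.inr ⟨i, h₁, h₂, rfl⟩⟩
  | 1 =>
    obtain ⟨q, hq, ρ, h' | ⟨i, h₁, h₂, rfl⟩ | ⟨i, h₁, h₂, rfl⟩⟩ :=
      reqEq_dense (env emp l 0) (env emp l 1) p
    · exact ⟨q, hq, emp, hs_emp, Or.inl h'⟩
    · exact ⟨q, hq, _, (h 0).child i, Or.inr (Or.inl ⟨i, h₁, h₂, rfl⟩)⟩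
    · exact ⟨q, hq, _, (h 1).child i, Or.inr (Or.inr ⟨i, h₁, h₂, rfl⟩)⟩
  | 2 =>
    by_cases h : ∀ r ≤ p, ¬ SForces φ (env emp l) r
    · exact ⟨p, le_rfl, emp, hs_emp, Or.inr h⟩
    · push Not at h
      obtain ⟨r, hr, h⟩ := h
      exact ⟨r, hr, emp, hs_emp, Or.inl h⟩
  | 3 =>
    by_cases h : ∀ r ≤ p, ∀ ρ', HS ρ' → ¬ SForces φ (env emp (ρ' :: l)) r
    · exact ⟨p, le_rfl, emp, hs_emp, Or.inr h⟩
    · push Not at h
      obtain ⟨r, hr, ρ, hρ, h⟩ := h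
      exact ⟨r, hr, _, hs_witS _ _ _, Or.inl ⟨witS_spec hρ h, rfl⟩⟩
  | t + 4 => exact ⟨p, le_rfl, _, hs_opS t φ k hl, rfl⟩

/-- A filter that is generic over a set of symmetric names with enough closure properties. -/
structure Gn where
  N : Set Nm
  G : Set Q
  hs : ∀ {τ}, τ ∈ N → HS τ
  up : ∀ {p q}, p ∈ G → p ≤ q → q ∈ G
  dir : ∀ {p q}, p ∈ G → q ∈ G → ∃ r ∈ G, r ≤ p ∧ r ≤ q
  top : ⊤ ∈ G
  meets : ∀ t φ k l, (∀ x ∈ l, x ∈ N) → ∃ q ∈ G, ∃ ρ ∈ N, basicS t φ k l q ρ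

theorem exists_gn (p : Q) (C : Set Nm) (hC : C.Countable) (hs : ∀ x ∈ C, HS x) :
    ∃ g : Gn, p ∈ g.G ∧ C ⊆ g.N := by
  have := hC.to_subtype
  have : Inhabited {τ : Nm // HS τ} := ⟨⟨emp, hs_emp⟩⟩
  let D : (ℕ × Fml × ℕ) ⊕ C → List {τ : Nm // HS τ} → Q → {τ : Nm // HS τ} → Prop :=
    fun i l q ρ => match i with
    | .inl i => basicS i.1 i.2.1 i.2.2 (l.map Subtype.val) q ρ.1
    | .inr c => ρ.1 = c.1
  have : Nonempty ((ℕ × Fml × ℕ) ⊕ C) := ⟨.inl (0, .bot, 0)⟩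
  obtain ⟨N, s, hs', h0, h⟩ := exists_generic D (by
    rintro (i | c) l p
    · obtain ⟨q, hq, ρ, h₁, h₂⟩ := basicS_dense i.1 i.2.1 i.2.2 (l := l.map Subtype.val)
        (by simp only [List.mem_map]; rintro _ ⟨x, -, rfl⟩; exact x.2) p
      exact ⟨q, hq, ⟨ρ, h₁⟩, h₂⟩
    · exact ⟨p, le_rfl, ⟨c.1, hs _ c.2⟩, rfl⟩) p
  refine ⟨⟨Subtype.val '' N, {q | ∃ n, s n ≤ q}, ?_, ?_, ?_, ⟨0, le_top⟩, ?_⟩, ⟨0, h0.le⟩, ?_⟩
  · rintro _ ⟨x, -, rfl⟩
    exact x.2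
  · rintro p q ⟨n, hn⟩ hpq
    exact ⟨n, hn.trans hpq⟩
  · rintro p q ⟨n, hn⟩ ⟨m, hm⟩
    exact ⟨s (max n m), ⟨_, le_rfl⟩, (hs' (le_max_left _ _)).trans hn,
      (hs' (le_max_right _ _)).trans hm⟩
  · intro t φ k l hl
    obtain ⟨l', hl', rfl⟩ : ∃ l' : List {τ : Nm // HS τ}, (∀ x ∈ l', x ∈ N) ∧
        l'.map Subtype.val = l := by
      induction l with
      | nil => exact ⟨[], by simp, rfl⟩
      | cons a l ih =>
        obtain ⟨l', h₁, rfl⟩ := ih fun x hx => hl x (List.mem_cons_of_mem _ hx)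
        obtain ⟨x, hx, rfl⟩ := hl a List.mem_cons_self
        refine ⟨x :: l', fun y hy => ?_, rfl⟩
        rcases List.mem_cons.1 hy with rfl | hy
        exacts [hx, h₁ y hy]
    obtain ⟨n, a, ha, h⟩ := h (.inl (t, φ, k)) l' hl'
    exact ⟨s n, ⟨n, le_rfl⟩, a.1, ⟨a, ha, rfl⟩, h⟩
  · intro c hc
    obtain ⟨n, a, ha, h⟩ := h (.inr ⟨c, hc⟩) [] (by simp)
    exact ⟨a, ha, h⟩

end Pool.Agent.MP_a078ad_lc
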